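import Pool.Agent.Helper21.Reg.Residue

/-! # Density -/

noncomputable section

namespace Pool.Agent.Helper21.Reg

open Complex Filter Topology Set Metric MeasureTheory
open scoped ComplexConjugate

/-! ### algebra of chains -/

lemma tame_ne_zero {f g : ℂ → ℂ} {z : ℂ} (hf : MeromorphicAt f z) (hf' : meromorphicOrderAt f z ≠ ⊤)
    (hg : MeromorphicAt g z) (hg' : meromorphicOrderAt g z ≠ ⊤) : tame f g z ≠ 0 := by
  unfold tame
  have h1 := hf.meromorphicTrailingCoeffAt_ne_zero hf'
  have h2 := hg.meromorphicTrailingCoeffAt_ne_zero hg'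
  exact mul_ne_zero (zpow_ne_zero _ (by norm_num))
    (div_ne_zero (zpow_ne_zero _ h1) (zpow_ne_zero _ h2))

/-- all functions in the chain are elliptic -/
def EllChain (L : PeriodPair) (ξ : Chain) : Prop := ∀ t ∈ ξ, IsElliptic L t.2.1 ∧ IsElliptic L t.2.2

lemma chain_tame_ne_zero {L : PeriodPair} {ξ : Chain} (h : EllChain L ξ) (P : ℂ) :
    ξ.tame P ≠ 0 := by
  unfold Chain.tame
  intro h0
  rw [List.prod_eq_zero_iff, List.mem_map] at h0
  obtain ⟨t, ht, h1⟩ := h0
  obtain ⟨hf, hg⟩ := h t ht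
  exact (zpow_ne_zero _ (tame_ne_zero (hf.mero P) (hf.ne_top P) (hg.mero P) (hg.ne_top P))) h1

lemma tame_append (ξ η : Chain) (P : ℂ) : Chain.tame (ξ ++ η) P = ξ.tame P * η.tame P := by
  simp [Chain.tame]

lemma reg_append (L : PeriodPair) (ξ η : Chain) :
    Chain.reg L (ξ ++ η) = ξ.reg L + η.reg L := by
  simp [Chain.reg]

/-- multiply a chain by an integer -/
def smulChain (k : ℤ) (ξ : Chain) : Chain := ξ.map fun t => (k * t.1, t.2)

lemma tame_smulChain (k : ℤ) (ξ : Chain) (P : ℂ) : (smulChain k ξ).tame P = ξ.tame P ^ k := by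
  induction ξ with
  | nil => simp [smulChain, Chain.tame]
  | cons t ξ ih =>
    simp only [smulChain, Chain.tame, List.map_cons, List.prod_cons, List.map_map] at ih ⊢
    rw [ih, mul_zpow, ← zpow_mul, mul_comm k t.1]

lemma reg_smulChain (L : PeriodPair) (k : ℤ) (ξ : Chain) :
    (smulChain k ξ).reg L = k * ξ.reg L := by
  induction ξ with
  | nil => simp [smulChain, Chain.reg]
  | cons t ξ ih =>
    simp only [smulChain, Chain.reg, List.map_cons, List.sum_cons, List.map_map] at ih ⊢
    rw [ih]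
    push_cast
    ring

lemma realReg_append {L : PeriodPair} {S : Finset ℂ} {ξ η : Chain} (h1 : EllChain L ξ)
    (h2 : EllChain L η) :
    Chain.realReg L S (ξ ++ η) = ξ.realReg L S + η.realReg L S := by
  unfold Chain.realReg
  refine Prod.ext ?_ ?_
  · exact reg_append L ξ η
  · funext P
    simp only [tame_append, norm_mul, Prod.snd_add, Pi.add_apply]
    exact Real.log_mul (norm_ne_zero_iff.mpr (chain_tame_ne_zero h1 P))
      (norm_ne_zero_iff.mpr (chain_tame_ne_zero h2 P))

lemma realReg_smulChain {L : PeriodPair} {S : Finset ℂ} (k : ℤ) (ξ : Chain) :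
    Chain.realReg L S (smulChain k ξ) = (k : ℝ) • ξ.realReg L S := by
  unfold Chain.realReg
  refine Prod.ext ?_ ?_
  · simp [reg_smulChain]
  · funext P
    simp [tame_smulChain, Real.log_zpow]

lemma IsK2.append {L : PeriodPair} {S : Finset ℂ} {ξ η : Chain} (h1 : IsK2 L S ξ)
    (h2 : IsK2 L S η) : IsK2 L S (ξ ++ η) where
  elliptic t ht := by
    rcases List.mem_append.mp ht with h | h
    · exact h1.elliptic t h
    · exact h2.elliptic t h
  tame_eq_one P hP := by rw [tame_append, h1.tame_eq_one P hP, h2.tame_eq_one P hP, mul_one]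

lemma IsK2.smulChain {L : PeriodPair} {S : Finset ℂ} {ξ : Chain} (h1 : IsK2 L S ξ) (k : ℤ) :
    IsK2 L S (Reg.smulChain k ξ) where
  elliptic t ht := by
    simp only [Reg.smulChain, List.mem_map] at ht
    obtain ⟨s, hs, rfl⟩ := ht
    exact h1.elliptic s hs
  tame_eq_one P hP := by rw [tame_smulChain, h1.tame_eq_one P hP, one_zpow]

/-- The image of `K₂(U) ⊗ ℚ` under the real regulator, as a `ℚ`-subspace of `ℂ × ℝ^S`. -/
def image (L : PeriodPair) (S : Finset ℂ) : Submodule ℚ (ℂ × (S → ℝ)) where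
  carrier := {p | ∃ (m : ℕ) (ξ : Chain), 0 < m ∧ IsK2 L S ξ ∧ p = (m : ℝ)⁻¹ • ξ.realReg L S}
  zero_mem' := ⟨1, [], one_pos, ⟨by simp, by simp [Chain.tame]⟩, by
    refine Prod.ext ?_ ?_
    · simp [Chain.realReg, Chain.reg]
    · funext P; simp [Chain.realReg, Chain.tame]⟩
  add_mem' := by
    rintro p p' ⟨m, ξ, hm, hξ, rfl⟩ ⟨m', ξ', hm', hξ', rfl⟩
    refine ⟨m * m', smulChain m' ξ ++ smulChain m ξ', Nat.mul_pos hm hm',
      (hξ.smulChain _).append (hξ'.smulChain _), ?_⟩
    rw [realReg_append (hξ.smulChain _).elliptic (hξ'.smulChain _).elliptic, realReg_smulChain,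
      realReg_smulChain, smul_add, smul_smul, smul_smul]
    have h1 : (m : ℝ) ≠ 0 := by positivity
    have h2 : (m' : ℝ) ≠ 0 := by positivity
    congr 2
    · push_cast; field_simp
    · push_cast; field_simp
  smul_mem' := by
    rintro q p ⟨m, ξ, hm, hξ, rfl⟩
    refine ⟨q.den * m, smulChain q.num ξ, Nat.mul_pos q.den_pos hm, hξ.smulChain _, ?_⟩
    rw [realReg_smulChain, smul_smul, ← Rat.cast_smul_eq_qsmul ℝ q, smul_smul]
    congr 1
    have h1 : (m : ℝ) ≠ 0 := by positivity
    have h2 : (q.den : ℝ) ≠ 0 := by exact_mod_cast q.den_ne_zero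
    rw [Rat.cast_def]
    push_cast
    field_simp

section closure

variable {V : Type*} [NormedAddCommGroup V] [NormedSpace ℝ V] [Module ℚ V]
  [ContinuousConstSMul ℚ V] [IsScalarTower ℚ ℝ V]

lemma real_smul_mem (W : Submodule ℚ V) (r : ℝ) {v : V} (hv : v ∈ W.topologicalClosure) :
    r • v ∈ W.topologicalClosure := by
  have hcl : IsClosed (W.topologicalClosure : Set V) := W.isClosed_topologicalClosure
  have hpre : IsClosed ((fun r : ℝ => r • v) ⁻¹' (W.topologicalClosure : Set V)) :=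
    hcl.preimage (by fun_prop)
  have hsub : Set.range ((↑) : ℚ → ℝ) ⊆ (fun r : ℝ => r • v) ⁻¹' (W.topologicalClosure : Set V) := by
    rintro _ ⟨q, rfl⟩
    simp only [mem_preimage, SetLike.mem_coe]
    rw [Rat.cast_smul_eq_qsmul]
    exact W.topologicalClosure.smul_mem q hv
  have := closure_minimal hsub hpre
  rw [Rat.isDenseEmbedding_coe_real.dense.closure_range] at this
  exact this (mem_univ r)

end closure

/-- **Main theorem.** The closure of the image contains every vector whose residues sum to zero. -/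
theorem density (L : PeriodPair) (S : Finset ℂ)
    (hS : ∀ P ∈ S, ∀ Q ∈ S, P - Q ∈ L.lattice → P = Q) (p : ℂ × (S → ℝ))
    (hp : ∑ P, p.2 P = 0) : p ∈ (image L S).topologicalClosure := by
  classical
  set C := (image L S).topologicalClosure with hC
  have hle : image L S ≤ C := Submodule.le_topologicalClosure _
  have hsm : ∀ (r : ℝ) (v : ℂ × (S → ℝ)), v ∈ C → r • v ∈ C := fun r v hv =>
    real_smul_mem (image L S) r hv
  -- step (a): `(w, 0) ∈ C`
  have hK : ∀ c : ℂ, c ≠ 0 → ∃ w : ℂ, (w, (0 : S → ℝ)) ∈ C ∧ (c * w).re ≠ 0 := by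
    intro c hc
    obtain ⟨ξ, hξ, hne⟩ := exists_K2 L hc
    refine ⟨ξ.reg L, hle ⟨1, ξ, one_pos, ⟨hξ.elliptic, fun P _ => hξ.tame_eq_one P (by simp)⟩, ?_⟩,
      hne⟩
    refine Prod.ext ?_ ?_
    · simp [Chain.realReg]
    · funext P
      simp [Chain.realReg, hξ.tame_eq_one P (by simp)]
  have ha : ∀ w : ℂ, (w, (0 : S → ℝ)) ∈ C := by
    obtain ⟨w₁, h1, hne1⟩ := hK 1 one_ne_zero
    have hw₁ : w₁ ≠ 0 := by rintro rfl; simp at hne1
    obtain ⟨w₂, h2, hne2⟩ := hK (I * conj w₁) (mul_ne_zero I_ne_zero (by simpa using hw₁))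
    set d : ℝ := (conj w₁ * w₂).im with hd
    have hd0 : d ≠ 0 := by
      intro h0
      apply hne2
      rw [mul_assoc, Complex.I_mul_re, ← hd, h0, neg_zero]
    intro w
    have e : (w, (0 : S → ℝ)) = ((conj w * w₂).im / d) • (w₁, (0 : S → ℝ)) +
        ((conj w₁ * w).im / d) • (w₂, (0 : S → ℝ)) := by
      refine Prod.ext ?_ (by simp)
      simp only [Prod.fst_add, Prod.smul_fst]
      have hid : (d : ℂ) * w = ((conj w * w₂).im : ℂ) * w₁ + ((conj w₁ * w).im : ℂ) * w₂ := by
        rw [hd]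
        apply Complex.ext
        · simp [Complex.mul_im]; ring
        · simp [Complex.mul_im]; ring
      have hdc : (d : ℂ) ≠ 0 := by exact_mod_cast hd0
      simp only [Complex.real_smul]
      generalize (conj w * w₂).im = x at hid ⊢
      generalize (conj w₁ * w).im = y at hid ⊢
      push_cast
      field_simp
      linear_combination hid
    rw [e]
    exact C.add_mem (hsm _ _ h1) (hsm _ _ h2)
  -- step (b): differences of coordinate vectors
  have hb : ∀ P Q : S, ((0 : ℂ), (Pi.single P 1 - Pi.single Q 1 : S → ℝ)) ∈ C := by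
    intro P Q
    by_cases hPQ : P = Q
    · subst hPQ
      rw [sub_self]
      exact C.zero_mem
    have hPQ' : (P : ℂ) - Q ∉ L.lattice := fun h => hPQ (Subtype.ext (hS P P.2 Q Q.2 h))
    obtain ⟨ξ, hE, haway, r, hr, hP, hQ⟩ := exists_res L hPQ'
    have hmem : ξ.realReg L S ∈ C := by
      refine hle ⟨1, ξ, one_pos, ⟨hE, fun z hz => ?_⟩, by simp⟩
      exact haway z (hz P P.2) (hz Q Q.2)
    have hval : ξ.realReg L S = (ξ.reg L, r • (Pi.single P 1 - Pi.single Q 1 : S → ℝ)) := by
      refine Prod.ext rfl ?_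
      funext s
      simp only [Chain.realReg, Pi.smul_apply, Pi.sub_apply, smul_eq_mul]
      by_cases h1 : s = P
      · subst h1
        rw [hP]
        simp [hPQ]
      by_cases h2 : s = Q
      · subst h2
        rw [hQ]
        simp [h1]
      · have e1 : (s : ℂ) - P ∉ L.lattice := fun h => h1 (Subtype.ext (hS s s.2 P P.2 h))
        have e2 : (s : ℂ) - Q ∉ L.lattice := fun h => h2 (Subtype.ext (hS s s.2 Q Q.2 h))
        rw [haway s e1 e2]
        simp [h1, h2]
    rw [hval] at hmem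
    have h3 := C.sub_mem hmem (ha (ξ.reg L))
    have h4 := hsm r⁻¹ _ h3
    have e : r⁻¹ • ((ξ.reg L, r • (Pi.single P 1 - Pi.single Q 1 : S → ℝ)) -
        (ξ.reg L, (0 : S → ℝ))) = ((0 : ℂ), (Pi.single P 1 - Pi.single Q 1 : S → ℝ)) := by
      refine Prod.ext (by simp) ?_
      simp only [Prod.smul_snd, Prod.snd_sub, sub_zero]
      rw [smul_smul, inv_mul_cancel₀ hr, one_smul]
    rwa [e] at h4
  -- step (c): assemble
  obtain ⟨w, v⟩ := p
  simp only at hp
  have hsplit : (w, v) = (w, (0 : S → ℝ)) + ((0 : ℂ), v) := by simp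
  rw [hsplit]
  refine C.add_mem (ha w) ?_
  by_cases hne : Nonempty S
  · obtain ⟨Q⟩ := hne
    have hv : v = ∑ P, v P • (Pi.single P 1 - Pi.single Q 1 : S → ℝ) := by
      funext s
      simp only [Finset.sum_apply, Pi.smul_apply, Pi.sub_apply, smul_eq_mul, mul_sub,
        Finset.sum_sub_distrib]
      rw [← Finset.sum_mul, hp, zero_mul, sub_zero]
      simp [Pi.single_apply]
    have e : ((0 : ℂ), v) = ∑ P, v P • ((0 : ℂ), (Pi.single P 1 - Pi.single Q 1 : S → ℝ)) := by
      refine Prod.ext ?_ ?_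
      · simp [Prod.fst_sum]
      · simp only [Prod.snd_sum, Prod.smul_snd]
        exact hv
    rw [e]
    exact C.sum_mem fun P _ => hsm _ _ (hb P Q)
  · have : IsEmpty S := not_nonempty_iff.mp hne
    have hv : v = 0 := Subsingleton.elim _ _
    rw [hv]
    exact C.zero_mem

end Pool.Agent.Helper21.Reg
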