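import Pool.Agent.Helper21.Reg.Frame

/-! # Every lattice has two transverse frames -/

noncomputable section

namespace Pool.Agent.Helper21.Reg

open Complex Filter Topology Set Metric MeasureTheory
open scoped ComplexConjugate

/-- integral in the basis `(a, b)` -/
def Iab (F : ℂ → ℂ) (a b : ℂ) : ℂ := ∫ p, F ((p.1 : ℂ) * a + (p.2 : ℂ) * b) ∂(nu.prod nu)

lemma Iab_swap (F : ℂ → ℂ) (a b : ℂ) : Iab F a b = Iab F b a := by
  unfold Iab
  rw [← integral_prod_swap]
  simp only [Prod.fst_swap, Prod.snd_swap]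
  refine integral_congr_ae (Eventually.of_forall fun p => ?_)
  simp only
  rw [add_comm]

lemma mp_reflect : MeasurePreserving (fun y : ℝ => 1 - y) nu nu := by
  have h : MeasurePreserving (fun y : ℝ => 1 - y) volume volume :=
    Measure.measurePreserving_sub_left volume 1
  unfold nu
  rw [restrict_Ioc_eq_restrict_Icc]
  have h2 := h.restrict_preimage (s := Icc (0 : ℝ) 1) measurableSet_Icc
  have e : (fun y : ℝ => 1 - y) ⁻¹' Icc (0 : ℝ) 1 = Icc 0 1 := by
    ext y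
    simp only [mem_preimage, mem_Icc]
    constructor <;> intro hh <;> constructor <;> linarith [hh.1, hh.2]
  rwa [e] at h2

lemma Iab_neg {F : ℂ → ℂ} {a b : ℂ} (hb : ∀ z, F (z + b) = F z) : Iab F a (-b) = Iab F a b := by
  unfold Iab
  have hmp : MeasurePreserving (Prod.map (id : ℝ → ℝ) fun y : ℝ => 1 - y) (nu.prod nu)
      (nu.prod nu) := (MeasurePreserving.id nu).prod mp_reflect
  have hemb : MeasurableEmbedding (Prod.map (id : ℝ → ℝ) fun y : ℝ => 1 - y) :=
    MeasurableEmbedding.id.prodMap (Homeomorph.subLeft (1 : ℝ)).measurableEmbedding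
  rw [← hmp.integral_comp hemb]
  refine integral_congr_ae (Eventually.of_forall fun p => ?_)
  simp only [Prod.map_fst, Prod.map_snd, id]
  rw [← hb]
  congr 1
  push_cast; ring

lemma int_square (L : PeriodPair) (F : ℂ → ℂ) :
    ∫ p in Icc (0 : ℝ) 1 ×ˢ Icc (0 : ℝ) 1, F (p.1 * L.ω₁ + p.2 * L.ω₂) = Iab F L.ω₁ L.ω₂ := by
  unfold Iab
  rw [nu_prod]

lemma Iab_frame (F : ℂ → ℂ) {a b : ℂ} (ha : a ≠ 0) :
    ∫ p, F (a * zt (b / a) p) ∂(nu.prod nu) = Iab F a b := by
  unfold Iab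
  refine integral_congr_ae (Eventually.of_forall fun p => ?_)
  simp only [zt]
  congr 1
  field_simp

/-- General construction of a frame -/
lemma frame_of {L : PeriodPair} {a b : ℂ} (ha : a ≠ 0) (him : 0 < (b / a).im)
    (hlat : ∀ z, z ∈ L.lattice ↔ ∃ m n : ℤ, z = m * a + n * b)
    (hint : ∀ F : ℂ → ℂ, (∀ l ∈ L.lattice, ∀ z, F (z + l) = F z) →
      Iab F L.ω₁ L.ω₂ = Iab F a b) : Frame L a (b / a) where
  hu := ha
  hτ := him
  hlat z := by
    rw [hlat]
    constructor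
    · rintro ⟨m, n, rfl⟩
      exact ⟨m, n, by field_simp⟩
    · rintro ⟨m, n, h⟩
      refine ⟨m, n, ?_⟩
      have := congrArg (fun w => w * a) h
      simp only [div_mul_cancel₀ _ ha] at this
      rw [this]
      field_simp
  hint F hF := by rw [int_square, hint F hF, Iab_frame F ha]

lemma lattice_iff (L : PeriodPair) (z : ℂ) :
    z ∈ L.lattice ↔ ∃ m n : ℤ, z = m * L.ω₁ + n * L.ω₂ := by
  rw [PeriodPair.mem_lattice]
  constructor
  · rintro ⟨m, n, h⟩; exact ⟨m, n, h.symm⟩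
  · rintro ⟨m, n, h⟩; exact ⟨m, n, h.symm⟩

lemma omega_indep (L : PeriodPair) : L.ω₁ ≠ 0 ∧ L.ω₂ ≠ 0 ∧ (L.ω₂ / L.ω₁).im ≠ 0 := by
  have h1 := L.indep
  rw [LinearIndependent.pair_iff] at h1
  have hω₁ : L.ω₁ ≠ 0 := by
    intro h
    have := h1 1 0 (by simp [h])
    exact one_ne_zero this.1
  have hω₂ : L.ω₂ ≠ 0 := by
    intro h
    have := h1 0 1 (by simp [h])
    exact one_ne_zero this.2
  refine ⟨hω₁, hω₂, fun him => ?_⟩
  set r : ℝ := (L.ω₂ / L.ω₁).re with hr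
  have e : L.ω₂ / L.ω₁ = r := Complex.ext (by simp [hr]) (by simp [him])
  have e2 : L.ω₂ = r * L.ω₁ := by rw [← e]; field_simp
  have := h1 r (-1) (by rw [e2]; simp)
  exact (neg_ne_zero.mpr one_ne_zero) this.2

/-- two frames whose first vectors are `ω₁` and `ω₂` (in some order) -/
lemma exists_frames (L : PeriodPair) :
    (∃ τ, Frame L L.ω₁ τ) ∧ (∃ τ, Frame L L.ω₂ τ) := by
  obtain ⟨h1, h2, h3⟩ := omega_indep L
  have m1 := L.ω₁_mem_lattice
  have m2 := L.ω₂_mem_lattice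
  have key : (L.ω₁ / L.ω₂).im = -(L.ω₂ / L.ω₁).im * (Complex.normSq L.ω₁ / Complex.normSq L.ω₂) := by
    have n1 : Complex.normSq L.ω₁ ≠ 0 := by simpa using h1
    have n2 : Complex.normSq L.ω₂ ≠ 0 := by simpa using h2
    rw [Complex.div_im, Complex.div_im]
    field_simp
    ring
  have hpos : 0 < Complex.normSq L.ω₁ / Complex.normSq L.ω₂ :=
    div_pos (Complex.normSq_pos.mpr h1) (Complex.normSq_pos.mpr h2)
  rcases lt_or_gt_of_ne h3 with hneg | hpos'
  · -- negative orientation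
    constructor
    · refine ⟨-L.ω₂ / L.ω₁, frame_of h1 (by rw [neg_div]; simpa using hneg) ?_ ?_⟩
      · intro z
        rw [lattice_iff]
        constructor
        · rintro ⟨m, n, h⟩; exact ⟨m, -n, by rw [h]; push_cast; ring⟩
        · rintro ⟨m, n, h⟩; exact ⟨m, -n, by rw [h]; push_cast; ring⟩
      · intro F hF
        rw [Iab_neg (fun z => hF _ m2 z)]
    · refine ⟨L.ω₁ / L.ω₂, frame_of h2 (by rw [key]; nlinarith [mul_pos (neg_pos.mpr hneg) hpos]) ?_ ?_⟩
      · intro z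
        rw [lattice_iff]
        constructor
        · rintro ⟨m, n, h⟩; exact ⟨n, m, by rw [h]; ring⟩
        · rintro ⟨m, n, h⟩; exact ⟨n, m, by rw [h]; ring⟩
      · intro F hF
        rw [Iab_swap]
  · constructor
    · refine ⟨L.ω₂ / L.ω₁, frame_of h1 hpos' (lattice_iff L) (fun F _ => rfl)⟩
    · refine ⟨-L.ω₁ / L.ω₂, frame_of h2 ?_ ?_ ?_⟩
      · rw [neg_div, Complex.neg_im, key]
        nlinarith [mul_pos hpos' hpos]
      · intro z
        rw [lattice_iff]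
        constructor
        · rintro ⟨m, n, h⟩; exact ⟨n, -m, by rw [h]; push_cast; ring⟩
        · rintro ⟨m, n, h⟩; exact ⟨-n, m, by rw [h]; push_cast; ring⟩
      · intro F hF
        rw [Iab_neg (fun z => hF _ m1 z), Iab_swap]

/-- For every `c ≠ 0` some element of `K₂(E)` has `Re (c · reg) ≠ 0`. -/
lemma exists_K2 (L : PeriodPair) {c : ℂ} (hc : c ≠ 0) :
    ∃ ξ : Chain, IsK2 L ∅ ξ ∧ (c * ξ.reg L).re ≠ 0 := by
  obtain ⟨⟨τ₁, hF₁⟩, ⟨τ₂, hF₂⟩⟩ := exists_frames L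
  obtain ⟨h1, h2, h3⟩ := omega_indep L
  by_cases c1 : (c * (conj L.ω₁)⁻¹).im ≠ 0
  · exact exists_K2_frame hF₁ c1
  by_cases c2 : (c * (conj L.ω₂)⁻¹).im ≠ 0
  · exact exists_K2_frame hF₂ c2
  exfalso
  push Not at c1 c2
  set r : ℝ := (c * (conj L.ω₁)⁻¹).re with hr
  set s : ℝ := (c * (conj L.ω₂)⁻¹).re with hs
  have e1 : c * (conj L.ω₁)⁻¹ = r := Complex.ext (by simp [hr]) (by simp [c1])
  have e2 : c * (conj L.ω₂)⁻¹ = s := Complex.ext (by simp [hs]) (by simp [c2])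
  have n1 : conj L.ω₁ ≠ 0 := by simpa using h1
  have n2 : conj L.ω₂ ≠ 0 := by simpa using h2
  have hs0 : (s : ℂ) ≠ 0 := by
    rw [← e2]; exact mul_ne_zero hc (inv_ne_zero n2)
  have e3 : (r : ℂ) * conj L.ω₁ = s * conj L.ω₂ := by
    rw [← e1, ← e2]
    field_simp
  have e4 : (r : ℂ) * L.ω₁ = s * L.ω₂ := by
    have := congrArg conj e3
    simpa using this
  apply h3
  have : L.ω₂ / L.ω₁ = ((r / s : ℝ) : ℂ) := by
    push_cast
    field_simp
    linear_combination -e4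
  rw [this]
  simp

end Pool.Agent.Helper21.Reg
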