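import Pool.Agent.Helper21.Reg.Order

/-! # Averages of `log |Th|` and of `Th'/Th` in the direction `1` -/

noncomputable section

namespace Pool.Agent.Helper21.Reg

open Complex Filter Topology Set Metric MeasureTheory Real

lemma avg01 {E : Type*} [NormedAddCommGroup E] [NormedSpace ℝ E] (f : ℂ → E) :
    ∫ x in (0 : ℝ)..1, f (ee x) = circleAverage f 0 1 := by
  have h := intervalIntegral.integral_comp_mul_left (a := 0) (b := 1)
    (fun θ : ℝ => f (circleMap 0 1 θ)) (c := 2 * π) (by positivity)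
  rw [circleAverage_def]
  simp only [mul_zero, mul_one] at h
  rw [← h]
  refine intervalIntegral.integral_congr fun x _ => ?_
  simp only [circleMap, ee, zero_add, ofReal_one, one_mul]
  congr 2
  push_cast
  ring

lemma avg01_inv {E : Type*} [NormedAddCommGroup E] [NormedSpace ℝ E] (f : ℂ → E) :
    ∫ x in (0 : ℝ)..1, f (ee x)⁻¹ = circleAverage f 0 1 := by
  rw [avg01 (fun z => f z⁻¹), circleAverage_zero_one_congr_inv]

lemma mul_ball {A : ℂ} (hA : ‖A‖ < 1) {s : ℂ} (hs : s ∈ closedBall (0 : ℂ) 1) : ‖A * s‖ < 1 := by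
  rw [mem_closedBall_zero_iff] at hs
  rw [norm_mul]
  calc ‖A‖ * ‖s‖ ≤ ‖A‖ * 1 := by gcongr
    _ < 1 := by simpa using hA

lemma circ_log_qp {q : ℂ} (hq : ‖q‖ < 1) {A : ℂ} (hA : ‖A‖ < 1) :
    circleAverage (fun s => Real.log ‖qp q (A * s)‖) 0 1 = 0 := by
  have h1 : AnalyticOnNhd ℂ (fun s => qp q (A * s)) (closedBall 0 |1|) := by
    intro s _
    have : Differentiable ℂ (fun s => qp q (A * s)) :=
      (qp_differentiable hq).comp (by fun_prop)
    exact this.analyticAt s
  rw [AnalyticOnNhd.circleAverage_log_norm_of_ne_zero h1]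
  · simp [qp_zero]
  · intro s hs
    rw [abs_one] at hs
    exact qp_ne_zero hq (mul_ball hA hs)

/-- `s ↦ s * (qp'/qp)(s)` -/
def psi (q s : ℂ) : ℂ := s * logDeriv (qp q) s

lemma psi_differentiableAt {q : ℂ} (hq : ‖q‖ < 1) {s : ℂ} (hs : ‖s‖ < 1) :
    DifferentiableAt ℂ (psi q) s := by
  have h1 : AnalyticAt ℂ (qp q) s := (qp_differentiable hq).analyticAt s
  have h2 : DifferentiableAt ℂ (logDeriv (qp q)) s := by
    have : AnalyticAt ℂ (fun z => deriv (qp q) z / qp q z) s := h1.deriv.div h1 (qp_ne_zero hq hs)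
    exact this.differentiableAt
  exact differentiableAt_id.mul h2

lemma circ_psi {q : ℂ} (hq : ‖q‖ < 1) {A : ℂ} (hA : ‖A‖ < 1) :
    circleAverage (fun s => psi q (A * s)) 0 1 = 0 := by
  have hd : DifferentiableOn ℂ (fun s => psi q (A * s)) (closedBall 0 1) := by
    intro s hs
    refine DifferentiableAt.differentiableWithinAt ?_
    exact (psi_differentiableAt hq (mul_ball hA hs)).comp s (by fun_prop)
  have h2 : DiffContOnCl ℂ (fun s => psi q (A * s)) (ball 0 |1|) := by
    rw [abs_one]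
    exact DifferentiableOn.diffContOnCl (hd.mono (by
      rw [closure_ball _ one_ne_zero]))
  rw [h2.circleAverage]
  simp [psi]

/-- the logarithmic derivative of the theta product -/
def ka (τ z : ℂ) : ℂ := logDeriv (Th τ) z

variable {τ : ℂ} (hτ : 0 < τ.im)
include hτ

lemma ka_eq {z : ℂ} (h : Th τ z ≠ 0) :
    ka τ z = 2 * π * I * (psi (ee τ) (ee z) - psi (ee τ) (ee τ * (ee z)⁻¹)) := by
  have hq := norm_q_lt hτ
  have h1 : qp (ee τ) (ee z) ≠ 0 := left_ne_zero_of_mul h
  have h2 : qp (ee τ) (ee τ * (ee z)⁻¹) ≠ 0 := right_ne_zero_of_mul h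
  have dqp := qp_differentiable hq
  have hinv : Differentiable ℂ (fun z => ee τ * (ee z)⁻¹) :=
    (differentiable_ee.inv (fun z => ee_ne_zero z)).const_mul _
  have hdinv : deriv (fun z => ee τ * (ee z)⁻¹) z = -(2 * π * I) * (ee τ * (ee z)⁻¹) := by
    have hh : HasDerivAt (fun z => ee τ * (ee z)⁻¹)
        (ee τ * (-(2 * π * I * ee z) / (ee z) ^ 2)) z := by
      have := (differentiable_ee z).hasDerivAt
      rw [deriv_ee] at this
      exact (this.inv (ee_ne_zero z)).const_mul _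
    rw [hh.deriv]
    have := ee_ne_zero z
    field_simp
  unfold ka
  have e : Th τ = fun z => (qp (ee τ) ∘ ee) z * (qp (ee τ) ∘ (fun z => ee τ * (ee z)⁻¹)) z := by
    funext z; rfl
  rw [e, logDeriv_mul z h1 h2 ((dqp.comp differentiable_ee) z) ((dqp.comp hinv) z),
    logDeriv_comp (dqp _) (differentiable_ee z), logDeriv_comp (dqp _) (hinv z), deriv_ee, hdinv]
  unfold psi
  ring

omit hτ in
lemma ka_add_one (z : ℂ) : ka τ (z + 1) = ka τ z := by
  unfold ka logDeriv
  have h : deriv (Th τ) (z + 1) = deriv (Th τ) z := by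
    rw [← deriv_comp_add_const]
    congr 1
    funext w; exact Th_add_one w
  simp only [Pi.div_apply, h, Th_add_one]

lemma ka_add_tau {z : ℂ} (hz : Th τ z ≠ 0) : ka τ (z + τ) = ka τ z - 2 * π * I := by
  have h1 : ka τ (z + τ) = logDeriv (fun w => Th τ (w + τ)) z := by
    unfold ka logDeriv
    simp only [Pi.div_apply, deriv_comp_add_const]
  rw [h1]
  have e : (fun w => Th τ (w + τ)) = fun w => (-(ee w)⁻¹) * Th τ w := by
    funext w; rw [Th_add_tau hτ]
  have hinv : Differentiable ℂ (fun z => -(ee z)⁻¹) :=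
    (differentiable_ee.inv (fun z => ee_ne_zero z)).neg
  have hne : (fun w => -(ee w)⁻¹) z ≠ 0 := neg_ne_zero.mpr (inv_ne_zero (ee_ne_zero z))
  rw [e, logDeriv_mul (f := fun w => -(ee w)⁻¹) (g := Th τ) z hne hz (hinv z)
    (Th_differentiable hτ z)]
  have hd : logDeriv (fun z => -(ee z)⁻¹) z = -(2 * π * I) := by
    have hh : HasDerivAt (fun z => -(ee z)⁻¹) (-(-(2 * π * I * ee z) / (ee z) ^ 2)) z := by
      have := (differentiable_ee z).hasDerivAt
      rw [deriv_ee] at this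
      exact (this.inv (ee_ne_zero z)).neg
    unfold logDeriv
    simp only [Pi.div_apply, hh.deriv]
    have := ee_ne_zero z
    field_simp
  rw [hd]
  unfold ka
  ring

lemma Th_strip {x y : ℝ} (h0 : 0 < y) (h1 : y < 1) : Th τ (x + y * τ) ≠ 0 := by
  apply Th_ne_zero_of_im hτ
  · simp; positivity
  · simp; nlinarith

omit hτ in
lemma norm_ee_mul_lt (hτ : 0 < τ.im) {y : ℝ} (h0 : 0 < y) : ‖ee (y * τ)‖ < 1 := by
  apply norm_q_lt
  simp; positivity

/-- average of `log |Th|` over a horizontal segment in the strip `0 < y < 1` -/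
lemma avg_log_Th {y : ℝ} (h0 : 0 < y) (h1 : y < 1) :
    ∫ x in (0 : ℝ)..1, Real.log ‖Th τ (x + y * τ)‖ = 0 := by
  have hq := norm_q_lt hτ
  set A : ℂ := ee (y * τ) with hA
  set B : ℂ := ee τ * A⁻¹ with hB
  have hA1 : ‖A‖ < 1 := norm_ee_mul_lt hτ h0
  have hB1 : ‖B‖ < 1 := by
    rw [hB, hA, ← ee_neg, ← ee_add]
    apply norm_q_lt
    simp; nlinarith
  have hw : ∀ x : ℝ, ee (x : ℂ) ∈ closedBall (0 : ℂ) 1 := by
    intro x; rw [mem_closedBall_zero_iff, norm_ee]; simp
  have hw' : ∀ x : ℝ, (ee (x : ℂ))⁻¹ ∈ closedBall (0 : ℂ) 1 := by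
    intro x; rw [mem_closedBall_zero_iff, norm_inv, norm_ee]; simp
  have e : ∀ x : ℝ, Real.log ‖Th τ (x + y * τ)‖ =
      Real.log ‖qp (ee τ) (A * ee x)‖ + Real.log ‖qp (ee τ) (B * (ee x)⁻¹)‖ := by
    intro x
    have e1 : ee ((x : ℂ) + y * τ) = A * ee x := by rw [ee_add, mul_comm]
    have e2 : ee τ * (A * ee x)⁻¹ = B * (ee x)⁻¹ := by rw [hB, mul_inv]; ring
    unfold Th
    rw [e1, e2, norm_mul, Real.log_mul]
    · exact norm_ne_zero_iff.mpr (qp_ne_zero hq (mul_ball hA1 (hw x)))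
    · exact norm_ne_zero_iff.mpr (qp_ne_zero hq (mul_ball hB1 (hw' x)))
  have hc1 : Continuous fun x : ℝ => Real.log ‖qp (ee τ) (A * ee x)‖ := by
    refine Continuous.log ?_ fun x => norm_ne_zero_iff.mpr (qp_ne_zero hq (mul_ball hA1 (hw x)))
    exact ((qp_differentiable hq).continuous.comp
      (continuous_const.mul (differentiable_ee.continuous.comp continuous_ofReal))).norm
  have hc2 : Continuous fun x : ℝ => Real.log ‖qp (ee τ) (B * (ee x)⁻¹)‖ := by
    refine Continuous.log ?_ fun x => norm_ne_zero_iff.mpr (qp_ne_zero hq (mul_ball hB1 (hw' x)))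
    exact ((qp_differentiable hq).continuous.comp
      (continuous_const.mul ((differentiable_ee.continuous.comp continuous_ofReal).inv₀
        (fun x => ee_ne_zero _)))).norm
  simp_rw [e]
  rw [intervalIntegral.integral_add (hc1.intervalIntegrable _ _) (hc2.intervalIntegrable _ _),
    avg01 (fun s => Real.log ‖qp (ee τ) (A * s)‖), circ_log_qp hq hA1,
    avg01_inv (fun s => Real.log ‖qp (ee τ) (B * s)‖), circ_log_qp hq hB1, add_zero]

lemma ka_continuousAt {z : ℂ} (hz : Th τ z ≠ 0) : ContinuousAt (ka τ) z := by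
  have h1 := Th_analyticAt hτ z
  have : AnalyticAt ℂ (fun z => deriv (Th τ) z / Th τ z) z := h1.deriv.div h1 hz
  exact this.continuousAt

/-- average of `Th'/Th` over a horizontal segment in the strip `0 < y < 1` -/
lemma avg_ka {y : ℝ} (h0 : 0 < y) (h1 : y < 1) :
    ∫ x in (0 : ℝ)..1, ka τ (x + y * τ) = 0 := by
  have hq := norm_q_lt hτ
  set A : ℂ := ee (y * τ) with hA
  set B : ℂ := ee τ * A⁻¹ with hB
  have hA1 : ‖A‖ < 1 := norm_ee_mul_lt hτ h0
  have hB1 : ‖B‖ < 1 := by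
    rw [hB, hA, ← ee_neg, ← ee_add]
    apply norm_q_lt
    simp; nlinarith
  have hw : ∀ x : ℝ, ee (x : ℂ) ∈ closedBall (0 : ℂ) 1 := by
    intro x; rw [mem_closedBall_zero_iff, norm_ee]; simp
  have hw' : ∀ x : ℝ, (ee (x : ℂ))⁻¹ ∈ closedBall (0 : ℂ) 1 := by
    intro x; rw [mem_closedBall_zero_iff, norm_inv, norm_ee]; simp
  have e : ∀ x : ℝ, ka τ (x + y * τ) =
      2 * π * I * (psi (ee τ) (A * ee x) - psi (ee τ) (B * (ee x)⁻¹)) := by
    intro x
    have e1 : ee ((x : ℂ) + y * τ) = A * ee x := by rw [ee_add, mul_comm]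
    have e2 : ee τ * (A * ee x)⁻¹ = B * (ee x)⁻¹ := by rw [hB, mul_inv]; ring
    rw [ka_eq hτ (Th_strip hτ h0 h1), e1, e2]
  have hc1 : Continuous fun x : ℝ => psi (ee τ) (A * ee x) := by
    rw [continuous_iff_continuousAt]
    intro x
    have h2 := (psi_differentiableAt hq (mul_ball hA1 (hw x))).continuousAt
    have h3 : ContinuousAt (fun x : ℝ => A * ee x) x :=
      (continuous_const.mul (differentiable_ee.continuous.comp continuous_ofReal)).continuousAt
    exact ContinuousAt.comp (f := fun x : ℝ => A * ee x) h2 h3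
  have hc2 : Continuous fun x : ℝ => psi (ee τ) (B * (ee x)⁻¹) := by
    rw [continuous_iff_continuousAt]
    intro x
    have h2 := (psi_differentiableAt hq (mul_ball hB1 (hw' x))).continuousAt
    have h3 : ContinuousAt (fun x : ℝ => B * (ee x)⁻¹) x :=
      (continuous_const.mul ((differentiable_ee.continuous.comp continuous_ofReal).inv₀
        (fun x => ee_ne_zero _))).continuousAt
    exact ContinuousAt.comp (f := fun x : ℝ => B * (ee x)⁻¹) h2 h3
  simp_rw [e]
  rw [intervalIntegral.integral_const_mul,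
    intervalIntegral.integral_sub (hc1.intervalIntegrable _ _) (hc2.intervalIntegrable _ _),
    avg01 (fun s => psi (ee τ) (A * s)), circ_psi hq hA1,
    avg01_inv (fun s => psi (ee τ) (B * s)), circ_psi hq hB1]
  simp

/-- average of `log |Th|` in the strip `-1 < y < 0` -/
lemma avg_log_Th' {y : ℝ} (h0 : -1 < y) (h1 : y < 0) :
    ∫ x in (0 : ℝ)..1, Real.log ‖Th τ (x + y * τ)‖ = -(2 * π * τ.im * y) := by
  have e : ∀ x : ℝ, Real.log ‖Th τ (x + y * τ)‖ =
      Real.log ‖Th τ (x + ((y + 1 : ℝ) : ℂ) * τ)‖ - 2 * π * τ.im * y := by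
    intro x
    have e1 : (x : ℂ) + ((y + 1 : ℝ) : ℂ) * τ = (x + y * τ) + τ := by push_cast; ring
    have h2 : Th τ (x + ((y + 1 : ℝ) : ℂ) * τ) ≠ 0 := Th_strip hτ (by linarith) (by linarith)
    have h3 : Th τ ((x : ℂ) + y * τ) ≠ 0 := by
      intro h3
      rw [e1, Th_add_tau hτ, h3, mul_zero] at h2
      exact h2 rfl
    rw [e1, Th_add_tau hτ, norm_mul, Real.log_mul, norm_neg, norm_inv, norm_ee, Real.log_inv,
      Real.log_exp]
    · simp
      ring
    · simp [ee_ne_zero]
    · exact norm_ne_zero_iff.mpr h3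
  have hc : Continuous fun x : ℝ => Real.log ‖Th τ (x + ((y + 1 : ℝ) : ℂ) * τ)‖ := by
    refine Continuous.log ?_ fun x => norm_ne_zero_iff.mpr (Th_strip hτ (by linarith) (by linarith))
    exact ((Th_differentiable hτ).continuous.comp (by fun_prop)).norm
  simp_rw [e]
  rw [intervalIntegral.integral_sub (hc.intervalIntegrable _ _) (by simp),
    avg_log_Th hτ (by linarith) (by linarith)]
  simp

/-- average of `Th'/Th` in the strip `-1 < y < 0` -/
lemma avg_ka' {y : ℝ} (h0 : -1 < y) (h1 : y < 0) :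
    ∫ x in (0 : ℝ)..1, ka τ (x + y * τ) = 2 * π * I := by
  have e : ∀ x : ℝ, ka τ (x + y * τ) = ka τ (x + ((y + 1 : ℝ) : ℂ) * τ) + 2 * π * I := by
    intro x
    have e1 : (x : ℂ) + ((y + 1 : ℝ) : ℂ) * τ = (x + y * τ) + τ := by push_cast; ring
    have h2 : Th τ (x + ((y + 1 : ℝ) : ℂ) * τ) ≠ 0 := Th_strip hτ (by linarith) (by linarith)
    have h3 : Th τ ((x : ℂ) + y * τ) ≠ 0 := by
      intro h3
      rw [e1, Th_add_tau hτ, h3, mul_zero] at h2
      exact h2 rfl
    rw [e1, ka_add_tau hτ h3]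
    ring
  have hc : Continuous fun x : ℝ => ka τ (x + ((y + 1 : ℝ) : ℂ) * τ) := by
    rw [continuous_iff_continuousAt]
    intro x
    have h2 := ka_continuousAt hτ (z := x + ((y + 1 : ℝ) : ℂ) * τ)
      (Th_strip hτ (by linarith) (by linarith))
    exact ContinuousAt.comp (f := fun x : ℝ => (x : ℂ) + ((y + 1 : ℝ) : ℂ) * τ) h2 (by fun_prop)
  simp_rw [e]
  rw [intervalIntegral.integral_add (hc.intervalIntegrable _ _) (by simp),
    avg_ka hτ (by linarith) (by linarith)]
  simp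

end Pool.Agent.Helper21.Reg
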