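import Mathlib

/-! # Convolution in the first variable of periodic functions on `ℝ × ℝ` -/

noncomputable section

namespace Pool.Agent.Helper21.Reg

open Filter Topology Set MeasureTheory

/-- Lebesgue measure on `(0, 1]` -/
def nu : Measure ℝ := volume.restrict (Ioc (0 : ℝ) 1)

instance : IsFiniteMeasure nu := by unfold nu; infer_instance

lemma nu_univ : nu univ = 1 := by simp [nu]

instance : IsProbabilityMeasure nu := ⟨nu_univ⟩

lemma ae_nu : ∀ᵐ y ∂nu, y ∈ Ioc (0 : ℝ) 1 := ae_restrict_mem measurableSet_Ioc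

lemma integral_nu {E : Type*} [NormedAddCommGroup E] [NormedSpace ℝ E] (f : ℝ → E) :
    ∫ x, f x ∂nu = ∫ x in (0 : ℝ)..1, f x := by
  rw [intervalIntegral.integral_of_le zero_le_one]; rfl

lemma continuous_integrable_nu {E : Type*} [NormedAddCommGroup E] {f : ℝ → E}
    (hf : Continuous f) : Integrable f nu := by
  unfold nu
  rw [restrict_Ioc_eq_restrict_Icc]
  exact hf.continuousOn.integrableOn_Icc

lemma integral_nu_shift {E : Type*} [NormedAddCommGroup E] [NormedSpace ℝ E] {f : ℝ → E}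
    (hf : ∀ x, f (x + 1) = f x) (t : ℝ) : ∫ x, f (x - t) ∂nu = ∫ x, f x ∂nu := by
  have hp : Function.Periodic f 1 := hf
  rw [integral_nu, integral_nu, intervalIntegral.integral_comp_sub_right]
  have := hp.intervalIntegral_add_eq (0 - t) 0
  rw [zero_add] at this
  rw [← this]
  congr 1
  ring

lemma integral_nu_reflect {E : Type*} [NormedAddCommGroup E] [NormedSpace ℝ E] {f : ℝ → E}
    (hf : ∀ x, f (x + 1) = f x) (t : ℝ) : ∫ x, f (t - x) ∂nu = ∫ x, f x ∂nu := by
  have hp : Function.Periodic f 1 := hf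
  rw [integral_nu, integral_nu, intervalIntegral.integral_comp_sub_left]
  have := hp.intervalIntegral_add_eq (t - 1) 0
  rw [zero_add] at this
  rw [← this]
  congr 1
  ring

/-- Data for the convolution lemma. -/
structure ConvData (A B : ℝ × ℝ → ℂ) (M : ℝ) : Prop where
  Am : Measurable A
  Bm : Measurable B
  A1 : ∀ x y, A (x + 1, y) = A (x, y)
  B1 : ∀ x y, B (x + 1, y) = B (x, y)
  Ai : Integrable A (nu.prod nu)
  Bi : Integrable B (nu.prod nu)
  Ac : ∀ᵐ y ∂nu, Continuous fun x => A (x, y)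
  Bc : ∀ᵐ y ∂nu, Continuous fun x => B (x, y)
  hM : ∀ y ∈ Ioc (0 : ℝ) 1, ∀ x x', ‖A (x', y)‖ * ‖B (x, y)‖ ≤ M * (‖A (x', y)‖ + ‖B (x, y)‖)

/-- The convolution. -/
def rho (A B : ℝ × ℝ → ℂ) (t : ℝ) : ℂ := ∫ p, A (p.1 - t, p.2) * B p ∂(nu.prod nu)

section
variable {A B : ℝ × ℝ → ℂ} {M : ℝ} (h : ConvData A B M)
include h

lemma meas_shift (t : ℝ) : Measurable fun p : ℝ × ℝ => A (p.1 - t, p.2) :=
  h.Am.comp ((measurable_fst.sub_const t).prodMk measurable_snd)

lemma norm_shift (t y : ℝ) : ∫ x, ‖A (x - t, y)‖ ∂nu = ∫ x, ‖A (x, y)‖ ∂nu :=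
  integral_nu_shift (f := fun x => ‖A (x, y)‖) (fun x => by rw [h.A1]) t

lemma shift_integrable (t : ℝ) :
    Integrable (fun p : ℝ × ℝ => A (p.1 - t, p.2)) (nu.prod nu) := by
  rw [integrable_prod_iff' (meas_shift h t).aestronglyMeasurable]
  constructor
  · filter_upwards [h.Ac] with y hy
    exact continuous_integrable_nu (hy.comp (continuous_id.sub continuous_const))
  · simp only [norm_shift h]
    exact h.Ai.integral_norm_prod_right

omit h in
lemma ae_mem_prod : ∀ᵐ p ∂(nu.prod nu), p.2 ∈ Ioc (0 : ℝ) 1 :=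
  Measure.quasiMeasurePreserving_snd.ae ae_nu

lemma F_integrable (t : ℝ) :
    Integrable (fun p : ℝ × ℝ => A (p.1 - t, p.2) * B p) (nu.prod nu) := by
  have h1 : Integrable (fun p : ℝ × ℝ => M * (‖A (p.1 - t, p.2)‖ + ‖B p‖)) (nu.prod nu) :=
    ((shift_integrable h t).norm.add h.Bi.norm).const_mul M
  refine h1.mono' ((meas_shift h t).mul h.Bm).aestronglyMeasurable ?_
  filter_upwards [ae_mem_prod] with p hp
  rw [norm_mul]
  exact h.hM p.2 hp p.1 (p.1 - t)

lemma rho_eq (t : ℝ) : rho A B t = ∫ y, ∫ x, A (x - t, y) * B (x, y) ∂nu ∂nu := by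
  unfold rho
  rw [integral_prod_symm _ (F_integrable h t)]

lemma rho_continuous : Continuous (rho A B) := by
  have e : rho A B = fun t => ∫ y, ∫ x, A (x - t, y) * B (x, y) ∂nu ∂nu :=
    funext fun t => rho_eq h t
  rw [e]
  refine continuous_of_dominated (bound := fun y => M * (∫ x, ‖A (x, y)‖ ∂nu + ∫ x, ‖B (x, y)‖ ∂nu))
    ?_ ?_ ?_ ?_
  · intro t
    exact ((F_integrable h t).integral_prod_right).aestronglyMeasurable
  · intro t
    filter_upwards [h.Ac, h.Bc, ae_nu] with y hA hB hy
    have hA' : Continuous fun x => A (x - t, y) := hA.comp (continuous_id.sub continuous_const)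
    calc ‖∫ x, A (x - t, y) * B (x, y) ∂nu‖ ≤ ∫ x, ‖A (x - t, y) * B (x, y)‖ ∂nu :=
          norm_integral_le_integral_norm _
      _ ≤ ∫ x, M * (‖A (x - t, y)‖ + ‖B (x, y)‖) ∂nu := by
          refine integral_mono (continuous_integrable_nu (hA'.mul hB).norm)
            (continuous_integrable_nu (continuous_const.mul (hA'.norm.add hB.norm))) fun x => ?_
          simp only [norm_mul]
          exact h.hM y hy x (x - t)
      _ = M * (∫ x, ‖A (x, y)‖ ∂nu + ∫ x, ‖B (x, y)‖ ∂nu) := by
          rw [integral_const_mul, integral_add (continuous_integrable_nu hA'.norm)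
            (continuous_integrable_nu hB.norm), norm_shift h]
  · exact (h.Ai.integral_norm_prod_right.add h.Bi.integral_norm_prod_right).const_mul M
  · filter_upwards [h.Ac, h.Bc] with y hA hB
    have hc : Continuous (Function.uncurry fun (t x : ℝ) => A (x - t, y) * B (x, y)) := by
      have h1 : Continuous fun p : ℝ × ℝ => A (p.2 - p.1, y) :=
        hA.comp (continuous_snd.sub continuous_fst)
      exact h1.mul (hB.comp continuous_snd)
    simp_rw [integral_nu]
    exact intervalIntegral.continuous_parametric_intervalIntegral_of_continuous' hc 0 1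

lemma joint_integrable : Integrable (fun q : ℝ × (ℝ × ℝ) => A (q.2.1 - q.1, q.2.2) * B q.2)
    (nu.prod (nu.prod nu)) := by
  have hm : Measurable fun q : ℝ × (ℝ × ℝ) => A (q.2.1 - q.1, q.2.2) :=
    h.Am.comp (((measurable_fst.comp measurable_snd).sub measurable_fst).prodMk
      (measurable_snd.comp measurable_snd))
  have h1 : Integrable (fun q : ℝ × (ℝ × ℝ) => A (q.2.1 - q.1, q.2.2)) (nu.prod (nu.prod nu)) := by
    rw [integrable_prod_iff hm.aestronglyMeasurable]
    constructor
    · exact Eventually.of_forall fun t => shift_integrable h t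
    · have : (fun t : ℝ => ∫ p : ℝ × ℝ, ‖A (p.1 - t, p.2)‖ ∂(nu.prod nu)) =
          fun _ => ∫ y, ∫ x, ‖A (x, y)‖ ∂nu ∂nu := by
        funext t
        rw [integral_prod_symm _ (shift_integrable h t).norm]
        simp only [norm_shift h]
      rw [this]
      exact integrable_const _
  have h2 : Integrable (fun q : ℝ × (ℝ × ℝ) => B q.2) (nu.prod (nu.prod nu)) :=
    h.Bi.comp_snd nu
  refine ((h1.norm.add h2.norm).const_mul M).mono'
    (hm.mul (h.Bm.comp measurable_snd)).aestronglyMeasurable ?_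
  have h3 : ∀ᵐ q : ℝ × (ℝ × ℝ) ∂(nu.prod (nu.prod nu)), q.2.2 ∈ Ioc (0 : ℝ) 1 :=
    Measure.quasiMeasurePreserving_snd.ae ae_mem_prod
  filter_upwards [h3] with q hq
  rw [norm_mul]
  exact h.hM q.2.2 hq q.2.1 (q.2.1 - q.1)

/-- The average of the convolution is the integral of the product of the averages. -/
lemma rho_average : ∫ t, rho A B t ∂nu =
    ∫ y, (∫ x, A (x, y) ∂nu) * (∫ x, B (x, y) ∂nu) ∂nu := by
  unfold rho
  rw [integral_integral_swap (f := fun t (p : ℝ × ℝ) => A (p.1 - t, p.2) * B p)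
    (joint_integrable h)]
  have e1 : ∀ p : ℝ × ℝ, ∫ t, A (p.1 - t, p.2) * B p ∂nu = (∫ x, A (x, p.2) ∂nu) * B p := by
    intro p
    rw [integral_mul_const]
    congr 1
    exact integral_nu_reflect (f := fun x => A (x, p.2)) (fun x => h.A1 x p.2) p.1
  simp_rw [e1]
  have hint : Integrable (fun p : ℝ × ℝ => (∫ x, A (x, p.2) ∂nu) * B p) (nu.prod nu) := by
    have := (joint_integrable h).integral_prod_right
    refine this.congr (Eventually.of_forall fun p => ?_)
    exact e1 p
  rw [integral_prod_symm _ hint]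
  refine integral_congr_ae (Eventually.of_forall fun y => ?_)
  simp only
  rw [integral_const_mul]

end

end Pool.Agent.Helper21.Reg
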