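import Pool.Agent.Helper21.Reg.Tame

/-! # A family of elements of `K₂(E)` with torsion support -/

noncomputable section

namespace Pool.Agent.Helper21.Reg

open Complex Filter Topology Set Metric

variable {τ : ℂ} (hτ : 0 < τ.im)

include hτ in
lemma not_lat_half : ¬ Lat τ (τ / 2) := by
  rintro ⟨m, n, h⟩
  have h1 : (τ / 2).im = n * τ.im := by rw [h]; simp
  have h2 : (τ / 2).im = τ.im / 2 := by simp
  rw [h2] at h1
  have h3 : (n : ℝ) = 1 / 2 := by
    have : τ.im * ((n : ℝ) - 1 / 2) = 0 := by linarith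
    rcases mul_eq_zero.mp this with h4 | h4
    · exact absurd h4 hτ.ne'
    · linarith
  have h4 : ((2 * n : ℤ) : ℝ) = 1 := by push_cast; linarith
  have h5 : 2 * n = 1 := by exact_mod_cast h4
  omega

lemma dord_pair (X Y z : ℂ) (a b : ℤ) [Decidable (Lat τ (z - X))] [Decidable (Lat τ (z - Y))] :
    dord τ [(X, a), (Y, b)] z =
      (if Lat τ (z - X) then a else 0) + (if Lat τ (z - Y) then b else 0) := by
  simp only [dord, List.map_cons, List.map_nil, List.sum_cons, List.sum_nil, add_zero]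

lemma Lat_comm {x y : ℂ} (h : ¬ Lat τ (x - y)) : ¬ Lat τ (y - x) := by
  intro h2; apply h; simpa using h2.neg

lemma Lat_trans' {x y z : ℂ} (h : Lat τ (x - y)) (h2 : Lat τ (x - z)) : Lat τ (y - z) := by
  have := h2.sub h
  simpa using this

/-- The function `G` (and `H`) with divisor `2(P) - 2(P')`, `P - P' = τ / 2`. -/
def GF (τ P P' : ℂ) : ℂ → ℂ := EF τ 1 [(P, 2), (P', -2)]

/-- The function with divisor `N (X) - N (Y)`. -/
def HF (τ : ℂ) (N b : ℤ) (X Y : ℂ) : ℂ → ℂ := EF τ b [(X, N), (Y, -N)]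

include hτ

lemma NEll_GF {P P' : ℂ} (h : P - P' = τ / 2) : NEll τ (GF τ P P') := by
  refine NEll_EF hτ 1 0 _ (by simp [ddeg]) ?_
  have : P = P' + τ / 2 := by rw [← h]; ring
  rw [this]
  simp [dsum]
  ring

lemma NEll_HF {X Y : ℂ} {N b m : ℤ} (h : N * (X - Y) = m + b * τ) : NEll τ (HF τ N b X Y) := by
  refine NEll_EF hτ b m _ (by simp [ddeg]) ?_
  rw [← h]
  simp [dsum]
  ring

lemma GF_ne_zero {P P' z : ℂ} (h1 : ¬ Lat τ (z - P)) (h2 : ¬ Lat τ (z - P')) :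
    GF τ P P' z ≠ 0 :=
  (EF_good hτ 1 _ z (by simp [h1, h2])).2

omit hτ in
lemma GF_eq (P P' z : ℂ) :
    GF τ P P' z = (ee z)⁻¹ * Th τ (z - P) ^ 2 * (Th τ (z - P') ^ 2)⁻¹ := by
  unfold GF EF thProd
  simp only [List.map_cons, List.map_nil, List.prod_cons, List.prod_nil, mul_one, Int.cast_one,
    one_mul, ee_neg]
  rw [← mul_assoc]
  congr 1

lemma reciprocity {P P' R R' : ℂ} (hPP : P - P' = τ / 2) (hRR : R - R' = τ / 2)
    (h1 : ¬ Lat τ (P - R)) (h2 : ¬ Lat τ (P - R')) (h3 : ¬ Lat τ (P' - R))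
    (h4 : ¬ Lat τ (P' - R')) :
    GF τ P P' R * GF τ R R' P' = GF τ R R' P * GF τ P P' R' := by
  simp only [GF_eq]
  have n1 : Th τ (P - R) ≠ 0 := by rwa [Ne, Th_eq_zero_iff hτ]
  have n2 : Th τ (P - R') ≠ 0 := by rwa [Ne, Th_eq_zero_iff hτ]
  have n3 : Th τ (P' - R) ≠ 0 := by rwa [Ne, Th_eq_zero_iff hτ]
  have n4 : Th τ (P' - R') ≠ 0 := by rwa [Ne, Th_eq_zero_iff hτ]
  have e1 : Th τ (R - P) = -(ee (P - R))⁻¹ * Th τ (P - R) := by
    rw [← Th_neg hτ]; congr 1; ring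
  have e2 : Th τ (R - P') = -(ee (P' - R))⁻¹ * Th τ (P' - R) := by
    rw [← Th_neg hτ]; congr 1; ring
  have e3 : Th τ (R' - P) = -(ee (P - R'))⁻¹ * Th τ (P - R') := by
    rw [← Th_neg hτ]; congr 1; ring
  have e4 : Th τ (R' - P') = -(ee (P' - R'))⁻¹ * Th τ (P' - R') := by
    rw [← Th_neg hτ]; congr 1; ring
  rw [e1, e2, e3, e4]
  have hP : P = P' + τ / 2 := by rw [← hPP]; ring
  have hR : R = R' + τ / 2 := by rw [← hRR]; ring
  simp only [sub_eq_add_neg, ee_add, ee_neg] at *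
  have k1 : ee P = ee P' * ee (τ / 2) := by rw [hP, ee_add]
  have k2 : ee R = ee R' * ee (τ / 2) := by rw [hR, ee_add]
  have z1 := ee_ne_zero P'
  have z2 := ee_ne_zero R'
  have z3 := ee_ne_zero (τ / 2)
  rw [k1, k2]
  field_simp

/-- The element of `K₂(E)` -/
def cyc1 (τ P P' R R' : ℂ) (N b₁ b₂ b₃ : ℤ) : Chain :=
  [(N, GF τ P P', GF τ R R'),
   (1, (fun _ => GF τ R R' P ^ 2), HF τ N b₁ P R'),
   (1, (fun _ => (GF τ R R' P' ^ 2)⁻¹), HF τ N b₂ P' R'),
   (1, (fun _ => (GF τ P P' R ^ 2)⁻¹), HF τ N b₃ R R')]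

lemma cyc1_tame {P P' R R' : ℂ} {N b₁ b₂ b₃ : ℤ}
    (hPP : P - P' = τ / 2) (hRR : R - R' = τ / 2)
    (h1 : ¬ Lat τ (P - R)) (h2 : ¬ Lat τ (P - R')) (h3 : ¬ Lat τ (P' - R))
    (h4 : ¬ Lat τ (P' - R')) (z : ℂ) :
    (cyc1 τ P P' R R' N b₁ b₂ b₃).tame z = 1 := by
  classical
  have h5 : ¬ Lat τ (P - P') := by rw [hPP]; exact not_lat_half hτ
  have h6 : ¬ Lat τ (R - R') := by rw [hRR]; exact not_lat_half hτ
  have hG := NEll_GF hτ hPP
  have hH := NEll_GF hτ hRR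
  have nHP : GF τ R R' P ≠ 0 := GF_ne_zero hτ h1 h2
  have nHP' : GF τ R R' P' ≠ 0 := GF_ne_zero hτ h3 h4
  have nGR : GF τ P P' R ≠ 0 := GF_ne_zero hτ (Lat_comm h1) (Lat_comm h3)
  have nGR' : GF τ P P' R' ≠ 0 := GF_ne_zero hτ (Lat_comm h2) (Lat_comm h4)
  have hrec := reciprocity hτ hPP hRR h1 h2 h3 h4
  simp only [cyc1, Chain.tame, List.map_cons, List.map_nil, List.prod_cons, List.prod_nil,
    mul_one, zpow_one]
  rw [show HF τ N b₁ P R' = EF τ b₁ [(P, N), (R', -N)] from rfl,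
    show HF τ N b₂ P' R' = EF τ b₂ [(P', N), (R', -N)] from rfl,
    show HF τ N b₃ R R' = EF τ b₃ [(R, N), (R', -N)] from rfl,
    tame_const_EF hτ (pow_ne_zero 2 nHP), tame_const_EF hτ (inv_ne_zero (pow_ne_zero 2 nHP')),
    tame_const_EF hτ (inv_ne_zero (pow_ne_zero 2 nGR)), dord_pair, dord_pair, dord_pair]
  by_cases cP : Lat τ (z - P)
  · have c2 : ¬ Lat τ (z - P') := fun h => h5 (Lat_trans' cP h)
    have c3 : ¬ Lat τ (z - R) := fun h => h1 (Lat_trans' cP h)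
    have c4 : ¬ Lat τ (z - R') := fun h => h2 (Lat_trans' cP h)
    rw [show GF τ P P' = EF τ 1 [(P, 2), (P', -2)] from rfl,
      show GF τ R R' = EF τ 1 [(R, 2), (R', -2)] from rfl,
      tame_EF_right hτ _ _ _ _ _ (by simp [c3, c4]), dord_pair,
      show EF τ 1 [(R, 2), (R', -2)] = GF τ R R' from rfl, hH.eq_of_lat cP]
    simp only [cP, c2, c3, c4, if_true, if_false, add_zero, zpow_zero, mul_one]
    rw [← zpow_mul, ← zpow_natCast, ← zpow_mul, ← zpow_add₀ nHP]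
    have : (-2 * N + ((2 : ℕ) : ℤ) * N) = 0 := by push_cast; ring
    rw [this, zpow_zero]
  by_cases cP' : Lat τ (z - P')
  · have c3 : ¬ Lat τ (z - R) := fun h => h3 (Lat_trans' cP' h)
    have c4 : ¬ Lat τ (z - R') := fun h => h4 (Lat_trans' cP' h)
    rw [show GF τ P P' = EF τ 1 [(P, 2), (P', -2)] from rfl,
      show GF τ R R' = EF τ 1 [(R, 2), (R', -2)] from rfl,
      tame_EF_right hτ _ _ _ _ _ (by simp [c3, c4]), dord_pair,
      show EF τ 1 [(R, 2), (R', -2)] = GF τ R R' from rfl, hH.eq_of_lat cP']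
    simp only [cP, cP', c3, c4, if_true, if_false, add_zero, zero_add, zpow_zero, mul_one, one_mul,
      neg_neg]
    rw [← zpow_mul, inv_zpow, ← zpow_natCast, ← zpow_mul]
    push_cast
    exact mul_inv_cancel₀ (zpow_ne_zero _ nHP')
  by_cases cR : Lat τ (z - R)
  · have c4 : ¬ Lat τ (z - R') := fun h => h6 (Lat_trans' cR h)
    rw [show GF τ P P' = EF τ 1 [(P, 2), (P', -2)] from rfl,
      show GF τ R R' = EF τ 1 [(R, 2), (R', -2)] from rfl,
      tame_EF_left hτ _ _ _ _ _ (by simp [cP, cP']), dord_pair,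
      show EF τ 1 [(P, 2), (P', -2)] = GF τ P P' from rfl, hG.eq_of_lat cR]
    simp only [cP, cP', cR, c4, if_true, if_false, add_zero, zero_add, zpow_zero, mul_one, one_mul]
    rw [← zpow_mul, inv_zpow, ← zpow_natCast, ← zpow_mul]
    push_cast
    exact mul_inv_cancel₀ (zpow_ne_zero _ nGR)
  by_cases cR' : Lat τ (z - R')
  · rw [show GF τ P P' = EF τ 1 [(P, 2), (P', -2)] from rfl,
      show GF τ R R' = EF τ 1 [(R, 2), (R', -2)] from rfl,
      tame_EF_left hτ _ _ _ _ _ (by simp [cP, cP']), dord_pair,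
      show EF τ 1 [(P, 2), (P', -2)] = GF τ P P' from rfl,
      show EF τ 1 [(R, 2), (R', -2)] = GF τ R R' from rfl, hG.eq_of_lat cR']
    simp only [cP, cP', cR, cR', if_true, if_false, add_zero, zero_add, zpow_zero, mul_one, one_mul]
    have key : (GF τ P P' R * GF τ R R' P') ^ (2 * N) = (GF τ R R' P * GF τ P P' R') ^ (2 * N) := by
      rw [hrec]
    rw [mul_zpow, mul_zpow] at key
    have a0 : ∀ x : ℂ, (x ^ 2) ^ (-N) = (x ^ (2 * N))⁻¹ := by
      intro x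
      rw [← zpow_natCast, ← zpow_mul, ← zpow_neg]; congr 1; push_cast; ring
    have a1 : ∀ x : ℂ, (x ^ (-2 : ℤ)) ^ N = (x ^ (2 * N))⁻¹ := by
      intro x
      rw [← zpow_mul, ← zpow_neg]; congr 1; ring
    have a2 : ∀ x : ℂ, ((x ^ 2)⁻¹) ^ (-N) = x ^ (2 * N) := by
      intro x
      rw [inv_zpow, a0, inv_inv]
    simp only [a0, a1, a2, neg_neg, mul_neg]
    have b1 := zpow_ne_zero (2 * N) nHP
    have b2 := zpow_ne_zero (2 * N) nGR'
    try simp only [neg_neg, mul_neg, a0, a1, a2]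
    field_simp
    linear_combination key
  · rw [show GF τ P P' = EF τ 1 [(P, 2), (P', -2)] from rfl,
      show GF τ R R' = EF τ 1 [(R, 2), (R', -2)] from rfl,
      tame_EF_left hτ _ _ _ _ _ (by simp [cP, cP']), dord_pair]
    simp [cP, cP', cR, cR']

end Pool.Agent.Helper21.Reg
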