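import Pool.Agent.Helper21.Reg.Cyc1

/-! # Elements of `K₂(E ∖ {P, Q})` with prescribed nontrivial residue, `P - Q` not torsion -/

noncomputable section

namespace Pool.Agent.Helper21.Reg

open Complex Filter Topology Set Metric

variable {τ : ℂ} (hτ : 0 < τ.im)

/-- `φ(z) = Th(z - D) Th(z + D) / Th(z)²` shifted to the centre `C`: divisor
`(C + D) - 2 (C) + (C - D)`. -/
def phi (τ D C : ℂ) : ℂ → ℂ := EF τ 0 [(C + D, 1), (C, -2), (C - D, 1)]

/-- divisor `(Q + k D) - k (Q + D) + (k - 1) (Q)` -/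
def hk (τ D Q : ℂ) (k : ℤ) : ℂ → ℂ := EF τ 0 [(Q + k * D, 1), (Q + D, -k), (Q, k - 1)]

lemma phi_eq (τ D C z : ℂ) :
    phi τ D C z = Th τ (z - (C + D)) * (Th τ (z - C) ^ 2)⁻¹ * Th τ (z - (C - D)) := by
  unfold phi EF thProd
  simp only [List.map_cons, List.map_nil, List.prod_cons, List.prod_nil, mul_one, Int.cast_zero,
    zero_mul, neg_zero, ee_zero, one_mul, zpow_one]
  rw [mul_assoc]
  congr 1

/-- `φ` centred at the origin -/
def ph (τ D z : ℂ) : ℂ := phi τ D 0 z

lemma phi_shift (τ D C z : ℂ) : phi τ D C z = ph τ D (z - C) := by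
  unfold ph
  rw [phi_eq, phi_eq]
  ring_nf

lemma dord_triple (X Y Z z : ℂ) (a b c : ℤ) [Decidable (Lat τ (z - X))]
    [Decidable (Lat τ (z - Y))] [Decidable (Lat τ (z - Z))] :
    dord τ [(X, a), (Y, b), (Z, c)] z =
      (if Lat τ (z - X) then a else 0) + (if Lat τ (z - Y) then b else 0) +
        (if Lat τ (z - Z) then c else 0) := by
  simp only [dord, List.map_cons, List.map_nil, List.sum_cons, List.sum_nil, add_zero, add_assoc]

include hτ

lemma NEll_phi (D C : ℂ) : NEll τ (phi τ D C) := by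
  refine NEll_EF hτ 0 0 _ (by simp [ddeg]) ?_
  simp [dsum]
  ring

lemma NEll_hk (D Q : ℂ) (k : ℤ) : NEll τ (hk τ D Q k) := by
  refine NEll_EF hτ 0 0 _ (by simp [ddeg]; ring) ?_
  simp [dsum]
  ring

lemma ph_neg (D z : ℂ) : ph τ D (-z) = ph τ D z := by
  unfold ph
  rw [phi_eq, phi_eq]
  have e1 : Th τ (-z - (0 + D)) = -(ee (z + D))⁻¹ * Th τ (z + D) := by
    rw [← Th_neg hτ]; congr 1; ring
  have e2 : Th τ (-z - 0) = -(ee z)⁻¹ * Th τ z := by
    rw [← Th_neg hτ]; congr 1; ring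
  have e3 : Th τ (-z - (0 - D)) = -(ee (z - D))⁻¹ * Th τ (z - D) := by
    rw [← Th_neg hτ]; congr 1; ring
  rw [e1, e2, e3]
  have f1 : z - (0 + D) = z - D := by ring
  have f2 : z - 0 = z := by ring
  have f3 : z - (0 - D) = z + D := by ring
  rw [f1, f2, f3, ee_add, sub_eq_add_neg z D, ee_add, ee_neg]
  have h1 := ee_ne_zero z
  have h2 := ee_ne_zero D
  by_cases hz : Th τ z = 0
  · simp [hz]
  · field_simp

lemma ph_ne_zero {D z : ℂ} (h1 : ¬ Lat τ (z - D)) (h2 : ¬ Lat τ z) (h3 : ¬ Lat τ (z + D)) :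
    ph τ D z ≠ 0 := by
  refine (EF_good hτ 0 [(0 + D, 1), (0, -2), (0 - D, 1)] z ?_).2
  simp [h1, h2, h3]

omit hτ in
lemma lat_iff {D Q z : ℂ} (hD : ∀ k : ℤ, k ≠ 0 → ¬ Lat τ (k * D)) {k : ℤ}
    (hz : Lat τ (z - (Q + k * D))) (j : ℤ) : Lat τ (z - (Q + j * D)) ↔ j = k := by
  constructor
  · intro h
    by_contra hne
    apply hD (j - k) (by omega)
    have := hz.sub h
    convert this using 1
    push_cast; ring
  · rintro rfl; exact hz

/-- The combination of symbols. -/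
def cyc2 (τ D Q : ℂ) (n : ℤ) : Chain :=
  [(1, phi τ D Q, phi τ D (Q + n * D)),
   (1, (fun _ => ph τ D ((n + 1 : ℤ) * D)), hk τ D Q (-1)),
   (1, (fun _ => (ph τ D ((n - 1 : ℤ) * D))⁻¹), hk τ D Q (n - 1)),
   (1, (fun _ => ph τ D (n * D) ^ 2), hk τ D Q n),
   (1, (fun _ => (ph τ D ((n + 1 : ℤ) * D))⁻¹), hk τ D Q (n + 1))]

omit hτ in
lemma dord_phi {D Q z : ℂ} (hD : ∀ k : ℤ, k ≠ 0 → ¬ Lat τ (k * D)) {k : ℤ}
    (hz : Lat τ (z - (Q + k * D))) (m : ℤ) (C : ℂ) (hC : C = Q + m * D) :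
    dord τ [(C + D, 1), (C, -2), (C - D, 1)] z =
      (if m + 1 = k then 1 else 0) + (if m = k then -2 else 0) + (if m - 1 = k then 1 else 0) := by
  classical
  rw [dord_triple]
  have e1 : C + D = Q + ((m + 1 : ℤ) : ℂ) * D := by rw [hC]; push_cast; ring
  have e2 : C - D = Q + ((m - 1 : ℤ) : ℂ) * D := by rw [hC]; push_cast; ring
  rw [e1, e2, hC]
  simp only [lat_iff hD hz]

omit hτ in
lemma dord_hk {D Q z : ℂ} (hD : ∀ k : ℤ, k ≠ 0 → ¬ Lat τ (k * D)) {k : ℤ}
    (hz : Lat τ (z - (Q + k * D))) (m : ℤ) :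
    dord τ [(Q + m * D, 1), (Q + D, -m), (Q, m - 1)] z =
      (if m = k then 1 else 0) + (if 1 = k then -m else 0) + (if 0 = k then m - 1 else 0) := by
  classical
  rw [dord_triple]
  have e1 : Q + D = Q + ((1 : ℤ) : ℂ) * D := by push_cast; ring
  have e2 : Lat τ (z - Q) ↔ Lat τ (z - (Q + ((0 : ℤ) : ℂ) * D)) := by simp
  rw [e1]
  simp only [lat_iff hD hz, e2]

lemma ph_int_ne_zero {D : ℂ} (hD : ∀ k : ℤ, k ≠ 0 → ¬ Lat τ (k * D)) {m : ℤ} (h1 : m ≠ 0)
    (h2 : m ≠ 1) (h3 : m ≠ -1) : ph τ D (m * D) ≠ 0 := by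
  refine ph_ne_zero hτ ?_ (hD m h1) ?_
  · have := hD (m - 1) (by omega)
    convert this using 2
    push_cast; ring
  · have := hD (m + 1) (by omega)
    convert this using 2
    push_cast; ring

/-- the residue exponents -/
lemma cyc2_tame_general {D Q z : ℂ} (hD : ∀ k : ℤ, k ≠ 0 → ¬ Lat τ (k * D)) {n : ℤ} (hn : 3 ≤ n)
    {k : ℤ} (hz : Lat τ (z - (Q + k * D))) :
    (cyc2 τ D Q n).tame z =
      if k = 1 then ph τ D ((n + 1 : ℤ) * D) ^ (n + 2) * ph τ D (n * D) ^ (-2 * n) *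
          ph τ D ((n - 1 : ℤ) * D) ^ (n - 2)
      else if k = 0 then (ph τ D ((n + 1 : ℤ) * D) ^ (n + 2) * ph τ D (n * D) ^ (-2 * n) *
          ph τ D ((n - 1 : ℤ) * D) ^ (n - 2))⁻¹
      else 1 := by
  have A : ph τ D ((n + 1 : ℤ) * D) ≠ 0 := ph_int_ne_zero hτ hD (by omega) (by omega) (by omega)
  have B : ph τ D (n * D) ≠ 0 := ph_int_ne_zero hτ hD (by omega) (by omega) (by omega)
  have C : ph τ D ((n - 1 : ℤ) * D) ≠ 0 := ph_int_ne_zero hτ hD (by omega) (by omega) (by omega)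
  have hQ : Q = Q + ((0 : ℤ) : ℂ) * D := by simp
  simp only [cyc2, Chain.tame, List.map_cons, List.map_nil, List.prod_cons, List.prod_nil,
    mul_one, zpow_one]
  simp only [hk]
  rw [tame_const_EF hτ A, tame_const_EF hτ (inv_ne_zero C), tame_const_EF hτ (pow_ne_zero 2 B),
    tame_const_EF hτ (inv_ne_zero A), dord_hk hD hz, dord_hk hD hz, dord_hk hD hz, dord_hk hD hz]
  -- the main symbol
  have main : tame (phi τ D Q) (phi τ D (Q + n * D)) z =
      (if k = n + 1 then ph τ D ((n + 1 : ℤ) * D) else 1) *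
      (if k = n then (ph τ D (n * D) ^ 2)⁻¹ else 1) *
      (if k = n - 1 then ph τ D ((n - 1 : ℤ) * D) else 1) *
      (if k = 1 then (ph τ D ((n - 1 : ℤ) * D))⁻¹ else 1) *
      (if k = 0 then (ph τ D (n * D)) ^ 2 else 1) *
      (if k = -1 then (ph τ D ((n + 1 : ℤ) * D))⁻¹ else 1) := by
    by_cases hk3 : k = 1 ∨ k = 0 ∨ k = -1
    · -- `phi (Q + nD)` is regular
      have hreg : ∀ p ∈ [((Q + n * D) + D, (1 : ℤ)), ((Q + n * D), -2), ((Q + n * D) - D, 1)],
          ¬ Lat τ (z - p.1) := by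
        have e1 : (Q + n * D) + D = Q + ((n + 1 : ℤ) : ℂ) * D := by push_cast; ring
        have e2 : (Q + n * D) - D = Q + ((n - 1 : ℤ) : ℂ) * D := by push_cast; ring
        rw [e1, e2]
        simp only [List.mem_cons, List.not_mem_nil, or_false, forall_eq_or_imp, forall_eq,
          lat_iff hD hz]
        omega
      have h1 : phi τ D (Q + n * D) z = ph τ D ((k - n : ℤ) * D) := by
        rw [(NEll_phi hτ D (Q + n * D)).eq_of_lat hz, phi_shift]
        congr 1; push_cast; ring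
      have h2 : ph τ D ((k - n : ℤ) * D) = ph τ D ((n - k : ℤ) * D) := by
        rw [← ph_neg hτ]; congr 1; push_cast; ring
      have h3 : tame (phi τ D Q) (phi τ D (Q + n * D)) z = ph τ D ((n - k : ℤ) * D) ^
          (-dord τ [(Q + D, 1), (Q, -2), (Q - D, 1)] z) := by
        rw [← h2, ← h1]
        exact tame_EF_right hτ 0 0 _ _ z hreg
      rw [h3, dord_phi hD hz 0 Q hQ]
      rcases hk3 with rfl | rfl | rfl
      · have : ¬ ((1 : ℤ) = n + 1) := by omega
        have : ¬ ((1 : ℤ) = n) := by omega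
        have : ¬ ((1 : ℤ) = n - 1) := by omega
        simp [*]
      · have : ¬ ((0 : ℤ) = n + 1) := by omega
        have : ¬ ((0 : ℤ) = n) := by omega
        have : ¬ ((0 : ℤ) = n - 1) := by omega
        simp [*]
      · have : ¬ ((-1 : ℤ) = n + 1) := by omega
        have : ¬ ((-1 : ℤ) = n) := by omega
        have : ¬ ((-1 : ℤ) = n - 1) := by omega
        simp [*]
    · push Not at hk3
      have hreg : ∀ p ∈ [(Q + D, (1 : ℤ)), (Q, -2), (Q - D, 1)], ¬ Lat τ (z - p.1) := by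
        have e1 : Q + D = Q + ((1 : ℤ) : ℂ) * D := by push_cast; ring
        have e2 : Q - D = Q + ((-1 : ℤ) : ℂ) * D := by push_cast; ring
        have e3 : Lat τ (z - Q) ↔ Lat τ (z - (Q + ((0 : ℤ) : ℂ) * D)) := by simp
        rw [e1, e2]
        simp only [List.mem_cons, List.not_mem_nil, or_false, forall_eq_or_imp, forall_eq,
          lat_iff hD hz, e3]
        omega
      have h1 : phi τ D Q z = ph τ D (k * D) := by
        rw [(NEll_phi hτ D Q).eq_of_lat hz, phi_shift]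
        congr 1; ring
      have h3 : tame (phi τ D Q) (phi τ D (Q + n * D)) z = ph τ D (k * D) ^
          (dord τ [((Q + n * D) + D, 1), ((Q + n * D), -2), ((Q + n * D) - D, 1)] z) := by
        rw [← h1]
        exact tame_EF_left hτ 0 0 _ _ z hreg
      rw [h3, dord_phi hD hz n (Q + n * D) rfl]
      by_cases c1 : k = n + 1
      · subst c1
        have : ¬ (n = n + 1) := by omega
        have : ¬ (n - 1 = n + 1) := by omega
        have : ¬ (n + 1 = n) := by omega
        have : ¬ (n + 1 = n - 1) := by omega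
        have : ¬ (n + 1 = 1) := by omega
        have : ¬ (n + 1 = 0) := by omega
        have : ¬ (n + 1 = -1) := by omega
        simp [*]
      by_cases c2 : k = n
      · subst c2
        have : ¬ (k + 1 = k) := by omega
        have : ¬ (k - 1 = k) := by omega
        have : ¬ (k = k + 1) := by omega
        have : ¬ (k = k - 1) := by omega
        simp [*]
      by_cases c3 : k = n - 1
      · subst c3
        have : ¬ (n + 1 = n - 1) := by omega
        have : ¬ (n = n - 1) := by omega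
        have : ¬ (n - 1 = n + 1) := by omega
        have : ¬ (n - 1 = n) := by omega
        have : ¬ (n - 1 = 1) := by omega
        have : ¬ (n - 1 = 0) := by omega
        have : ¬ (n - 1 = -1) := by omega
        simp [*]
      · have : ¬ (n + 1 = k) := by omega
        have : ¬ (n = k) := by omega
        have : ¬ (n - 1 = k) := by omega
        simp [*]
  rw [main]
  generalize ph τ D ((n + 1 : ℤ) * D) = a at *
  generalize ph τ D (n * D) = b at *
  generalize ph τ D ((n - 1 : ℤ) * D) = c at *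
  by_cases c1 : k = 1
  · subst c1
    have : ¬ ((1 : ℤ) = n + 1) := by omega
    have : ¬ ((1 : ℤ) = n) := by omega
    have : ¬ ((1 : ℤ) = n - 1) := by omega
    have : ¬ (n + 1 = (1 : ℤ)) := by omega
    have : ¬ (n = (1 : ℤ)) := by omega
    have : ¬ (n - 1 = (1 : ℤ)) := by omega
    simp [*]
    have e1 : c ^ (n - 1) = c ^ (n - 2) * c := by
      rw [← zpow_add_one₀ C]; congr 1; ring
    have e2 : (b ^ 2) ^ n = b ^ (2 * n) := by
      rw [zpow_mul]; rfl
    have e3 : a ^ (n + 2) = a ^ (n + 1) * a := by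
      rw [← zpow_add_one₀ A]; congr 1; ring
    rw [e1, e2, e3]
    field_simp
  by_cases c0 : k = 0
  · subst c0
    have : ¬ ((0 : ℤ) = n + 1) := by omega
    have : ¬ ((0 : ℤ) = n) := by omega
    have : ¬ ((0 : ℤ) = n - 1) := by omega
    have : ¬ (n + 1 = (0 : ℤ)) := by omega
    have : ¬ (n = (0 : ℤ)) := by omega
    have : ¬ (n - 1 = (0 : ℤ)) := by omega
    simp [*]
    have e1 : c ^ (1 - (n - 1)) = (c ^ (n - 2))⁻¹ := by
      rw [← zpow_neg]; congr 1; ring
    have e2 : b ^ (2 * n) = (b ^ 2) ^ (n - 1) * b ^ 2 := by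
      rw [← zpow_add_one₀ (pow_ne_zero 2 B), sub_add_cancel, zpow_mul]; rfl
    have e3 : a ^ (n + 2) = a ^ n * a ^ 2 := by
      rw [← zpow_natCast, ← zpow_add₀ A]; rfl
    rw [e1, e2, e3]
    field_simp
  have c1' : ¬ (1 : ℤ) = k := by omega
  have c0' : ¬ (0 : ℤ) = k := by omega
  simp only [c1, c0, c1', c0', if_false, add_zero, mul_one]
  by_cases d1 : k = -1
  · subst d1
    have : ¬ ((-1 : ℤ) = n + 1) := by omega
    have : ¬ ((-1 : ℤ) = n) := by omega
    have : ¬ ((-1 : ℤ) = n - 1) := by omega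
    have : ¬ (n + 1 = (-1 : ℤ)) := by omega
    have : ¬ (n = (-1 : ℤ)) := by omega
    have : ¬ (n - 1 = (-1 : ℤ)) := by omega
    simp [*]
  by_cases d2 : k = n + 1
  · subst d2
    have : ¬ (n + 1 = n) := by omega
    have : ¬ (n + 1 = n - 1) := by omega
    have : ¬ ((-1 : ℤ) = n + 1) := by omega
    have : ¬ (n = n + 1) := by omega
    have : ¬ (n - 1 = n + 1) := by omega
    simp [*]
  by_cases d3 : k = n
  · subst d3
    have : ¬ (k = k + 1) := by omega
    have : ¬ (k = k - 1) := by omega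
    have : ¬ ((-1 : ℤ) = k) := by omega
    have : ¬ (k + 1 = k) := by omega
    have : ¬ (k - 1 = k) := by omega
    simp [*]
  by_cases d4 : k = n - 1
  · subst d4
    have : ¬ (n - 1 = n + 1) := by omega
    have : ¬ (n - 1 = n) := by omega
    have : ¬ ((-1 : ℤ) = n - 1) := by omega
    have : ¬ (n + 1 = n - 1) := by omega
    have : ¬ (n = n - 1) := by omega
    simp [*]
  have : ¬ ((-1 : ℤ) = k) := by omega
  have : ¬ (n + 1 = k) := by omega
  have : ¬ (n = k) := by omega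
  have : ¬ (n - 1 = k) := by omega
  simp [*]

end Pool.Agent.Helper21.Reg
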