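import Mathlib

/-!
# `K₂` of a smooth curve of genus one and Beilinson's regulator: definitions

`L : PeriodPair` is a pair of `ℝ`-linearly independent periods `ω₁, ω₂`, and `E = ℂ / L.lattice` the
corresponding complex elliptic curve.  A finite subset of `E` is given by a `Finset` of
representatives in `ℂ`, and `U = E ∖ S` is the open curve.
-/

noncomputable section

namespace Pool.Agent.Helper21.Reg

open Complex MeasureTheory Set
open scoped ComplexConjugate

/-- `f` is (the pull back to `ℂ` of) a nonzero rational function on `E = ℂ / L.lattice`. -/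
structure IsElliptic (L : PeriodPair) (f : ℂ → ℂ) : Prop where
  mero : ∀ z, MeromorphicAt f z
  ne_top : ∀ z, meromorphicOrderAt f z ≠ ⊤
  periodic : ∀ l ∈ L.lattice, ∀ z, f (z + l) = f z

/-- order of vanishing of `f` at `P` (an integer; negative at poles) -/
def ordAt (f : ℂ → ℂ) (P : ℂ) : ℤ := (meromorphicOrderAt f P).untop₀

/-- The tame symbol `T_P{f, g} = (-1)^(ab) (f^b / g^a)(P)` with `a = ord_P f`, `b = ord_P g`.
The value at `P` of `f^b / g^a` is the quotient of the leading coefficients. -/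
def tame (f g : ℂ → ℂ) (P : ℂ) : ℂ :=
  (-1) ^ (ordAt f P * ordAt g P) *
    (meromorphicTrailingCoeffAt f P ^ ordAt g P / meromorphicTrailingCoeffAt g P ^ ordAt f P)

/-- Formal finite integral combinations `∑ nᵢ {fᵢ, gᵢ}` of symbols. -/
abbrev Chain := List (ℤ × (ℂ → ℂ) × (ℂ → ℂ))

/-- The tame symbol at `P` of a combination of symbols. -/
def Chain.tame (ξ : Chain) (P : ℂ) : ℂ := (ξ.map fun t => Reg.tame t.2.1 t.2.2 P ^ t.1).prod

/-- `ξ = ∑ nᵢ {fᵢ, gᵢ}` is a combination of symbols of elliptic functions, all of whose tame symbols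
at points of `U = E ∖ S` are trivial. -/
structure IsK2 (L : PeriodPair) (S : Finset ℂ) (ξ : Chain) : Prop where
  elliptic : ∀ t ∈ ξ, IsElliptic L t.2.1 ∧ IsElliptic L t.2.2
  tame_eq_one : ∀ P : ℂ, (∀ s ∈ S, P - s ∉ L.lattice) → ξ.tame P = 1

/-- The integral over `E` of the `L.lattice`-periodic function `F` with respect to Lebesgue measure,
as integral over the fundamental parallelogram `{x ω₁ + y ω₂ : 0 ≤ x, y ≤ 1}`. -/
def intE (L : PeriodPair) (F : ℂ → ℂ) : ℂ :=
  (|(conj L.ω₁ * L.ω₂).im| : ℝ) *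
    ∫ p in Icc (0 : ℝ) 1 ×ˢ Icc (0 : ℝ) 1, F (p.1 * L.ω₁ + p.2 * L.ω₂)

/-- `r{f, g} = ∫_E log|f| · conj (g'/g) dA = (1/2i) ∫_E log|f| conj(dlog g) ∧ dz`. -/
def reg (L : PeriodPair) (f g : ℂ → ℂ) : ℂ :=
  intE L fun z => (Real.log ‖f z‖ : ℂ) * conj (logDeriv g z)

/-- The regulator of a combination of symbols. -/
def Chain.reg (L : PeriodPair) (ξ : Chain) : ℂ :=
  (ξ.map fun t => (t.1 : ℂ) * Reg.reg L t.2.1 t.2.2).sum

/-- The real regulator of `ξ ∈ K₂(U)` as a vector in `ℂ × ℝ^S`: the `H¹(E, ℝ(1)) ≅ ℂ` component and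
the logarithms of the absolute values of the tame symbols at the punctures. -/
def Chain.realReg (L : PeriodPair) (S : Finset ℂ) (ξ : Chain) : ℂ × (S → ℝ) :=
  (ξ.reg L, fun P => Real.log ‖ξ.tame P‖)

end Pool.Agent.Helper21.Reg
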