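import Pool.Agent.Helper21.Reg.Cyc2

/-! # Some residue of `cyc2` has absolute value different from one -/

noncomputable section

namespace Pool.Agent.Helper21.Reg

open Complex Filter Topology Set Metric Bornology

/-- a sequence satisfying the recurrence is bounded above -/
lemma bdd_of_rec (u : ℕ → ℝ)
    (h : ∀ n : ℕ, 3 ≤ n → ((n : ℝ) + 2) * u (n + 1) - 2 * n * u n + ((n : ℝ) - 2) * u (n - 1) = 0) :
    ∃ B : ℝ, ∀ n : ℕ, 2 ≤ n → u n ≤ B := by
  set K : ℝ := |u 3 - u 2| with hK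
  have hK0 : 0 ≤ K := abs_nonneg _
  have h1 : ∀ n : ℕ, 2 ≤ n → |u (n + 1) - u n| * ((n : ℝ) * (n + 1)) ≤ 6 * K := by
    intro n hn
    induction n, hn using Nat.le_induction with
    | base => norm_num [← hK]; linarith
    | succ n hn ih =>
      have hr := h (n + 1) (by omega)
      push_cast at hr
      have e1 : ((n : ℝ) + 3) * (u (n + 1 + 1) - u (n + 1)) = (n - 1) * (u (n + 1) - u n) := by
        linarith
      have hn' : (2 : ℝ) ≤ n := by exact_mod_cast hn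
      have e2 : ((n : ℝ) + 3) * |u (n + 1 + 1) - u (n + 1)| = (n - 1) * |u (n + 1) - u n| := by
        have := congrArg abs e1
        rwa [abs_mul, abs_mul, abs_of_nonneg (by linarith : (0 : ℝ) ≤ (n : ℝ) + 3),
          abs_of_nonneg (by linarith : (0 : ℝ) ≤ (n : ℝ) - 1)] at this
      set a := |u (n + 1 + 1) - u (n + 1)|
      set b := |u (n + 1) - u n|
      have ha : 0 ≤ a := abs_nonneg _
      have hb : 0 ≤ b := abs_nonneg _
      push_cast
      have e3 : ((n : ℝ) + 3) * (a * (((n : ℝ) + 1) * (n + 1 + 1))) ≤ (n + 3) * (6 * K) := by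
        calc ((n : ℝ) + 3) * (a * (((n : ℝ) + 1) * (n + 1 + 1)))
            = (((n : ℝ) + 3) * a) * (((n : ℝ) + 1) * (n + 1 + 1)) := by ring
          _ = ((n - 1) * b) * (((n : ℝ) + 1) * (n + 1 + 1)) := by rw [e2]
          _ = (b * ((n : ℝ) + 1)) * ((n - 1) * (n + 2)) := by ring
          _ ≤ (b * ((n : ℝ) + 1)) * (n * (n + 3)) :=
              mul_le_mul_of_nonneg_left (by nlinarith) (by positivity)
          _ = (b * ((n : ℝ) * (n + 1))) * (n + 3) := by ring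
          _ ≤ (6 * K) * (n + 3) := by gcongr
          _ = _ := by ring
      exact le_of_mul_le_mul_left e3 (by linarith)
  have h2 : ∀ n : ℕ, 2 ≤ n → u n ≤ u 2 + 6 * K * (1 / 2 - 1 / n) := by
    intro n hn
    induction n, hn using Nat.le_induction with
    | base => norm_num
    | succ n hn ih =>
      have hn' : (2 : ℝ) ≤ n := by exact_mod_cast hn
      have h3 := h1 n hn
      have h4 : u (n + 1) - u n ≤ 6 * K * (1 / n - 1 / (n + 1)) := by
        have h5 : u (n + 1) - u n ≤ |u (n + 1) - u n| := le_abs_self _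
        have h6 : |u (n + 1) - u n| ≤ 6 * K / ((n : ℝ) * (n + 1)) := by
          rw [le_div_iff₀ (by positivity)]; exact h3
        have h7 : 6 * K / ((n : ℝ) * (n + 1)) = 6 * K * (1 / n - 1 / (n + 1)) := by
          field_simp
          ring
        linarith
      push_cast
      linarith
  refine ⟨u 2 + 6 * K * (1 / 2), fun n hn => (h2 n hn).trans ?_⟩
  have : (0 : ℝ) ≤ 1 / n := by positivity
  have h5 : 6 * K * (1 / 2 - 1 / n) ≤ 6 * K * (1 / 2) := by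
    gcongr
    linarith
  linarith

/-- multiples of a point come close to the lattice -/
lemma exists_close (τ D : ℂ) (hτ : 0 < τ.im) {ε : ℝ} (hε : 0 < ε) :
    ∃ m : ℕ, 2 ≤ m ∧ ∃ l : ℂ, Lat τ l ∧ ‖(m : ℂ) * D - l‖ < ε := by
  -- coordinates
  set β : ℝ := D.im / τ.im with hβ
  set α : ℝ := D.re - β * τ.re with hα
  have hD : D = α + β * τ := by
    apply Complex.ext
    · simp [hα]
    · simp [hβ]; field_simp
  set a : ℕ → ℝ × ℝ := fun k => (Int.fract (k * α), Int.fract (k * β)) with ha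
  have hcomp : IsCompact (Icc (0 : ℝ) 1 ×ˢ Icc (0 : ℝ) 1) := isCompact_Icc.prod isCompact_Icc
  obtain ⟨x, _, σ, hσ, hlim⟩ := hcomp.tendsto_subseq (x := a) (fun k => by
    simp only [ha, mem_prod, mem_Icc]
    exact ⟨⟨Int.fract_nonneg _, (Int.fract_lt_one _).le⟩,
      ⟨Int.fract_nonneg _, (Int.fract_lt_one _).le⟩⟩)
  have hC := hlim.cauchySeq
  set δ : ℝ := ε / (1 + ‖τ‖) with hδ
  have hδ0 : 0 < δ := by positivity
  obtain ⟨N, hN⟩ := Metric.cauchySeq_iff.mp hC δ hδ0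
  have hd := hN N le_rfl (N + 2) (by omega)
  have hs1 : σ N < σ (N + 1) := hσ (by omega)
  have hs2 : σ (N + 1) < σ (N + 2) := hσ (by omega)
  refine ⟨σ (N + 2) - σ N, by omega, ((⌊(σ (N + 2) : ℝ) * α⌋ - ⌊(σ N : ℝ) * α⌋ : ℤ) : ℂ) +
    ((⌊(σ (N + 2) : ℝ) * β⌋ - ⌊(σ N : ℝ) * β⌋ : ℤ) : ℂ) * τ, ⟨_, _, rfl⟩, ?_⟩
  simp only [Function.comp, ha, Prod.dist_eq, max_lt_iff, Real.dist_eq] at hd
  obtain ⟨d1, d2⟩ := hd
  have e1 : ((σ (N + 2) - σ N : ℕ) : ℂ) * D - (((⌊(σ (N + 2) : ℝ) * α⌋ - ⌊(σ N : ℝ) * α⌋ : ℤ) : ℂ) +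
      ((⌊(σ (N + 2) : ℝ) * β⌋ - ⌊(σ N : ℝ) * β⌋ : ℤ) : ℂ) * τ) =
      ((Int.fract ((σ (N + 2) : ℝ) * α) - Int.fract ((σ N : ℝ) * α) : ℝ) : ℂ) +
      ((Int.fract ((σ (N + 2) : ℝ) * β) - Int.fract ((σ N : ℝ) * β) : ℝ) : ℂ) * τ := by
    rw [Nat.cast_sub (by omega), hD]
    simp only [Int.fract]
    push_cast
    ring
  rw [e1]
  calc _ ≤ ‖((Int.fract ((σ (N + 2) : ℝ) * α) - Int.fract ((σ N : ℝ) * α) : ℝ) : ℂ)‖ +
      ‖((Int.fract ((σ (N + 2) : ℝ) * β) - Int.fract ((σ N : ℝ) * β) : ℝ) : ℂ) * τ‖ :=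
        norm_add_le _ _
    _ = |Int.fract ((σ (N + 2) : ℝ) * α) - Int.fract ((σ N : ℝ) * α)| +
      |Int.fract ((σ (N + 2) : ℝ) * β) - Int.fract ((σ N : ℝ) * β)| * ‖τ‖ := by
        rw [norm_mul, Complex.norm_real, Complex.norm_real, Real.norm_eq_abs, Real.norm_eq_abs]
    _ < δ + δ * ‖τ‖ := by
        have := abs_sub_comm (Int.fract ((σ (N + 2) : ℝ) * α)) (Int.fract ((σ N : ℝ) * α))
        have := abs_sub_comm (Int.fract ((σ (N + 2) : ℝ) * β)) (Int.fract ((σ N : ℝ) * β))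
        have hh : |Int.fract ((σ (N + 2) : ℝ) * β) - Int.fract ((σ N : ℝ) * β)| * ‖τ‖ ≤ δ * ‖τ‖ := by
          gcongr; linarith
        linarith
    _ = ε := by rw [hδ]; field_simp

variable {τ : ℂ} (hτ : 0 < τ.im)
include hτ

lemma ph_tendsto {D : ℂ} (hD : ¬ Lat τ D) :
    Tendsto (fun z => Real.log ‖ph τ D z‖) (𝓝[≠] 0) atTop := by
  classical
  have h : Tendsto (phi τ D 0) (𝓝[≠] 0) (cobounded ℂ) := by
    apply tendsto_cobounded_of_meromorphicOrderAt_neg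
    unfold phi
    rw [EF_order hτ, dord_triple]
    have h1 : ¬ Lat τ (0 - (0 + D)) := by
      intro h; apply hD; simpa using h.neg
    have h2 : Lat τ (0 - 0) := by simpa using Lat_zero τ
    have h3 : ¬ Lat τ (0 - (0 - D)) := by
      intro h; apply hD; simpa using h
    rw [if_neg h1, if_pos h2, if_neg h3]
    exact_mod_cast (by norm_num : (0 : ℤ) + -2 + 0 < 0)
  exact Real.tendsto_log_atTop.comp (tendsto_norm_cobounded_atTop.comp h)

lemma u_unbounded {D : ℂ} (hD : ∀ k : ℤ, k ≠ 0 → ¬ Lat τ (k * D)) (B : ℝ) :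
    ∃ m : ℕ, 2 ≤ m ∧ B < Real.log ‖ph τ D (m * D)‖ := by
  have hD1 : ¬ Lat τ D := by simpa using hD 1 one_ne_zero
  have h := (ph_tendsto hτ hD1).eventually (eventually_gt_atTop B)
  rw [eventually_nhdsWithin_iff] at h
  obtain ⟨ε, hε, hball⟩ := Metric.eventually_nhds_iff.mp h
  obtain ⟨m, hm, l, hl, hlt⟩ := exists_close τ D hτ hε
  refine ⟨m, hm, ?_⟩
  have hne : (m : ℂ) * D - l ≠ 0 := by
    intro h0
    apply hD m (by exact_mod_cast (by omega : m ≠ 0))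
    rw [sub_eq_zero] at h0
    push_cast
    rw [h0]; exact hl
  have h2 := hball (y := (m : ℂ) * D - l) (by simpa using hlt) hne
  have h3 : ph τ D ((m : ℂ) * D - l) = ph τ D (m * D) := by
    apply (NEll_phi hτ D 0).eq_of_lat
    simpa using hl.neg
  rwa [h3] at h2

/-- There is `n ≥ 3` for which the residue is not of absolute value one. -/
lemma exists_residue {D : ℂ} (hD : ∀ k : ℤ, k ≠ 0 → ¬ Lat τ (k * D)) :
    ∃ n : ℤ, 3 ≤ n ∧ Real.log ‖ph τ D ((n + 1 : ℤ) * D) ^ (n + 2) * ph τ D (n * D) ^ (-2 * n) *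
          ph τ D ((n - 1 : ℤ) * D) ^ (n - 2)‖ ≠ 0 := by
  by_contra hcon
  push Not at hcon
  set u : ℕ → ℝ := fun m => Real.log ‖ph τ D (m * D)‖ with hu
  have hrec : ∀ n : ℕ, 3 ≤ n →
      ((n : ℝ) + 2) * u (n + 1) - 2 * n * u n + ((n : ℝ) - 2) * u (n - 1) = 0 := by
    intro n hn
    have h1 := hcon n (by exact_mod_cast hn)
    have A : ph τ D (((n : ℤ) + 1 : ℤ) * D) ≠ 0 :=
      ph_int_ne_zero hτ hD (by omega) (by omega) (by omega)
    have B : ph τ D ((n : ℤ) * D) ≠ 0 := ph_int_ne_zero hτ hD (by omega) (by omega) (by omega)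
    have C : ph τ D (((n : ℤ) - 1 : ℤ) * D) ≠ 0 :=
      ph_int_ne_zero hτ hD (by omega) (by omega) (by omega)
    rw [norm_mul, norm_mul, norm_zpow, norm_zpow, norm_zpow, Real.log_mul, Real.log_mul,
      Real.log_zpow, Real.log_zpow, Real.log_zpow] at h1
    · have e1 : (((n : ℤ) + 1 : ℤ) : ℂ) = ((n + 1 : ℕ) : ℂ) := by push_cast; ring
      have e2 : (((n : ℤ) - 1 : ℤ) : ℂ) = ((n - 1 : ℕ) : ℂ) := by
        rw [Nat.cast_sub (by omega)]; push_cast; ring
      have e3 : (((n : ℤ) : ℤ) : ℂ) = (n : ℂ) := by push_cast; ring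
      rw [e1, e2, e3] at h1
      simp only [hu]
      push_cast at h1 ⊢
      linarith
    · exact zpow_ne_zero _ (norm_ne_zero_iff.mpr A)
    · exact zpow_ne_zero _ (norm_ne_zero_iff.mpr B)
    · exact mul_ne_zero (zpow_ne_zero _ (norm_ne_zero_iff.mpr A))
        (zpow_ne_zero _ (norm_ne_zero_iff.mpr B))
    · exact zpow_ne_zero _ (norm_ne_zero_iff.mpr C)
  obtain ⟨B, hB⟩ := bdd_of_rec u hrec
  obtain ⟨m, hm, hlt⟩ := u_unbounded hτ hD B
  exact absurd (hB m hm) (not_le.mpr hlt)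

end Pool.Agent.Helper21.Reg
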