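import Pool.Agent.Helper21.Reg.Reg1
import Pool.Agent.Helper21.Reg.Unbdd

/-! # Frames: passing from `ℤ + ℤ τ` to a general lattice -/

noncomputable section

namespace Pool.Agent.Helper21.Reg

open Complex Filter Topology Set Metric MeasureTheory
open scoped ComplexConjugate

/-- A positively oriented basis `(u, u τ)` of `L.lattice`, with the integral over the period
parallelogram computed in this basis. -/
structure Frame (L : PeriodPair) (u τ : ℂ) : Prop where
  hu : u ≠ 0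
  hτ : 0 < τ.im
  hlat : ∀ z, z ∈ L.lattice ↔ Lat τ (z / u)
  hint : ∀ F : ℂ → ℂ, (∀ l ∈ L.lattice, ∀ z, F (z + l) = F z) →
    ∫ p in Icc (0 : ℝ) 1 ×ˢ Icc (0 : ℝ) 1, F (p.1 * L.ω₁ + p.2 * L.ω₂) =
      ∫ p, F (u * zt τ p) ∂(nu.prod nu)

/-- scaling a chain -/
def scChain (u : ℂ) (ξ : Chain) : Chain := ξ.map fun t => (t.1, sc u t.2.1, sc u t.2.2)

/-- normalised regulator of a chain -/
def chainRegN (τ : ℂ) (ξ : Chain) : ℂ := (ξ.map fun t => (t.1 : ℂ) * regN τ t.2.1 t.2.2).sum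

/-- chain of elliptic functions -/
def NEllChain (τ : ℂ) (ξ : Chain) : Prop := ∀ t ∈ ξ, NEll τ t.2.1 ∧ NEll τ t.2.2

section
variable {L : PeriodPair} {u τ : ℂ} (hF : Frame L u τ)
include hF

lemma sc_elliptic {f : ℂ → ℂ} (hf : NEll τ f) : IsElliptic L (sc u f) where
  mero z := sc_mero (hf.mero _)
  ne_top z := by rw [sc_order hF.hu]; exact hf.ne_top _
  periodic l hl z := by
    rw [sc_apply, sc_apply, add_div]
    exact hf.add_lat ((hF.hlat l).mp hl) _

omit hF in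
lemma logDeriv_sc (u : ℂ) (f : ℂ → ℂ) (z : ℂ) : logDeriv (sc u f) z = u⁻¹ * logDeriv f (z / u) := by
  have h := deriv_comp_mul_left (u⁻¹) f z
  have e : sc u f = fun z => f (u⁻¹ * z) := by
    funext w; rw [sc_apply]; congr 1; rw [div_eq_mul_inv, mul_comm]
  unfold logDeriv
  simp only [Pi.div_apply]
  rw [e, h, smul_eq_mul, show z / u = u⁻¹ * z by rw [div_eq_mul_inv, mul_comm]]
  ring

lemma reg_sc {f g : ℂ → ℂ} (hf : NEll τ f) (hg : NEll τ g) :
    reg L (sc u f) (sc u g) =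
      (|(conj L.ω₁ * L.ω₂).im| : ℝ) * (conj u)⁻¹ * regN τ f g := by
  have hgp := (sc_elliptic hF hg).periodic
  have hfp := (sc_elliptic hF hf).periodic
  have hper : ∀ l ∈ L.lattice, ∀ z, (fun z => (Real.log ‖sc u f z‖ : ℂ) *
      conj (logDeriv (sc u g) z)) (z + l) = (fun z => (Real.log ‖sc u f z‖ : ℂ) *
      conj (logDeriv (sc u g) z)) z := by
    intro l hl z
    simp only
    rw [hfp l hl z]
    congr 2
    unfold logDeriv
    simp only [Pi.div_apply]
    rw [hgp l hl z]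
    congr 1
    rw [← deriv_comp_add_const]
    congr 1
    funext w
    exact hgp l hl w
  have key := hF.hint (fun z => (Real.log ‖sc u f z‖ : ℂ) * conj (logDeriv (sc u g) z)) hper
  unfold reg intE
  rw [key]
  unfold regN
  have e2 : ∫ p, (Real.log ‖sc u f (u * zt τ p)‖ : ℂ) * conj (logDeriv (sc u g) (u * zt τ p))
      ∂(nu.prod nu) = (conj u)⁻¹ * ∫ p, (Real.log ‖f (zt τ p)‖ : ℂ) * conj (logDeriv g (zt τ p))
      ∂(nu.prod nu) := by
    rw [← integral_const_mul]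
    refine integral_congr_ae (Eventually.of_forall fun p => ?_)
    simp only
    rw [logDeriv_sc, sc_apply, mul_div_cancel_left₀ _ hF.hu, map_mul, map_inv₀]
    ring
  rw [e2]
  ring

lemma chain_reg_sc {ξ : Chain} (hξ : NEllChain τ ξ) :
    (scChain u ξ).reg L = (|(conj L.ω₁ * L.ω₂).im| : ℝ) * (conj u)⁻¹ * chainRegN τ ξ := by
  induction ξ with
  | nil => simp [scChain, Chain.reg, chainRegN]
  | cons t ξ ih =>
    have ht := hξ t List.mem_cons_self
    have ih' := ih fun s hs => hξ s (List.mem_cons_of_mem _ hs)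
    simp only [scChain, Chain.reg, chainRegN, List.map_cons, List.sum_cons, List.map_map] at ih' ⊢
    rw [ih', reg_sc hF ht.1 ht.2]
    ring

lemma chain_tame_sc {ξ : Chain} (hξ : NEllChain τ ξ) (z : ℂ) :
    (scChain u ξ).tame z = ξ.tame (z / u) := by
  induction ξ with
  | nil => simp [scChain, Chain.tame]
  | cons t ξ ih =>
    have ht := hξ t List.mem_cons_self
    have ih' := ih fun s hs => hξ s (List.mem_cons_of_mem _ hs)
    simp only [scChain, Chain.tame, List.map_cons, List.prod_cons, List.map_map] at ih' ⊢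
    rw [ih', sc_tame hF.hu (ht.1.mero _) (ht.2.mero _)]

lemma isK2_sc {S : Finset ℂ} {ξ : Chain} (hξ : NEllChain τ ξ)
    (h : ∀ z : ℂ, (∀ s ∈ S, ¬ Lat τ (z - s / u)) → ξ.tame z = 1) : IsK2 L S (scChain u ξ) where
  elliptic t ht := by
    simp only [scChain, List.mem_map] at ht
    obtain ⟨s, hs, rfl⟩ := ht
    exact ⟨sc_elliptic hF (hξ s hs).1, sc_elliptic hF (hξ s hs).2⟩
  tame_eq_one P hP := by
    rw [chain_tame_sc hF hξ]
    apply h
    intro s hs hl
    apply hP s hs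
    rw [hF.hlat, sub_div]
    exact hl

end

/-! ### elements of `K₂(E)` with prescribed nonvanishing -/

section
variable {τ : ℂ} (hτ : 0 < τ.im)
include hτ

/-- the chain attached to a rational number `t` -/
def cycT (τ : ℂ) (t : ℚ) : Chain :=
  cyc1 τ (t + τ / 2) t (3 * τ / 4) (τ / 4) (4 * t.den) t.den (-t.den) (2 * t.den)

lemma not_lat_im {z : ℂ} {s : ℝ} (hz : z.im = s * τ.im) (hs : ∀ n : ℤ, s ≠ n) : ¬ Lat τ z := by
  rintro ⟨m, n, h⟩
  apply hs n
  have h1 : z.im = n * τ.im := by rw [h]; simp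
  rw [hz] at h1
  exact mul_right_cancel₀ hτ.ne' h1

lemma HF_ell {N b m : ℤ} {X Y : ℂ} (h : N * (X - Y) = m + b * τ) : NEll τ (HF τ N b X Y) :=
  NEll_HF hτ h

lemma cycT_ell (t : ℚ) : NEllChain τ (cycT τ t) := by
  have hd : (t.den : ℂ) ≠ 0 := by exact_mod_cast t.den_ne_zero
  have ht : (t : ℂ) * t.den = t.num := by
    have := Rat.mul_den_eq_num t
    exact_mod_cast this
  have hPP : ((t : ℂ) + τ / 2) - t = τ / 2 := by ring
  have hRR : (3 * τ / 4) - (τ / 4) = τ / 2 := by ring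
  have n1 : ¬ Lat τ ((t : ℂ) + τ / 2 - 3 * τ / 4) :=
    not_lat_im hτ (s := -1 / 4) (by simp; ring) (not_int (-1) (by norm_num) (by norm_num))
  have n2 : ¬ Lat τ ((t : ℂ) + τ / 2 - τ / 4) :=
    not_lat_im hτ (s := 1 / 4) (by simp; ring) (not_int 0 (by norm_num) (by norm_num))
  have n3 : ¬ Lat τ ((t : ℂ) - 3 * τ / 4) :=
    not_lat_im hτ (s := -3 / 4) (by simp; ring) (not_int (-1) (by norm_num) (by norm_num))
  have n4 : ¬ Lat τ ((t : ℂ) - τ / 4) :=
    not_lat_im hτ (s := -1 / 4) (by simp; ring) (not_int (-1) (by norm_num) (by norm_num))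
  have nHP := GF_ne_zero hτ n1 n2
  have nHP' := GF_ne_zero hτ n3 n4
  have nGR := GF_ne_zero hτ (Lat_comm n1) (Lat_comm n3)
  intro s hs
  simp only [cycT, cyc1, List.mem_cons, List.not_mem_nil, or_false] at hs
  rcases hs with rfl | rfl | rfl | rfl
  · exact ⟨NEll_GF hτ hPP, NEll_GF hτ hRR⟩
  · refine ⟨NEll_const τ (pow_ne_zero 2 nHP), HF_ell hτ (m := 4 * t.num) ?_⟩
    push_cast
    linear_combination 4 * ht
  · refine ⟨NEll_const τ (inv_ne_zero (pow_ne_zero 2 nHP')), HF_ell hτ (m := 4 * t.num) ?_⟩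
    push_cast
    linear_combination 4 * ht
  · refine ⟨NEll_const τ (inv_ne_zero (pow_ne_zero 2 nGR)), HF_ell hτ (m := 0) ?_⟩
    push_cast
    ring

lemma cycT_tame (t : ℚ) (z : ℂ) : (cycT τ t).tame z = 1 := by
  have n1 : ¬ Lat τ ((t : ℂ) + τ / 2 - 3 * τ / 4) :=
    not_lat_im hτ (s := -1 / 4) (by simp; ring) (not_int (-1) (by norm_num) (by norm_num))
  have n2 : ¬ Lat τ ((t : ℂ) + τ / 2 - τ / 4) :=
    not_lat_im hτ (s := 1 / 4) (by simp; ring) (not_int 0 (by norm_num) (by norm_num))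
  have n3 : ¬ Lat τ ((t : ℂ) - 3 * τ / 4) :=
    not_lat_im hτ (s := -3 / 4) (by simp; ring) (not_int (-1) (by norm_num) (by norm_num))
  have n4 : ¬ Lat τ ((t : ℂ) - τ / 4) :=
    not_lat_im hτ (s := -1 / 4) (by simp; ring) (not_int (-1) (by norm_num) (by norm_num))
  exact cyc1_tame hτ (by ring) (by ring) n1 n2 n3 n4 z

lemma cycT_reg (t : ℚ) : chainRegN τ (cycT τ t) = (4 * t.den) * rho (A0 τ) (B0 τ) t := by
  have e1 : regN τ (GF τ (t + τ / 2) t) (GF τ (3 * τ / 4) (τ / 4)) = rho (A0 τ) (B0 τ) t := by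
    have := regN_main hτ (t : ℝ)
    simpa using this
  have p1 : (t : ℂ) + τ / 2 = ((t : ℝ) : ℂ) + ((1 / 2 : ℝ) : ℂ) * τ := by push_cast; ring
  have p2 : (t : ℂ) = ((t : ℝ) : ℂ) + ((0 : ℝ) : ℂ) * τ := by push_cast; ring
  have p3 : 3 * τ / 4 = ((0 : ℝ) : ℂ) + ((3 / 4 : ℝ) : ℂ) * τ := by push_cast; ring
  have p4 : τ / 4 = ((0 : ℝ) : ℂ) + ((1 / 4 : ℝ) : ℂ) * τ := by push_cast; ring
  have c1 : ∀ c : ℂ, regN τ (fun _ => c) (HF τ (4 * t.den) t.den (t + τ / 2) (τ / 4)) = 0 := by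
    intro c
    rw [p1, p4]
    exact regN_const hτ c (by norm_num) (by norm_num) (by norm_num) (by norm_num)
      (by push_cast; ring)
  have c2 : ∀ c : ℂ, regN τ (fun _ => c) (HF τ (4 * t.den) (-t.den) t (τ / 4)) = 0 := by
    intro c
    rw [p2, p4]
    exact regN_const hτ c (by norm_num) (by norm_num) (by norm_num) (by norm_num)
      (by push_cast; ring)
  have c3 : ∀ c : ℂ, regN τ (fun _ => c) (HF τ (4 * t.den) (2 * t.den) (3 * τ / 4) (τ / 4)) = 0 := by
    intro c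
    rw [p3, p4]
    exact regN_const hτ c (by norm_num) (by norm_num) (by norm_num) (by norm_num)
      (by push_cast; ring)
  simp only [chainRegN, cycT, cyc1, List.map_cons, List.map_nil, List.sum_cons, List.sum_nil]
  rw [e1, c1, c2, c3]
  push_cast
  ring

end

/-- the `ℂ`-component of the regulator is nonzero in every direction transverse to `conj u` -/
lemma exists_K2_frame {L : PeriodPair} {u τ : ℂ} (hF : Frame L u τ) {c : ℂ}
    (hc : (c * (conj u)⁻¹).im ≠ 0) : ∃ ξ : Chain, IsK2 L ∅ ξ ∧ (c * ξ.reg L).re ≠ 0 := by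
  have hcov : |(conj L.ω₁ * L.ω₂).im| ≠ 0 := by
    rw [Ne, abs_eq_zero]
    intro h0
    have h1 := L.indep
    rw [LinearIndependent.pair_iff] at h1
    have h2 := h1 (-(L.ω₂.re)) (L.ω₁.re)
    have h3 := h1 (-(L.ω₂.im)) (L.ω₁.im)
    simp only [Complex.mul_im, Complex.conj_re, Complex.conj_im] at h0
    have e2 : (-(L.ω₂.re)) • L.ω₁ + L.ω₁.re • L.ω₂ = 0 := by
      apply Complex.ext
      · simp; ring
      · simp; linarith
    have e3 : (-(L.ω₂.im)) • L.ω₁ + L.ω₁.im • L.ω₂ = 0 := by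
      apply Complex.ext
      · simp; linarith
      · simp; ring
    have h4 := h2 e2
    have h5 := h3 e3
    have hω : L.ω₁ = 0 := Complex.ext h4.2 h5.2
    have := h1 1 0 (by simp [hω])
    exact one_ne_zero this.1
  obtain ⟨t, ht⟩ := exists_rational hF.hτ hc
  have hE := cycT_ell hF.hτ t
  refine ⟨scChain u (cycT τ t), isK2_sc hF hE (fun z _ => cycT_tame hF.hτ t z), ?_⟩
  rw [chain_reg_sc hF hE, cycT_reg hF.hτ]
  set K : ℝ := |(conj L.ω₁ * L.ω₂).im| with hK
  have e : c * ((K : ℂ) * (conj u)⁻¹ * (4 * (t.den : ℂ) * rho (A0 τ) (B0 τ) t)) =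
      ((K * (4 * t.den) : ℝ) : ℂ) * (c * (conj u)⁻¹ * rho (A0 τ) (B0 τ) t) := by
    push_cast; ring
  rw [e, Complex.re_ofReal_mul]
  refine mul_ne_zero (mul_ne_zero hcov ?_) ht
  have : (t.den : ℝ) ≠ 0 := by exact_mod_cast t.den_ne_zero
  positivity

end Pool.Agent.Helper21.Reg
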