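import Pool.Agent.Helper21.Reg.Avg

/-! # Local integrability of `1/Th`, `log |Th|` and `Th'/Th` -/

noncomputable section

namespace Pool.Agent.Helper21.Reg

open Complex Filter Topology Set Metric MeasureTheory

/-- the point with coordinates `p` -/
def zt (τ : ℂ) (p : ℝ × ℝ) : ℂ := p.1 + p.2 * τ

lemma continuous_zt (τ : ℂ) : Continuous (zt τ) := by unfold zt; fun_prop

variable {τ : ℂ} (hτ : 0 < τ.im)
include hτ

lemma zt_lower (a b : ℝ) : ‖((a, b) : ℝ × ℝ)‖ ≤ (1 + (1 + ‖τ‖) / τ.im) * ‖(a : ℂ) + b * τ‖ := by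
  set w : ℂ := (a : ℂ) + b * τ with hw
  have h1 : |b| * τ.im ≤ ‖w‖ := by
    have := Complex.abs_im_le_norm w
    have e : w.im = b * τ.im := by simp [hw]
    rwa [e, abs_mul, abs_of_pos hτ] at this
  have h1' : |b| ≤ ‖w‖ / τ.im := by rwa [le_div_iff₀ hτ]
  have h2 : |a| ≤ ‖w‖ + |b| * ‖τ‖ := by
    have e : (a : ℂ) = w - b * τ := by rw [hw]; ring
    have : ‖(a : ℂ)‖ ≤ ‖w‖ + ‖(b : ℂ) * τ‖ := by rw [e]; exact norm_sub_le _ _
    rwa [norm_mul, Complex.norm_real, Complex.norm_real, Real.norm_eq_abs,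
      Real.norm_eq_abs] at this
  have h3 : |b| * ‖τ‖ ≤ ‖w‖ / τ.im * ‖τ‖ := by gcongr
  have h4 : 0 ≤ ‖w‖ / τ.im := by positivity
  have e5 : (1 + (1 + ‖τ‖) / τ.im) * ‖w‖ = ‖w‖ + ‖w‖ / τ.im + ‖w‖ / τ.im * ‖τ‖ := by
    field_simp
    ring
  rw [e5, Prod.norm_def, max_le_iff]
  simp only [Real.norm_eq_abs]
  have h6 : 0 ≤ ‖w‖ / τ.im * ‖τ‖ := by positivity
  have h7 := norm_nonneg w
  constructor <;> linarith

lemma Th_lower {z₀ : ℂ} (h : Th τ z₀ = 0) : ∃ c > 0, ∀ᶠ z in 𝓝 z₀, c * ‖z - z₀‖ ≤ ‖Th τ z‖ := by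
  classical
  have h1 : meromorphicOrderAt (Th τ) z₀ = (1 : ℤ) := by
    rw [Th_order hτ, if_pos ((Th_eq_zero_iff hτ z₀).mp h)]; rfl
  obtain ⟨g, hg, hg0, hgev⟩ :=
    (meromorphicOrderAt_eq_int_iff (Th_analyticAt hτ z₀).meromorphicAt).mp h1
  have hgc : ∀ᶠ z in 𝓝 z₀, ‖g z₀‖ / 2 < ‖g z‖ := by
    have := hg.continuousAt.norm
    apply this.eventually_const_lt
    have : 0 < ‖g z₀‖ := norm_pos_iff.mpr hg0
    linarith
  refine ⟨‖g z₀‖ / 2, by have : 0 < ‖g z₀‖ := norm_pos_iff.mpr hg0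
                         linarith, ?_⟩
  rw [eventually_nhdsWithin_iff] at hgev
  filter_upwards [hgev, hgc] with z h2 h3
  by_cases hz : z = z₀
  · rw [hz, h]; simp
  · rw [h2 hz, zpow_one, smul_eq_mul, norm_mul, mul_comm]
    gcongr

omit hτ in
lemma zt_sub (p p₀ : ℝ × ℝ) (P : ℂ) :
    (zt τ p - P) - (zt τ p₀ - P) = ((p - p₀).1 : ℂ) + ((p - p₀).2 : ℝ) * τ := by
  simp [zt]; ring

lemma invTh_locInt (P : ℂ) :
    LocallyIntegrable (fun p : ℝ × ℝ => ‖Th τ (zt τ p - P)‖⁻¹) volume := by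
  have hcont : Continuous fun p : ℝ × ℝ => Th τ (zt τ p - P) :=
    (Th_differentiable hτ).continuous.comp ((continuous_zt τ).sub continuous_const)
  have hmeas : Measurable fun p : ℝ × ℝ => ‖Th τ (zt τ p - P)‖⁻¹ := hcont.norm.measurable.inv
  intro p₀
  by_cases h : Th τ (zt τ p₀ - P) = 0
  · -- near a zero
    obtain ⟨c, hc, hev⟩ := Th_lower hτ h
    have hcz : ContinuousAt (fun p => zt τ p - P) p₀ :=
      ((continuous_zt τ).sub continuous_const).continuousAt
    have hev2 := hcz.eventually hev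
    obtain ⟨r, hr, hball⟩ := Metric.eventually_nhds_iff_ball.mp hev2
    set M : ℝ := 1 + (1 + ‖τ‖) / τ.im with hM
    have hM0 : 0 < M := by positivity
    set f : ℝ × ℝ → ℝ := fun x => ‖Th τ (zt τ (x + p₀) - P)‖⁻¹ with hf
    have hint : IntegrableOn f (ball 0 r) volume := by
      refine integrableOn_ball_of_norm_le_rpow (C := M / c) (α := 1) (by simp) (by simp) ?_ ?_
      · refine (ae_restrict_iff' measurableSet_ball).mpr (Eventually.of_forall fun x hx => ?_)
        have hx' : x + p₀ ∈ ball p₀ r := by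
          simpa [mem_ball, dist_eq_norm] using hx
        have h1 := hball _ hx'
        rw [zt_sub] at h1
        simp only [add_sub_cancel_right] at h1
        have h2 := zt_lower hτ x.1 x.2
        rw [Real.rpow_neg_one]
        simp only [hf]
        rw [norm_inv, norm_norm]
        by_cases hx0 : x = 0
        · subst hx0
          simp [h]
        · have hxn : 0 < ‖x‖ := norm_pos_iff.mpr hx0
          have h3 : ‖x‖ ≤ M * ‖(x.1 : ℂ) + x.2 * τ‖ := h2
          have h4 : 0 < ‖Th τ (zt τ (x + p₀) - P)‖ := by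
            have : 0 < ‖(x.1 : ℂ) + x.2 * τ‖ := by
              by_contra hneg
              push Not at hneg
              have : M * ‖(x.1 : ℂ) + x.2 * τ‖ ≤ 0 :=
                mul_nonpos_of_nonneg_of_nonpos hM0.le hneg
              linarith
            calc 0 < c * ‖(x.1 : ℂ) + x.2 * τ‖ := by positivity
              _ ≤ _ := h1
          have h5 : c / M * ‖x‖ ≤ ‖Th τ (zt τ (x + p₀) - P)‖ := by
            calc c / M * ‖x‖ ≤ c / M * (M * ‖(x.1 : ℂ) + x.2 * τ‖) := by gcongr
              _ = c * ‖(x.1 : ℂ) + x.2 * τ‖ := by field_simp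
              _ ≤ _ := h1
          calc ‖Th τ (zt τ (x + p₀) - P)‖⁻¹ ≤ (c / M * ‖x‖)⁻¹ := by gcongr
            _ = M / c * ‖x‖⁻¹ := by rw [mul_inv, inv_div]
      · exact (hmeas.comp (measurable_id.add_const p₀)).aestronglyMeasurable
    refine ⟨ball p₀ r, ball_mem_nhds p₀ hr, ?_⟩
    have hmp := measurePreserving_add_right (volume : Measure (ℝ × ℝ)) p₀
    have he : MeasurableEmbedding (fun x : ℝ × ℝ => x + p₀) := measurableEmbedding_addRight p₀
    have := (hmp.integrableOn_comp_preimage he (f := fun p => ‖Th τ (zt τ p - P)‖⁻¹)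
      (s := ball p₀ r)).mp
    apply this
    have e2 : (fun x : ℝ × ℝ => x + p₀) ⁻¹' ball p₀ r = ball 0 r := by
      ext x; simp [mem_ball, dist_eq_norm]
    rw [e2]
    exact hint
  · have hc : ContinuousAt (fun p : ℝ × ℝ => ‖Th τ (zt τ p - P)‖⁻¹) p₀ :=
      hcont.continuousAt.norm.inv₀ (norm_ne_zero_iff.mpr h)
    exact (volume.finiteAt_nhds p₀).integrableAtFilter_of_tendsto
      ⟨univ, univ_mem, hmeas.aestronglyMeasurable⟩ hc

lemma measurable_Th (P : ℂ) : Measurable fun p : ℝ × ℝ => Th τ (zt τ p - P) :=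
  ((Th_differentiable hτ).continuous.comp ((continuous_zt τ).sub continuous_const)).measurable

lemma measurable_ka (P : ℂ) : Measurable fun p : ℝ × ℝ => ka τ (zt τ p - P) := by
  have h1 : Continuous fun p : ℝ × ℝ => deriv (Th τ) (zt τ p - P) := by
    have : Continuous (deriv (Th τ)) := by
      have h2 : Differentiable ℂ (deriv (Th τ)) := by
        intro z; exact (Th_analyticAt hτ z).deriv.differentiableAt
      exact h2.continuous
    exact this.comp ((continuous_zt τ).sub continuous_const)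
  exact h1.measurable.div (measurable_Th hτ P)

omit hτ in
lemma abs_log_le (t : ℝ) (ht : 0 ≤ t) : |Real.log t| ≤ t + t⁻¹ := by
  rcases ht.eq_or_lt with rfl | ht
  · simp
  · have h1 := Real.log_le_sub_one_of_pos ht
    have h2 := Real.one_sub_inv_le_log_of_pos ht
    rw [abs_le]
    have : 0 < t⁻¹ := inv_pos.mpr ht
    constructor <;> linarith

lemma logTh_locInt (P : ℂ) :
    LocallyIntegrable (fun p : ℝ × ℝ => Real.log ‖Th τ (zt τ p - P)‖) volume := by
  have h1 : LocallyIntegrable (fun p : ℝ × ℝ => ‖Th τ (zt τ p - P)‖) volume := by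
    have : Continuous fun p : ℝ × ℝ => ‖Th τ (zt τ p - P)‖ :=
      ((Th_differentiable hτ).continuous.comp ((continuous_zt τ).sub continuous_const)).norm
    exact this.locallyIntegrable
  refine (h1.add (invTh_locInt hτ P)).mono ?_ (Eventually.of_forall fun p => ?_)
  · exact (Real.measurable_log.comp (measurable_Th hτ P).norm).aestronglyMeasurable
  · rw [Real.norm_eq_abs]
    refine (abs_log_le _ (norm_nonneg _)).trans ?_
    exact le_abs_self _

lemma ka_locInt (P : ℂ) :
    LocallyIntegrable (fun p : ℝ × ℝ => ka τ (zt τ p - P)) volume := by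
  have h1 : Continuous fun p : ℝ × ℝ => deriv (Th τ) (zt τ p - P) := by
    have : Continuous (deriv (Th τ)) := by
      have h2 : Differentiable ℂ (deriv (Th τ)) := by
        intro z; exact (Th_analyticAt hτ z).deriv.differentiableAt
      exact h2.continuous
    exact this.comp ((continuous_zt τ).sub continuous_const)
  have h3 : LocallyIntegrable
      (fun p : ℝ × ℝ => ‖deriv (Th τ) (zt τ p - P)‖ • ‖Th τ (zt τ p - P)‖⁻¹) volume :=
    (invTh_locInt hτ P).continuous_smul h1.norm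
  refine h3.mono (measurable_ka hτ P).aestronglyMeasurable (Eventually.of_forall fun p => ?_)
  unfold ka logDeriv
  simp [div_eq_mul_inv]

end Pool.Agent.Helper21.Reg
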