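import Pool.Agent.Helper21.Reg.Theta

/-! # Orders of the theta product and of theta quotients -/

noncomputable section

namespace Pool.Agent.Helper21.Reg

open Complex Filter Topology Set Metric

lemma mOrd_of_ne {f : ℂ → ℂ} {z : ℂ} (hf : AnalyticAt ℂ f z) (h : f z ≠ 0) :
    meromorphicOrderAt f z = 0 := by
  rw [hf.meromorphicOrderAt_eq, analyticOrderAt_eq_zero.mpr (Or.inr h)]
  simp

variable {τ : ℂ} (hτ : 0 < τ.im)
include hτ

lemma Th_analyticAt (z : ℂ) : AnalyticAt ℂ (Th τ) z := (Th_differentiable hτ).analyticAt z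

omit hτ in
lemma ee_analyticAt (z : ℂ) : AnalyticAt ℂ ee z := differentiable_ee.analyticAt z

omit hτ in
lemma deriv_ee (z : ℂ) : deriv ee z = 2 * Real.pi * I * ee z := by
  unfold ee
  have h : HasDerivAt (fun z : ℂ => Complex.exp (2 * Real.pi * I * z))
      (Complex.exp (2 * Real.pi * I * z) * (2 * Real.pi * I)) z := by
    have h1 : HasDerivAt (fun z : ℂ => 2 * Real.pi * I * z) (2 * Real.pi * I) z := by
      simpa using (hasDerivAt_id z).const_mul (2 * Real.pi * I)
    exact h1.cexp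
  rw [h.deriv]; ring

lemma Th_order_zero : meromorphicOrderAt (Th τ) 0 = 1 := by
  have hU : AnalyticAt ℂ (fun z => qp (ee τ) (ee τ * ee z) * qp (ee τ) (ee τ * (ee z)⁻¹)) 0 := by
    have h1 := qp_differentiable (norm_q_lt hτ)
    have : Differentiable ℂ
        (fun z => qp (ee τ) (ee τ * ee z) * qp (ee τ) (ee τ * (ee z)⁻¹)) := by
      refine (h1.comp (differentiable_ee.const_mul _)).mul (h1.comp ?_)
      exact (differentiable_ee.inv (fun z => ee_ne_zero z)).const_mul _
    exact this.analyticAt 0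
  have hU0 : (fun z => qp (ee τ) (ee τ * ee z) * qp (ee τ) (ee τ * (ee z)⁻¹)) 0 ≠ 0 :=
    factor_ne_zero hτ (z := 0) (by simpa using hτ) (by simpa using hτ)
  have e1 : Th τ = (fun z => qp (ee τ) (ee τ * ee z) * qp (ee τ) (ee τ * (ee z)⁻¹)) *
      (fun z => 1 - ee z) := by
    funext z
    rw [Th_factor hτ]
    simp [mul_comm]
  rw [e1, meromorphicOrderAt_mul_of_ne_zero hU hU0]
  have e2 : (fun z => 1 - ee z) = -(fun z => ee z - ee 0) := by
    funext z; simp [ee_zero]
  rw [e2, ← meromorphicOrderAt_neg]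
  have h3 : AnalyticAt ℂ (fun z => ee z - ee 0) 0 := (ee_analyticAt 0).sub analyticAt_const
  rw [h3.meromorphicOrderAt_eq,
    (ee_analyticAt 0).analyticOrderAt_sub_eq_one_of_deriv_ne_zero ?_]
  · simp
  · rw [deriv_ee, ee_zero, mul_one]; exact Complex.two_pi_I_ne_zero

lemma Th_order_add_tau (z : ℂ) :
    meromorphicOrderAt (Th τ) (z + τ) = meromorphicOrderAt (Th τ) z := by
  rw [← meromorphicOrderAt_comp_add_const_eq_meromorphicOrderAt]
  have e1 : (Th τ ∘ (· + τ)) = (fun z => -(ee z)⁻¹) * Th τ := by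
    funext z; simp [Th_add_tau hτ]
  rw [e1, meromorphicOrderAt_mul_of_ne_zero]
  · exact ((ee_analyticAt z).inv (ee_ne_zero z)).neg
  · simp [ee_ne_zero]

omit hτ in
lemma Th_order_add_int (z : ℂ) (n : ℤ) :
    meromorphicOrderAt (Th τ) (z + n) = meromorphicOrderAt (Th τ) z := by
  rw [← meromorphicOrderAt_comp_add_const_eq_meromorphicOrderAt]
  have : (Th τ ∘ fun x : ℂ => x + (n : ℂ)) = Th τ := funext fun z => Th_add_int z n
  rw [this]

lemma Th_order_add_int_tau (z : ℂ) (n : ℤ) :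
    meromorphicOrderAt (Th τ) (z + n * τ) = meromorphicOrderAt (Th τ) z := by
  induction n using Int.induction_on with
  | zero => simp
  | succ i ih =>
    have : z + ((i : ℤ) + 1 : ℤ) * τ = (z + (i : ℤ) * τ) + τ := by push_cast; ring
    rw [this, Th_order_add_tau hτ, ih]
  | pred i ih =>
    have : (z + (-(i : ℤ) : ℤ) * τ) = (z + (-(i : ℤ) - 1 : ℤ) * τ) + τ := by push_cast; ring
    rw [← ih, this, Th_order_add_tau hτ]

open Classical in
lemma Th_order (z : ℂ) : meromorphicOrderAt (Th τ) z = if Lat τ z then 1 else 0 := by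
  split_ifs with h
  · obtain ⟨m, n, rfl⟩ := h
    rw [Th_order_add_int_tau hτ, ← zero_add (m : ℂ), Th_order_add_int, Th_order_zero hτ]
  · exact mOrd_of_ne (Th_analyticAt hτ z) (by rwa [Ne, Th_eq_zero_iff hτ])

open Classical in
lemma Th_sub_order (p z : ℂ) :
    meromorphicOrderAt (fun z => Th τ (z - p)) z = if Lat τ (z - p) then 1 else 0 := by
  rw [← Th_order hτ]
  exact meromorphicOrderAt_comp_sub_const_eq_meromorphicOrderAt (f := Th τ) (c := p) (x := z)

lemma Th_sub_analyticAt (p z : ℂ) : AnalyticAt ℂ (fun z => Th τ (z - p)) z := by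
  have : Differentiable ℂ (fun z => Th τ (z - p)) :=
    (Th_differentiable hτ).comp (differentiable_id.sub_const p)
  exact this.analyticAt z

omit hτ

/-- the product part of a theta quotient with divisor `D` -/
def thProd (τ : ℂ) (D : List (ℂ × ℤ)) (z : ℂ) : ℂ := (D.map fun p => Th τ (z - p.1) ^ p.2).prod

/-- the theta quotient `exp(-2 π i b z) ∏ Th(z - p)^n`. -/
def EF (τ : ℂ) (b : ℤ) (D : List (ℂ × ℤ)) (z : ℂ) : ℂ := ee (-(b * z)) * thProd τ D z

open Classical in
/-- order of the divisor `D` at `P` (modulo the lattice) -/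
def dord (τ : ℂ) (D : List (ℂ × ℤ)) (P : ℂ) : ℤ :=
  (D.map fun p => if Lat τ (P - p.1) then p.2 else 0).sum

lemma thProd_nil (τ z : ℂ) : thProd τ [] z = 1 := by simp [thProd]

lemma thProd_cons (τ : ℂ) (p : ℂ × ℤ) (D : List (ℂ × ℤ)) (z : ℂ) :
    thProd τ (p :: D) z = Th τ (z - p.1) ^ p.2 * thProd τ D z := by simp [thProd]

include hτ

lemma thProd_mero (D : List (ℂ × ℤ)) (z : ℂ) : MeromorphicAt (thProd τ D) z := by
  induction D with
  | nil =>
    have : thProd τ [] = fun _ => 1 := by funext z; simp [thProd]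
    rw [this]; exact MeromorphicAt.const 1 z
  | cons p D ih =>
    have : thProd τ (p :: D) = (fun z => Th τ (z - p.1)) ^ p.2 * thProd τ D := by
      funext z; simp [thProd]
    rw [this]
    exact ((Th_sub_analyticAt hτ p.1 z).meromorphicAt.zpow p.2).mul ih

lemma thProd_order (D : List (ℂ × ℤ)) (z : ℂ) :
    meromorphicOrderAt (thProd τ D) z = (dord τ D z : ℤ) := by
  induction D with
  | nil =>
    have : thProd τ [] = fun _ => 1 := by funext z; simp [thProd]
    rw [this, mOrd_of_ne analyticAt_const one_ne_zero]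
    simp [dord]
  | cons p D ih =>
    have : thProd τ (p :: D) = (fun z => Th τ (z - p.1)) ^ p.2 * thProd τ D := by
      funext z; simp [thProd]
    rw [this, meromorphicOrderAt_mul ((Th_sub_analyticAt hτ p.1 z).meromorphicAt.zpow p.2)
      (thProd_mero hτ D z), ih,
      meromorphicOrderAt_zpow (Th_sub_analyticAt hτ p.1 z).meromorphicAt, Th_sub_order hτ]
    simp only [dord, List.map_cons, List.sum_cons]
    split_ifs
    · simp
    · simp

lemma EF_mero (b : ℤ) (D : List (ℂ × ℤ)) (z : ℂ) : MeromorphicAt (EF τ b D) z := by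
  have h1 : AnalyticAt ℂ (fun z => ee (-(b * z))) z := by
    have : Differentiable ℂ (fun z : ℂ => ee (-(b * z))) :=
      differentiable_ee.comp (by fun_prop)
    exact this.analyticAt z
  exact h1.meromorphicAt.mul (thProd_mero hτ D z)

lemma EF_order (b : ℤ) (D : List (ℂ × ℤ)) (z : ℂ) :
    meromorphicOrderAt (EF τ b D) z = (dord τ D z : ℤ) := by
  have h1 : AnalyticAt ℂ (fun z => ee (-(b * z))) z := by
    have : Differentiable ℂ (fun z : ℂ => ee (-(b * z))) :=
      differentiable_ee.comp (by fun_prop)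
    exact this.analyticAt z
  have e1 : EF τ b D = (fun z => ee (-(b * z))) * thProd τ D := by funext z; simp [EF]
  rw [e1, meromorphicOrderAt_mul_of_ne_zero h1 (ee_ne_zero _), thProd_order hτ]

/-- away from the support of `D` the theta quotient is analytic and nonzero -/
lemma thProd_good (D : List (ℂ × ℤ)) (z : ℂ) (h : ∀ p ∈ D, ¬ Lat τ (z - p.1)) :
    AnalyticAt ℂ (thProd τ D) z ∧ thProd τ D z ≠ 0 := by
  induction D with
  | nil =>
    have : thProd τ [] = fun _ => 1 := by funext z; simp [thProd]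
    rw [this]; exact ⟨analyticAt_const, one_ne_zero⟩
  | cons p D ih =>
    have e : thProd τ (p :: D) = (fun z => Th τ (z - p.1)) ^ p.2 * thProd τ D := by
      funext z; simp [thProd]
    obtain ⟨h1, h2⟩ := ih fun q hq => h q (List.mem_cons_of_mem _ hq)
    have hp : Th τ (z - p.1) ≠ 0 := by
      rw [Ne, Th_eq_zero_iff hτ]; exact h p List.mem_cons_self
    rw [e]
    refine ⟨((Th_sub_analyticAt hτ p.1 z).zpow hp).mul h1, ?_⟩
    simp only [Pi.mul_apply, Pi.pow_apply]
    exact mul_ne_zero (zpow_ne_zero _ hp) h2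

lemma EF_good (b : ℤ) (D : List (ℂ × ℤ)) (z : ℂ) (h : ∀ p ∈ D, ¬ Lat τ (z - p.1)) :
    AnalyticAt ℂ (EF τ b D) z ∧ EF τ b D z ≠ 0 := by
  have h1 : AnalyticAt ℂ (fun z => ee (-(b * z))) z := by
    have : Differentiable ℂ (fun z : ℂ => ee (-(b * z))) :=
      differentiable_ee.comp (by fun_prop)
    exact this.analyticAt z
  obtain ⟨h2, h3⟩ := thProd_good hτ D z h
  exact ⟨h1.mul h2, mul_ne_zero (ee_ne_zero _) h3⟩

omit hτ
lemma dord_eq_zero {D : List (ℂ × ℤ)} {z : ℂ} (h : ∀ p ∈ D, ¬ Lat τ (z - p.1)) :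
    dord τ D z = 0 := by
  unfold dord
  apply List.sum_eq_zero
  intro x hx
  rw [List.mem_map] at hx
  obtain ⟨p, hp, rfl⟩ := hx
  simp [h p hp]

/-- total degree -/
def ddeg (D : List (ℂ × ℤ)) : ℤ := (D.map Prod.snd).sum

/-- sum of the points with multiplicity -/
def dsum (D : List (ℂ × ℤ)) : ℂ := (D.map fun p => (p.2 : ℂ) * p.1).sum

lemma thProd_add_one (D : List (ℂ × ℤ)) (z : ℂ) : thProd τ D (z + 1) = thProd τ D z := by
  induction D with
  | nil => simp [thProd]
  | cons p D ih =>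
    rw [thProd_cons, thProd_cons, ih]
    congr 2
    rw [show z + 1 - p.1 = z - p.1 + 1 by ring, Th_add_one]

include hτ
lemma thProd_add_tau (D : List (ℂ × ℤ)) (z : ℂ) :
    thProd τ D (z + τ) = (-1) ^ ddeg D * ee (dsum D - ddeg D * z) * thProd τ D z := by
  induction D with
  | nil => simp [thProd, ddeg, dsum, ee_zero]
  | cons p D ih =>
    rw [thProd_cons, thProd_cons, ih, show z + τ - p.1 = z - p.1 + τ by ring, Th_add_tau hτ]
    have e1 : ddeg (p :: D) = p.2 + ddeg D := by simp [ddeg]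
    have e2 : dsum (p :: D) = p.2 * p.1 + dsum D := by simp [dsum]
    rw [e1, e2, zpow_add₀ (by norm_num : (-1 : ℂ) ≠ 0), mul_zpow, ← ee_neg, neg_eq_neg_one_mul
      (ee (-(z - p.1))), mul_zpow, ← ee_zsmul]
    have e3 : (p.2 : ℂ) * p.1 + dsum D - ((p.2 + ddeg D : ℤ) : ℂ) * z =
        (p.2 * (-(z - p.1))) + (dsum D - ddeg D * z) := by push_cast; ring
    rw [e3, ee_add]
    ring

omit hτ in
lemma EF_add_one (b : ℤ) (D : List (ℂ × ℤ)) (z : ℂ) : EF τ b D (z + 1) = EF τ b D z := by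
  unfold EF
  rw [thProd_add_one]
  congr 1
  rw [show -((b : ℂ) * (z + 1)) = -(b * z) + ((-b : ℤ) : ℂ) by push_cast; ring, ee_add, ee_int,
    mul_one]

lemma EF_add_tau (b m : ℤ) (D : List (ℂ × ℤ)) (h0 : ddeg D = 0) (h1 : dsum D = m + b * τ) (z : ℂ) :
    EF τ b D (z + τ) = EF τ b D z := by
  unfold EF
  rw [thProd_add_tau hτ, h0, h1]
  rw [show -((b : ℂ) * (z + τ)) = -(b * z) + -(b * τ) by ring, ee_add]
  have : ee ((m : ℂ) + b * τ - ((0 : ℤ) : ℂ) * z) = ee (b * τ) := by
    rw [show (m : ℂ) + b * τ - ((0 : ℤ) : ℂ) * z = m + b * τ by simp, ee_add, ee_int, one_mul]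
  rw [this, ee_neg (b * τ)]
  have h := ee_ne_zero (b * τ)
  field_simp

end Pool.Agent.Helper21.Reg
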