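import Pool.Agent.Helper21.Reg.Rho2
import Pool.Agent.Helper21.Reg.Cyc1

/-! # The regulator integral of `cyc1` -/

noncomputable section

namespace Pool.Agent.Helper21.Reg

open Complex Filter Topology Set Metric MeasureTheory
open scoped ComplexConjugate

variable {τ : ℂ} (hτ : 0 < τ.im)

/-- normalised regulator integral -/
def regN (τ : ℂ) (f g : ℂ → ℂ) : ℂ :=
  ∫ p, (Real.log ‖f (zt τ p)‖ : ℂ) * conj (logDeriv g (zt τ p)) ∂(nu.prod nu)

lemma ae_good2 : ∀ᵐ p ∂(nu.prod nu), (0 < p.2 ∧ p.2 < 1) ∧ p.2 ≠ 1 / 4 ∧ p.2 ≠ 1 / 2 ∧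
    p.2 ≠ 3 / 4 :=
  Measure.quasiMeasurePreserving_snd.ae ae_good

include hτ

lemma int_ka {x₁ y₁ : ℝ} (h0 : 0 ≤ y₁) (h1 : y₁ < 1) :
    ∫ p, ka τ (zt τ p - (x₁ + y₁ * τ)) ∂(nu.prod nu) = 2 * Real.pi * I * y₁ := by
  have hint : Integrable (fun p : ℝ × ℝ => ka τ (zt τ p - (x₁ + y₁ * τ))) (nu.prod nu) :=
    locInt_nu (ka_locInt hτ _)
  rw [integral_prod_symm _ hint]
  have e : ∀ y : ℝ, ∫ x, ka τ (zt τ (x, y) - (x₁ + y₁ * τ)) ∂nu = ∫ x, kt τ y₁ (x, y) ∂nu := by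
    intro y
    rw [← integral_nu_shift (f := fun x => kt τ y₁ (x, y)) (fun x => kt_add_one y₁ x y) x₁]
    refine integral_congr_ae (Eventually.of_forall fun x => ?_)
    simp only [kt, zt]
    congr 1
    push_cast; ring
  simp_rw [e]
  rw [integral_nu]
  obtain ⟨i1, e1⟩ := integral_piece (f := fun y => ∫ x, kt τ y₁ (x, y) ∂nu)
    (g := fun _ => 2 * Real.pi * I) (a := 0) (b := y₁) h0 continuous_const (by
      intro y hy
      exact avg_kt' hτ (by linarith [hy.1]) (by linarith [hy.2]))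
  obtain ⟨i2, e2⟩ := integral_piece (f := fun y => ∫ x, kt τ y₁ (x, y) ∂nu)
    (g := fun _ => 0) (a := y₁) (b := 1) h1.le continuous_const (by
      intro y hy
      exact avg_kt hτ (by linarith [hy.1]) (by linarith [hy.2]))
  rw [← intervalIntegral.integral_add_adjacent_intervals i1 i2, e1, e2]
  simp
  ring

omit hτ in
lemma logDeriv_Th_sub {P z : ℂ} : logDeriv (fun w => Th τ (w - P)) z = ka τ (z - P) := by
  unfold ka logDeriv
  simp only [Pi.div_apply, deriv_comp_sub_const]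

omit hτ in
lemma logDeriv_ee (b : ℤ) (z : ℂ) :
    logDeriv (fun z => ee (-(b * z))) z = -(2 * Real.pi * I * b) := by
  have h : deriv (fun z : ℂ => ee (-(b * z))) z = (-(b : ℂ)) * deriv ee (-b * z) := by
    have := deriv_comp_mul_left (-(b : ℂ)) ee z
    rw [smul_eq_mul] at this
    rw [← this]
    congr 1
    funext w; congr 1; ring
  unfold logDeriv
  simp only [Pi.div_apply, h]
  rw [deriv_ee, neg_mul (b : ℂ) z]
  have := ee_ne_zero (-(b * z))
  field_simp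

lemma logDeriv_EF2 {X Y z : ℂ} {b m n : ℤ} (hX : Th τ (z - X) ≠ 0) (hY : Th τ (z - Y) ≠ 0) :
    logDeriv (EF τ b [(X, m), (Y, n)]) z =
      -(2 * Real.pi * I * b) + m * ka τ (z - X) + n * ka τ (z - Y) := by
  have e : EF τ b [(X, m), (Y, n)] = fun z =>
      ee (-(b * z)) * ((fun z => Th τ (z - X) ^ m) z * (fun z => Th τ (z - Y) ^ n) z) := by
    funext z; simp [EF, thProd]
  have d0 : DifferentiableAt ℂ (fun z : ℂ => ee (-(b * z))) z :=
    (differentiable_ee.comp (by fun_prop : Differentiable ℂ fun z : ℂ => -((b : ℂ) * z))) z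
  have dX : DifferentiableAt ℂ (fun w => Th τ (w - X)) z := (Th_sub_analyticAt hτ X z).differentiableAt
  have dY : DifferentiableAt ℂ (fun w => Th τ (w - Y)) z := (Th_sub_analyticAt hτ Y z).differentiableAt
  have dX' : DifferentiableAt ℂ (fun w => Th τ (w - X) ^ m) z := dX.zpow (Or.inl hX)
  have dY' : DifferentiableAt ℂ (fun w => Th τ (w - Y) ^ n) z := dY.zpow (Or.inl hY)
  rw [e, logDeriv_mul (f := fun z => ee (-(b * z)))
    (g := fun z => (fun z => Th τ (z - X) ^ m) z * (fun z => Th τ (z - Y) ^ n) z) z (ee_ne_zero _)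
    (mul_ne_zero (zpow_ne_zero _ hX) (zpow_ne_zero _ hY)) d0 (dX'.mul dY'),
    logDeriv_mul (f := fun z => Th τ (z - X) ^ m) (g := fun z => Th τ (z - Y) ^ n) z
    (zpow_ne_zero _ hX) (zpow_ne_zero _ hY) dX' dY', logDeriv_ee,
    logDeriv_fun_zpow dX, logDeriv_fun_zpow dY, logDeriv_Th_sub, logDeriv_Th_sub]
  ring

/-- `Th` does not vanish at almost every point -/
lemma ae_Th_ne (P : ℂ) : ∀ᵐ p ∂(nu.prod nu), Th τ (zt τ p - P) ≠ 0 := by
  -- the vertical coordinate of `P`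
  set s : ℝ := P.im / τ.im with hs
  have h1 : ∀ᵐ y ∂nu, ∀ n : ℤ, y ≠ s + n := by
    rw [ae_all_iff]
    intro n
    unfold nu
    exact ae_restrict_of_ae (measure_eq_zero_iff_ae_notMem.mp (Real.volume_singleton (a := s + n)))
  have h2 : ∀ᵐ p ∂(nu.prod nu), ∀ n : ℤ, p.2 ≠ s + n :=
    Measure.quasiMeasurePreserving_snd.ae h1
  filter_upwards [h2] with p hp
  rw [Ne, Th_eq_zero_iff hτ]
  rintro ⟨m, n, h⟩
  apply hp n
  have h3 := congrArg Complex.im h
  simp [zt] at h3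
  have : P.im = s * τ.im := by rw [hs]; field_simp
  rw [this] at h3
  have h4 : τ.im * (p.2 - s - n) = 0 := by linarith
  rcases mul_eq_zero.mp h4 with h5 | h5
  · exact absurd h5 hτ.ne'
  · linarith

/-- the integral of `dlog` of an elliptic function with two-point divisor vanishes -/
lemma int_logDeriv_HF {x₁ y₁ x₂ y₂ : ℝ} {N b : ℤ} (h1 : 0 ≤ y₁) (h1' : y₁ < 1) (h2 : 0 ≤ y₂)
    (h2' : y₂ < 1) (hb : (N : ℝ) * (y₁ - y₂) = b) :
    ∫ p, logDeriv (HF τ N b (x₁ + y₁ * τ) (x₂ + y₂ * τ)) (zt τ p) ∂(nu.prod nu) = 0 := by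
  have e : (fun p => logDeriv (HF τ N b (x₁ + y₁ * τ) (x₂ + y₂ * τ)) (zt τ p)) =ᵐ[nu.prod nu]
      fun p => -(2 * Real.pi * I * b) + N * ka τ (zt τ p - (x₁ + y₁ * τ)) +
        (-N) * ka τ (zt τ p - (x₂ + y₂ * τ)) := by
    filter_upwards [ae_Th_ne hτ (x₁ + y₁ * τ), ae_Th_ne hτ (x₂ + y₂ * τ)] with p hp1 hp2
    unfold HF
    rw [logDeriv_EF2 hτ hp1 hp2]
    push_cast; ring
  rw [integral_congr_ae e]
  have i1 : Integrable (fun p : ℝ × ℝ => ka τ (zt τ p - (x₁ + y₁ * τ))) (nu.prod nu) :=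
    locInt_nu (ka_locInt hτ _)
  have i2 : Integrable (fun p : ℝ × ℝ => ka τ (zt τ p - (x₂ + y₂ * τ))) (nu.prod nu) :=
    locInt_nu (ka_locInt hτ _)
  rw [integral_add (f := fun p => -(2 * Real.pi * I * b) + N * ka τ (zt τ p - (x₁ + y₁ * τ)))
    (g := fun p => (-N) * ka τ (zt τ p - (x₂ + y₂ * τ)))
    ((integrable_const _).add (i1.const_mul _)) (i2.const_mul _),
    integral_add (f := fun _ => -(2 * Real.pi * I * b))
    (g := fun p => (N : ℂ) * ka τ (zt τ p - (x₁ + y₁ * τ))) (integrable_const _) (i1.const_mul _)]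
  simp only [integral_const_mul]
  rw [int_ka hτ h1 h1', int_ka hτ h2 h2']
  have hb' : (N : ℂ) * (y₁ - y₂) = b := by exact_mod_cast congrArg (fun x : ℝ => (x : ℂ)) hb
  simp only [integral_const, probReal_univ, one_smul]
  rw [← hb']
  ring

lemma regN_const {x₁ y₁ x₂ y₂ : ℝ} {N b : ℤ} (c : ℂ) (h1 : 0 ≤ y₁) (h1' : y₁ < 1) (h2 : 0 ≤ y₂)
    (h2' : y₂ < 1) (hb : (N : ℝ) * (y₁ - y₂) = b) :
    regN τ (fun _ => c) (HF τ N b (x₁ + y₁ * τ) (x₂ + y₂ * τ)) = 0 := by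
  unfold regN
  rw [integral_const_mul, integral_conj, int_logDeriv_HF hτ h1 h1' h2 h2' hb]
  simp

/-- the main symbol -/
lemma regN_main (t : ℝ) :
    regN τ (GF τ (t + τ / 2) t) (GF τ (3 * τ / 4) (τ / 4)) = rho (A0 τ) (B0 τ) t := by
  unfold regN rho
  refine integral_congr_ae ?_
  filter_upwards [ae_Th_ne hτ (t + τ / 2), ae_Th_ne hτ t, ae_Th_ne hτ (3 * τ / 4),
    ae_Th_ne hτ (τ / 4)] with p h1 h2 h3 h4
  have eB : conj (logDeriv (GF τ (3 * τ / 4) (τ / 4)) (zt τ p)) = B0 τ p := by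
    unfold B0 GF kt
    rw [logDeriv_EF2 hτ h3 h4]
    congr 1
    have e1 : zt τ p - ((3 / 4 : ℝ) : ℂ) * τ = zt τ p - 3 * τ / 4 := by push_cast; ring
    have e2 : zt τ p - ((1 / 4 : ℝ) : ℂ) * τ = zt τ p - τ / 4 := by push_cast; ring
    rw [e1, e2]
    push_cast; ring
  have eA : (Real.log ‖GF τ (t + τ / 2) t (zt τ p)‖ : ℂ) = A0 τ (p.1 - t, p.2) := by
    unfold A0 lt
    have e1 : zt τ (p.1 - t, p.2) - ((1 / 2 : ℝ) : ℂ) * τ = zt τ p - (t + τ / 2) := by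
      unfold zt; push_cast; ring
    have e2 : zt τ (p.1 - t, p.2) - ((0 : ℝ) : ℂ) * τ = zt τ p - t := by
      unfold zt; push_cast; ring
    rw [e1, e2, GF_eq]
    congr 1
    rw [norm_mul, norm_mul, norm_inv, norm_inv, norm_pow, norm_pow, Real.log_mul, Real.log_mul,
      Real.log_inv, Real.log_inv, Real.log_pow, Real.log_pow, norm_ee, Real.log_exp]
    · simp [zt]; ring
    · simp [ee_ne_zero]
    · exact pow_ne_zero _ (norm_ne_zero_iff.mpr h1)
    · exact mul_ne_zero (by simp [ee_ne_zero]) (pow_ne_zero _ (norm_ne_zero_iff.mpr h1))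
    · exact inv_ne_zero (pow_ne_zero _ (norm_ne_zero_iff.mpr h2))
  rw [eA, eB]

end Pool.Agent.Helper21.Reg
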