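import Pool.Agent.Helper21.Reg.Basis

/-! # Elements of `K₂(E ∖ {P, Q})` with a residue of absolute value different from one -/

noncomputable section

namespace Pool.Agent.Helper21.Reg

open Complex Filter Topology Set Metric MeasureTheory
open scoped ComplexConjugate

section
variable {τ : ℂ} (hτ : 0 < τ.im)
include hτ

lemma cyc2_ell {D : ℂ} (hD : ∀ k : ℤ, k ≠ 0 → ¬ Lat τ (k * D)) {n : ℤ} (hn : 3 ≤ n) (Q : ℂ) :
    NEllChain τ (cyc2 τ D Q n) := by
  have A : ph τ D ((n + 1 : ℤ) * D) ≠ 0 := ph_int_ne_zero hτ hD (by omega) (by omega) (by omega)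
  have B : ph τ D (n * D) ≠ 0 := ph_int_ne_zero hτ hD (by omega) (by omega) (by omega)
  have C : ph τ D ((n - 1 : ℤ) * D) ≠ 0 := ph_int_ne_zero hτ hD (by omega) (by omega) (by omega)
  intro s hs
  simp only [cyc2, List.mem_cons, List.not_mem_nil, or_false] at hs
  rcases hs with rfl | rfl | rfl | rfl | rfl
  · exact ⟨NEll_phi hτ _ _, NEll_phi hτ _ _⟩
  · exact ⟨NEll_const τ A, NEll_hk hτ _ _ _⟩
  · exact ⟨NEll_const τ (inv_ne_zero C), NEll_hk hτ _ _ _⟩
  · exact ⟨NEll_const τ (pow_ne_zero 2 B), NEll_hk hτ _ _ _⟩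
  · exact ⟨NEll_const τ (inv_ne_zero A), NEll_hk hτ _ _ _⟩

lemma cyc2_tame_away {D Q z : ℂ} (hD : ∀ k : ℤ, k ≠ 0 → ¬ Lat τ (k * D)) {n : ℤ} (hn : 3 ≤ n)
    (hz : ∀ k : ℤ, ¬ Lat τ (z - (Q + k * D))) : (cyc2 τ D Q n).tame z = 1 := by
  have A : ph τ D ((n + 1 : ℤ) * D) ≠ 0 := ph_int_ne_zero hτ hD (by omega) (by omega) (by omega)
  have B : ph τ D (n * D) ≠ 0 := ph_int_ne_zero hτ hD (by omega) (by omega) (by omega)
  have C : ph τ D ((n - 1 : ℤ) * D) ≠ 0 := ph_int_ne_zero hτ hD (by omega) (by omega) (by omega)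
  have z0 : ¬ Lat τ (z - Q) := by simpa using hz 0
  have z1 : ¬ Lat τ (z - (Q + D)) := by simpa using hz 1
  have z1' : ¬ Lat τ (z - (Q - D)) := by
    have := hz (-1); convert this using 2; push_cast; ring
  have hk0 : ∀ k : ℤ, dord τ [(Q + k * D, 1), (Q + D, -k), (Q, k - 1)] z = 0 := by
    intro k
    apply dord_eq_zero
    simp only [List.mem_cons, List.not_mem_nil, or_false, forall_eq_or_imp, forall_eq]
    exact ⟨hz k, z1, z0⟩
  simp only [cyc2, Chain.tame, List.map_cons, List.map_nil, List.prod_cons, List.prod_nil,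
    mul_one, zpow_one]
  simp only [hk]
  rw [tame_const_EF hτ A, tame_const_EF hτ (inv_ne_zero C), tame_const_EF hτ (pow_ne_zero 2 B),
    tame_const_EF hτ (inv_ne_zero A), hk0, hk0, hk0, hk0]
  have main : tame (phi τ D Q) (phi τ D (Q + n * D)) z = 1 := by
    have h1 : ∀ p ∈ [(Q + D, (1 : ℤ)), (Q, -2), (Q - D, 1)], ¬ Lat τ (z - p.1) := by
      simp only [List.mem_cons, List.not_mem_nil, or_false, forall_eq_or_imp, forall_eq]
      exact ⟨z1, z0, z1'⟩
    have h2 : dord τ [((Q + n * D) + D, 1), ((Q + n * D), -2), ((Q + n * D) - D, 1)] z = 0 := by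
      apply dord_eq_zero
      simp only [List.mem_cons, List.not_mem_nil, or_false, forall_eq_or_imp, forall_eq]
      refine ⟨?_, hz n, ?_⟩
      · have := hz (n + 1); convert this using 2; push_cast; ring
      · have := hz (n - 1); convert this using 2; push_cast; ring
    have h3 := tame_EF_left hτ 0 0 [(Q + D, (1 : ℤ)), (Q, -2), (Q - D, 1)]
      [((Q + n * D) + D, 1), ((Q + n * D), -2), ((Q + n * D) - D, 1)] z h1
    rw [h2, zpow_zero] at h3
    exact h3
  rw [main]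
  simp

/-- normalised statement -/
lemma exists_res_norm {P Q : ℂ} (hPQ : ¬ Lat τ (P - Q)) :
    ∃ ξ : Chain, NEllChain τ ξ ∧ (∀ z, ¬ Lat τ (z - P) → ¬ Lat τ (z - Q) → ξ.tame z = 1) ∧
      ∃ r : ℝ, r ≠ 0 ∧ (∀ z, Lat τ (z - P) → Real.log ‖ξ.tame z‖ = r) ∧
        (∀ z, Lat τ (z - Q) → Real.log ‖ξ.tame z‖ = -r) := by
  classical
  set D : ℂ := P - Q with hDdef
  by_cases htor : ∀ k : ℤ, k ≠ 0 → ¬ Lat τ (k * D)
  · obtain ⟨n, hn, hne⟩ := exists_residue hτ htor
    refine ⟨cyc2 τ D Q n, cyc2_ell hτ htor hn Q, ?_, _, hne, ?_, ?_⟩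
    · intro z hzP hzQ
      by_cases h : ∃ k : ℤ, Lat τ (z - (Q + k * D))
      · obtain ⟨k, hk⟩ := h
        rw [cyc2_tame_general hτ htor hn hk, if_neg, if_neg]
        · rintro rfl
          apply hzQ; simpa using hk
        · rintro rfl
          apply hzP
          have : z - (Q + ((1 : ℤ) : ℂ) * D) = z - P := by rw [hDdef]; push_cast; ring
          rwa [this] at hk
      · push Not at h
        exact cyc2_tame_away hτ htor hn h
    · intro z hz
      have hk : Lat τ (z - (Q + ((1 : ℤ) : ℂ) * D)) := by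
        have : z - (Q + ((1 : ℤ) : ℂ) * D) = z - P := by rw [hDdef]; push_cast; ring
        rwa [this]
      rw [cyc2_tame_general hτ htor hn hk, if_pos rfl]
    · intro z hz
      have hk : Lat τ (z - (Q + ((0 : ℤ) : ℂ) * D)) := by simpa using hz
      rw [cyc2_tame_general hτ htor hn hk, if_neg (by norm_num), if_pos rfl, norm_inv,
        Real.log_inv]
  · push Not at htor
    obtain ⟨k, hk, m, b, hkD⟩ := htor
    have htwo : (2 : ℂ) ≠ 0 := two_ne_zero
    have htame : ∀ z, Chain.tame [(1, (fun _ => (2 : ℂ)), HF τ k b P Q)] z =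
        2 ^ ((if Lat τ (z - P) then k else 0) + (if Lat τ (z - Q) then -k else 0)) := by
      intro z
      simp only [Chain.tame, List.map_cons, List.map_nil, List.prod_cons, List.prod_nil,
        mul_one, zpow_one, HF]
      rw [tame_const_EF hτ htwo, dord_pair]
    refine ⟨[(1, (fun _ => (2 : ℂ)), HF τ k b P Q)], ?_, ?_, k * Real.log 2, ?_, ?_, ?_⟩
    · intro s hs
      simp only [List.mem_cons, List.not_mem_nil, or_false] at hs
      subst hs
      exact ⟨NEll_const τ htwo, NEll_HF hτ hkD⟩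
    · intro z h1 h2
      rw [htame, if_neg h1, if_neg h2]
      simp
    · have : Real.log 2 ≠ 0 := (Real.log_pos one_lt_two).ne'
      have hk' : (k : ℝ) ≠ 0 := by exact_mod_cast hk
      positivity
    · intro z hz
      have h2 : ¬ Lat τ (z - Q) := fun h => hPQ (Lat_trans' hz h)
      rw [htame, if_pos hz, if_neg h2, add_zero, norm_zpow, Real.log_zpow]
      norm_num
    · intro z hz
      have h2 : ¬ Lat τ (z - P) := fun h => hPQ (by simpa using (Lat_trans' hz h).neg)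
      rw [htame, if_pos hz, if_neg h2, zero_add, norm_zpow, Real.log_zpow]
      push_cast
      norm_num

end

/-- an element of `K₂(E ∖ {P, Q})` with nontrivial real residue -/
lemma exists_res (L : PeriodPair) {P Q : ℂ} (hPQ : P - Q ∉ L.lattice) :
    ∃ ξ : Chain, (∀ t ∈ ξ, IsElliptic L t.2.1 ∧ IsElliptic L t.2.2) ∧
      (∀ z, z - P ∉ L.lattice → z - Q ∉ L.lattice → ξ.tame z = 1) ∧
      ∃ r : ℝ, r ≠ 0 ∧ Real.log ‖ξ.tame P‖ = r ∧ Real.log ‖ξ.tame Q‖ = -r := by
  obtain ⟨⟨τ, hF⟩, -⟩ := exists_frames L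
  set u := L.ω₁
  have h1 : ¬ Lat τ (P / u - Q / u) := by
    rw [← sub_div, ← hF.hlat]; exact hPQ
  obtain ⟨ξ, hE, haway, r, hr, hP, hQ⟩ := exists_res_norm hF.hτ h1
  refine ⟨scChain u ξ, ?_, ?_, r, hr, ?_, ?_⟩
  · intro t ht
    simp only [scChain, List.mem_map] at ht
    obtain ⟨s, hs, rfl⟩ := ht
    exact ⟨sc_elliptic hF (hE s hs).1, sc_elliptic hF (hE s hs).2⟩
  · intro z hz1 hz2
    rw [chain_tame_sc hF hE]
    apply haway
    · rw [← sub_div, ← hF.hlat]; exact hz1
    · rw [← sub_div, ← hF.hlat]; exact hz2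
  · rw [chain_tame_sc hF hE]
    apply hP
    simpa using Lat_zero τ
  · rw [chain_tame_sc hF hE]
    apply hQ
    simpa using Lat_zero τ

end Pool.Agent.Helper21.Reg
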