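import Pool.Agent.Helper21.Reg.Integ
import Pool.Agent.Helper21.Reg.Conv

/-! # The functions entering the regulator integral -/

noncomputable section

namespace Pool.Agent.Helper21.Reg

open Complex Filter Topology Set Metric MeasureTheory
open scoped ComplexConjugate

variable {τ : ℂ} (hτ : 0 < τ.im)

/-- `log |Th (x + (y - s) τ)|` -/
def lt (τ : ℂ) (s : ℝ) (p : ℝ × ℝ) : ℝ := Real.log ‖Th τ (zt τ p - s * τ)‖

/-- `(Th'/Th) (x + (y - s) τ)` -/
def kt (τ : ℂ) (s : ℝ) (p : ℝ × ℝ) : ℂ := ka τ (zt τ p - s * τ)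

lemma zt_sub_eq (x y s : ℝ) : zt τ (x, y) - s * τ = x + ((y - s : ℝ) : ℂ) * τ := by
  unfold zt; push_cast; ring

lemma lt_add_one (s x y : ℝ) : lt τ s (x + 1, y) = lt τ s (x, y) := by
  unfold lt
  rw [zt_sub_eq, zt_sub_eq]
  congr 2
  rw [← Th_add_one ((x : ℂ) + ((y - s : ℝ) : ℂ) * τ)]
  congr 1; push_cast; ring

lemma kt_add_one (s x y : ℝ) : kt τ s (x + 1, y) = kt τ s (x, y) := by
  unfold kt
  rw [zt_sub_eq, zt_sub_eq]
  rw [← ka_add_one ((x : ℂ) + ((y - s : ℝ) : ℂ) * τ)]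
  congr 1; push_cast; ring

include hτ

lemma Th_ne (x : ℝ) {t : ℝ} (ht : ∀ n : ℤ, t ≠ n) : Th τ (x + t * τ) ≠ 0 := by
  rw [Ne, Th_eq_zero_iff hτ]
  rintro ⟨m, n, h⟩
  apply ht n
  have := congrArg Complex.im h
  simp at this
  exact this.resolve_right hτ.ne'

lemma lt_continuousAt {s : ℝ} {p : ℝ × ℝ} (h : ∀ n : ℤ, p.2 - s ≠ n) :
    ContinuousAt (lt τ s) p := by
  have h1 : Th τ (zt τ p - s * τ) ≠ 0 := by
    have := zt_sub_eq (τ := τ) p.1 p.2 s
    rw [show ((p.1, p.2) : ℝ × ℝ) = p from rfl] at this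
    rw [this]; exact Th_ne hτ _ h
  have hc : Continuous fun p : ℝ × ℝ => ‖Th τ (zt τ p - s * τ)‖ :=
    ((Th_differentiable hτ).continuous.comp ((continuous_zt τ).sub continuous_const)).norm
  exact hc.continuousAt.log (norm_ne_zero_iff.mpr h1)

lemma kt_continuousAt {s : ℝ} {p : ℝ × ℝ} (h : ∀ n : ℤ, p.2 - s ≠ n) :
    ContinuousAt (kt τ s) p := by
  have h1 : Th τ (zt τ p - s * τ) ≠ 0 := by
    have := zt_sub_eq (τ := τ) p.1 p.2 s
    rw [show ((p.1, p.2) : ℝ × ℝ) = p from rfl] at this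
    rw [this]; exact Th_ne hτ _ h
  have hc : ContinuousAt (fun p : ℝ × ℝ => zt τ p - s * τ) p :=
    ((continuous_zt τ).sub continuous_const).continuousAt
  exact ContinuousAt.comp (f := fun p : ℝ × ℝ => zt τ p - s * τ) (ka_continuousAt hτ h1) hc

lemma lt_meas (s : ℝ) : Measurable (lt τ s) :=
  Real.measurable_log.comp (measurable_Th hτ _).norm

lemma kt_meas (s : ℝ) : Measurable (kt τ s) := measurable_ka hτ _

omit hτ in
lemma nu_prod : nu.prod nu = volume.restrict (Icc (0 : ℝ) 1 ×ˢ Icc (0 : ℝ) 1) := by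
  unfold nu
  rw [restrict_Ioc_eq_restrict_Icc, Measure.prod_restrict]
  rfl

omit hτ in
lemma locInt_nu {E : Type*} [NormedAddCommGroup E] {f : ℝ × ℝ → E}
    (hf : LocallyIntegrable f volume) : Integrable f (nu.prod nu) := by
  rw [nu_prod]
  exact hf.integrableOn_isCompact (isCompact_Icc.prod isCompact_Icc)

lemma lt_int (s : ℝ) : Integrable (lt τ s) (nu.prod nu) := locInt_nu (logTh_locInt hτ _)

lemma kt_int (s : ℝ) : Integrable (kt τ s) (nu.prod nu) := locInt_nu (ka_locInt hτ _)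

/-- average of `lt` for `0 < y - s < 1` -/
lemma avg_lt {s y : ℝ} (h0 : 0 < y - s) (h1 : y - s < 1) :
    ∫ x, lt τ s (x, y) ∂nu = 0 := by
  rw [integral_nu]
  simp only [lt, zt_sub_eq]
  exact avg_log_Th hτ h0 h1

lemma avg_lt' {s y : ℝ} (h0 : -1 < y - s) (h1 : y - s < 0) :
    ∫ x, lt τ s (x, y) ∂nu = -(2 * Real.pi * τ.im * (y - s)) := by
  rw [integral_nu]
  simp only [lt, zt_sub_eq]
  exact avg_log_Th' hτ h0 h1

lemma avg_kt {s y : ℝ} (h0 : 0 < y - s) (h1 : y - s < 1) :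
    ∫ x, kt τ s (x, y) ∂nu = 0 := by
  rw [integral_nu]
  simp only [kt, zt_sub_eq]
  exact avg_ka hτ h0 h1

lemma avg_kt' {s y : ℝ} (h0 : -1 < y - s) (h1 : y - s < 0) :
    ∫ x, kt τ s (x, y) ∂nu = 2 * Real.pi * I := by
  rw [integral_nu]
  simp only [kt, zt_sub_eq]
  exact avg_ka' hτ h0 h1

omit hτ

/-- `log |G|` -/
def A0 (τ : ℂ) (p : ℝ × ℝ) : ℂ :=
  ((2 * Real.pi * τ.im * p.2 + 2 * lt τ (1 / 2) p - 2 * lt τ 0 p : ℝ) : ℂ)

/-- `conj (H'/H)` -/
def B0 (τ : ℂ) (p : ℝ × ℝ) : ℂ :=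
  conj (-(2 * Real.pi * I) + 2 * kt τ (3 / 4) p - 2 * kt τ (1 / 4) p)

include hτ

lemma A0_meas : Measurable (A0 τ) := by
  have h1 := lt_meas hτ (1 / 2)
  have h2 := lt_meas hτ 0
  unfold A0
  exact Complex.measurable_ofReal.comp
    (((measurable_snd.const_mul _).add (h1.const_mul 2)).sub (h2.const_mul 2))

lemma B0_meas : Measurable (B0 τ) := by
  have h1 := kt_meas hτ (3 / 4)
  have h2 := kt_meas hτ (1 / 4)
  unfold B0
  exact Complex.continuous_conj.measurable.comp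
    ((measurable_const.add (h1.const_mul 2)).sub (h2.const_mul 2))

lemma A0_int : Integrable (A0 τ) (nu.prod nu) := by
  have h1 := lt_int hτ (1 / 2)
  have h2 := lt_int hτ 0
  have h3 : Integrable (fun p : ℝ × ℝ => 2 * Real.pi * τ.im * p.2) (nu.prod nu) := by
    rw [nu_prod]
    exact (by fun_prop : Continuous fun p : ℝ × ℝ => 2 * Real.pi * τ.im * p.2).continuousOn.integrableOn_compact
      (isCompact_Icc.prod isCompact_Icc)
  unfold A0
  exact ((h3.add (h1.const_mul 2)).sub (h2.const_mul 2)).ofReal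

lemma B0_int : Integrable (B0 τ) (nu.prod nu) := by
  have h1 := kt_int hτ (3 / 4)
  have h2 := kt_int hτ (1 / 4)
  have h3 : Integrable (fun p : ℝ × ℝ => -(2 * Real.pi * I) + 2 * kt τ (3 / 4) p -
      2 * kt τ (1 / 4) p) (nu.prod nu) :=
    ((integrable_const _).add (h1.const_mul 2)).sub (h2.const_mul 2)
  refine h3.norm.mono' (B0_meas hτ).aestronglyMeasurable (Eventually.of_forall fun p => ?_)
  unfold B0
  rw [RCLike.norm_conj]

lemma A0_contAt {p : ℝ × ℝ} (h1 : ∀ n : ℤ, p.2 - 1 / 2 ≠ n) (h2 : ∀ n : ℤ, p.2 ≠ n) :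
    ContinuousAt (A0 τ) p := by
  have c1 := lt_continuousAt hτ (s := 1 / 2) (p := p) (by simpa using h1)
  have c2 := lt_continuousAt hτ (s := 0) (p := p) (by simpa using h2)
  unfold A0
  fun_prop

lemma B0_contAt {p : ℝ × ℝ} (h1 : ∀ n : ℤ, p.2 - 3 / 4 ≠ n) (h2 : ∀ n : ℤ, p.2 - 1 / 4 ≠ n) :
    ContinuousAt (B0 τ) p := by
  have c1 := kt_continuousAt hτ (s := 3 / 4) (p := p) (by simpa using h1)
  have c2 := kt_continuousAt hτ (s := 1 / 4) (p := p) (by simpa using h2)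
  unfold B0
  exact Complex.continuous_conj.continuousAt.comp
    ((continuousAt_const.add (continuousAt_const.mul c1)).sub (continuousAt_const.mul c2))

end Pool.Agent.Helper21.Reg
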