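import Pool.Agent.Helper21.Reg.Rho

/-! # The convolution data and the computation of the average -/

noncomputable section

namespace Pool.Agent.Helper21.Reg

open Complex Filter Topology Set Metric MeasureTheory
open scoped ComplexConjugate

lemma bound_strip {f : ℝ × ℝ → ℂ} {S : Set ℝ} (hS : IsCompact S)
    (hper : ∀ x y, f (x + 1, y) = f (x, y)) (hc : ∀ p : ℝ × ℝ, p.2 ∈ S → ContinuousAt f p) :
    ∃ M : ℝ, 0 ≤ M ∧ ∀ y ∈ S, ∀ x, ‖f (x, y)‖ ≤ M := by
  have hcomp : IsCompact (Icc (0 : ℝ) 1 ×ˢ S) := isCompact_Icc.prod hS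
  have hcont : ContinuousOn f (Icc (0 : ℝ) 1 ×ˢ S) := fun p hp =>
    (hc p hp.2).continuousWithinAt
  obtain ⟨M, hM⟩ := hcomp.exists_bound_of_continuousOn hcont
  refine ⟨max M 0, le_max_right _ _, fun y hy x => ?_⟩
  have hp : Function.Periodic (fun x => f (x, y)) 1 := fun x => hper x y
  have e : f (x, y) = f (Int.fract x, y) := by
    have := hp.sub_int_mul_eq ⌊x⌋ (x := x)
    simp only [mul_one] at this
    exact this.symm
  rw [e]
  exact (hM (Int.fract x, y) ⟨⟨Int.fract_nonneg _, (Int.fract_lt_one _).le⟩, hy⟩).trans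
    (le_max_left _ _)

lemma not_int {t : ℝ} (a : ℤ) (h0 : (a : ℝ) < t) (h1 : t < a + 1) : ∀ n : ℤ, t ≠ n := by
  rintro n rfl
  have h2 : a < n := by exact_mod_cast h0
  have h3 : n < a + 1 := by exact_mod_cast h1
  omega

variable {τ : ℂ} (hτ : 0 < τ.im)

lemma A0_per (x y : ℝ) : A0 τ (x + 1, y) = A0 τ (x, y) := by
  unfold A0; rw [lt_add_one, lt_add_one]

lemma B0_per (x y : ℝ) : B0 τ (x + 1, y) = B0 τ (x, y) := by
  unfold B0; rw [kt_add_one, kt_add_one]

include hτ

lemma exists_M : ∃ M : ℝ, ∀ y ∈ Ioc (0 : ℝ) 1, ∀ x x',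
    ‖A0 τ (x', y)‖ * ‖B0 τ (x, y)‖ ≤ M * (‖A0 τ (x', y)‖ + ‖B0 τ (x, y)‖) := by
  obtain ⟨M1, hM1, h1⟩ := bound_strip (f := A0 τ) (S := Icc (1 / 8 : ℝ) (3 / 8) ∪ Icc (5 / 8) (7 / 8))
    (isCompact_Icc.union isCompact_Icc) A0_per (by
      intro p hp
      rcases hp with hp | hp
      · exact A0_contAt hτ (not_int (-1) (by push_cast; linarith [hp.1]) (by push_cast; linarith [hp.2]))
          (not_int 0 (by push_cast; linarith [hp.1]) (by push_cast; linarith [hp.2]))
      · exact A0_contAt hτ (not_int 0 (by push_cast; linarith [hp.1]) (by push_cast; linarith [hp.2]))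
          (not_int 0 (by push_cast; linarith [hp.1]) (by push_cast; linarith [hp.2])))
  obtain ⟨M2, hM2, h2⟩ := bound_strip (f := B0 τ)
    (S := Icc (0 : ℝ) (1 / 8) ∪ (Icc (3 / 8) (5 / 8) ∪ Icc (7 / 8) 1))
    (isCompact_Icc.union (isCompact_Icc.union isCompact_Icc)) B0_per (by
      intro p hp
      rcases hp with hp | hp | hp
      · exact B0_contAt hτ (not_int (-1) (by push_cast; linarith [hp.1]) (by push_cast; linarith [hp.2]))
          (not_int (-1) (by push_cast; linarith [hp.1]) (by push_cast; linarith [hp.2]))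
      · exact B0_contAt hτ (not_int (-1) (by push_cast; linarith [hp.1]) (by push_cast; linarith [hp.2]))
          (not_int 0 (by push_cast; linarith [hp.1]) (by push_cast; linarith [hp.2]))
      · exact B0_contAt hτ (not_int 0 (by push_cast; linarith [hp.1]) (by push_cast; linarith [hp.2]))
          (not_int 0 (by push_cast; linarith [hp.1]) (by push_cast; linarith [hp.2])))
  refine ⟨M1 + M2, fun y hy x x' => ?_⟩
  set a := ‖A0 τ (x', y)‖
  set b := ‖B0 τ (x, y)‖
  have ha : 0 ≤ a := norm_nonneg _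
  have hb : 0 ≤ b := norm_nonneg _
  by_cases hyS : y ∈ Icc (1 / 8 : ℝ) (3 / 8) ∪ Icc (5 / 8) (7 / 8)
  · have h3 : a ≤ M1 := h1 y hyS x'
    nlinarith [mul_nonneg hM1 ha, mul_nonneg hM2 ha, mul_nonneg hM2 hb,
      mul_le_mul_of_nonneg_right h3 hb]
  · have hy2 : y ∈ Icc (0 : ℝ) (1 / 8) ∪ (Icc (3 / 8) (5 / 8) ∪ Icc (7 / 8) 1) := by
      simp only [mem_union, mem_Icc, not_or, not_and, not_le] at hyS ⊢
      obtain ⟨h4, h5⟩ := hyS
      by_cases c1 : y ≤ 1 / 8
      · exact Or.inl ⟨hy.1.le, c1⟩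
      right
      have := h4 (by linarith)
      by_cases c2 : y ≤ 5 / 8
      · exact Or.inl ⟨this.le, c2⟩
      right
      have := h5 (by linarith)
      exact ⟨this.le, hy.2⟩
    have h3 : b ≤ M2 := h2 y hy2 x
    nlinarith [mul_nonneg hM1 ha, mul_nonneg hM1 hb, mul_nonneg hM2 hb,
      mul_le_mul_of_nonneg_left h3 ha]

omit hτ in
/-- almost every `y` avoids the bad levels -/
lemma ae_good : ∀ᵐ y ∂nu, (0 < y ∧ y < 1) ∧ y ≠ 1 / 4 ∧ y ≠ 1 / 2 ∧ y ≠ 3 / 4 := by
  have h1 : ∀ c : ℝ, ∀ᵐ y ∂nu, y ≠ c := by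
    intro c
    unfold nu
    exact ae_restrict_of_ae (measure_eq_zero_iff_ae_notMem.mp (Real.volume_singleton (a := c)))
  filter_upwards [ae_nu, h1 1, h1 (1 / 4), h1 (1 / 2), h1 (3 / 4)] with y hy a b c d
  exact ⟨⟨hy.1, lt_of_le_of_ne hy.2 a⟩, b, c, d⟩

lemma convData : ∃ M, ConvData (A0 τ) (B0 τ) M := by
  obtain ⟨M, hM⟩ := exists_M hτ
  refine ⟨M, A0_meas hτ, B0_meas hτ, A0_per, B0_per, A0_int hτ, B0_int hτ, ?_, ?_, hM⟩
  · filter_upwards [ae_good] with y hy
    obtain ⟨⟨y0, y1⟩, h1, h2, h3⟩ := hy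
    rw [continuous_iff_continuousAt]
    intro x
    have hc : ContinuousAt (A0 τ) (x, y) := by
      refine A0_contAt hτ ?_ (not_int 0 (by push_cast; linarith) (by push_cast; linarith))
      rcases lt_or_gt_of_ne h2 with h | h
      · exact not_int (-1) (by push_cast; linarith) (by push_cast; linarith)
      · exact not_int 0 (by push_cast; linarith) (by push_cast; linarith)
    exact ContinuousAt.comp (f := fun x : ℝ => (x, y)) hc (by fun_prop)
  · filter_upwards [ae_good] with y hy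
    obtain ⟨⟨y0, y1⟩, h1, h2, h3⟩ := hy
    rw [continuous_iff_continuousAt]
    intro x
    have hc : ContinuousAt (B0 τ) (x, y) := by
      refine B0_contAt hτ ?_ ?_
      · rcases lt_or_gt_of_ne h3 with h | h
        · exact not_int (-1) (by push_cast; linarith) (by push_cast; linarith)
        · exact not_int 0 (by push_cast; linarith) (by push_cast; linarith)
      · rcases lt_or_gt_of_ne h1 with h | h
        · exact not_int (-1) (by push_cast; linarith) (by push_cast; linarith)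
        · exact not_int 0 (by push_cast; linarith) (by push_cast; linarith)
    exact ContinuousAt.comp (f := fun x : ℝ => (x, y)) hc (by fun_prop)

/-- continuity of slices -/
lemma lt_slice {s y : ℝ} (h : ∀ n : ℤ, y - s ≠ n) : Continuous fun x => lt τ s (x, y) := by
  rw [continuous_iff_continuousAt]
  intro x
  have hc : ContinuousAt (lt τ s) (x, y) := lt_continuousAt hτ h
  exact ContinuousAt.comp (f := fun x : ℝ => (x, y)) hc (by fun_prop)

lemma kt_slice {s y : ℝ} (h : ∀ n : ℤ, y - s ≠ n) : Continuous fun x => kt τ s (x, y) := by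
  rw [continuous_iff_continuousAt]
  intro x
  have hc : ContinuousAt (kt τ s) (x, y) := kt_continuousAt hτ h
  exact ContinuousAt.comp (f := fun x : ℝ => (x, y)) hc (by fun_prop)

lemma avg_A0_lo {y : ℝ} (h0 : 0 < y) (h1 : y < 1 / 2) :
    ∫ x, A0 τ (x, y) ∂nu = ((2 * Real.pi * τ.im * (1 - y) : ℝ) : ℂ) := by
  have c1 := continuous_integrable_nu (lt_slice hτ (s := 1 / 2) (y := y)
    (not_int (-1) (by push_cast; linarith) (by push_cast; linarith)))
  have c2 := continuous_integrable_nu (lt_slice hτ (s := 0) (y := y)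
    (not_int 0 (by push_cast; linarith) (by push_cast; linarith)))
  unfold A0
  rw [integral_complex_ofReal]
  congr 1
  simp only
  rw [integral_sub (f := fun x => 2 * Real.pi * τ.im * y + 2 * lt τ (1 / 2) (x, y))
    (g := fun x => 2 * lt τ 0 (x, y)) ((integrable_const _).add (c1.const_mul 2)) (c2.const_mul 2),
    integral_add (f := fun _ => 2 * Real.pi * τ.im * y) (g := fun x => 2 * lt τ (1 / 2) (x, y))
    (integrable_const _) (c1.const_mul 2)]
  simp only [integral_const_mul]
  rw [avg_lt' hτ (by linarith) (by linarith), avg_lt hτ (by linarith) (by linarith)]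
  simp
  ring

lemma avg_A0_hi {y : ℝ} (h0 : 1 / 2 < y) (h1 : y < 1) :
    ∫ x, A0 τ (x, y) ∂nu = ((2 * Real.pi * τ.im * y : ℝ) : ℂ) := by
  have c1 := continuous_integrable_nu (lt_slice hτ (s := 1 / 2) (y := y)
    (not_int 0 (by push_cast; linarith) (by push_cast; linarith)))
  have c2 := continuous_integrable_nu (lt_slice hτ (s := 0) (y := y)
    (not_int 0 (by push_cast; linarith) (by push_cast; linarith)))
  unfold A0
  rw [integral_complex_ofReal]
  congr 1
  simp only
  rw [integral_sub (f := fun x => 2 * Real.pi * τ.im * y + 2 * lt τ (1 / 2) (x, y))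
    (g := fun x => 2 * lt τ 0 (x, y)) ((integrable_const _).add (c1.const_mul 2)) (c2.const_mul 2),
    integral_add (f := fun _ => 2 * Real.pi * τ.im * y) (g := fun x => 2 * lt τ (1 / 2) (x, y))
    (integrable_const _) (c1.const_mul 2)]
  simp only [integral_const_mul]
  rw [avg_lt hτ (by linarith) (by linarith), avg_lt hτ (by linarith) (by linarith)]
  simp

omit hτ in
lemma avg_B0 {y : ℝ} (a b : ℂ) (ha : Continuous fun x => kt τ (3 / 4) (x, y))
    (hb : Continuous fun x => kt τ (1 / 4) (x, y)) (ha' : ∫ x, kt τ (3 / 4) (x, y) ∂nu = a)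
    (hb' : ∫ x, kt τ (1 / 4) (x, y) ∂nu = b) :
    ∫ x, B0 τ (x, y) ∂nu = conj (-(2 * Real.pi * I) + 2 * a - 2 * b) := by
  have c1 := continuous_integrable_nu ha
  have c2 := continuous_integrable_nu hb
  unfold B0
  rw [integral_conj]
  congr 1
  rw [integral_sub (f := fun x => -(2 * Real.pi * I) + 2 * kt τ (3 / 4) (x, y))
    (g := fun x => 2 * kt τ (1 / 4) (x, y))
    ((integrable_const _).add (c1.const_mul 2)) (c2.const_mul 2),
    integral_add (f := fun _ => -(2 * (Real.pi : ℂ) * I)) (g := fun x => 2 * kt τ (3 / 4) (x, y))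
    (integrable_const _) (c1.const_mul 2), integral_const_mul, integral_const_mul,
    ha', hb']
  simp

lemma avg_B0_1 {y : ℝ} (h0 : 0 < y) (h1 : y < 1 / 4) :
    ∫ x, B0 τ (x, y) ∂nu = 2 * Real.pi * I := by
  rw [avg_B0 (2 * Real.pi * I) (2 * Real.pi * I)
    (kt_slice hτ (not_int (-1) (by push_cast; linarith) (by push_cast; linarith)))
    (kt_slice hτ (not_int (-1) (by push_cast; linarith) (by push_cast; linarith)))
    (avg_kt' hτ (by linarith) (by linarith)) (avg_kt' hτ (by linarith) (by linarith))]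
  simp [map_ofNat]

lemma avg_B0_2 {y : ℝ} (h0 : 1 / 4 < y) (h1 : y < 3 / 4) :
    ∫ x, B0 τ (x, y) ∂nu = -(2 * Real.pi * I) := by
  rw [avg_B0 (2 * Real.pi * I) 0
    (kt_slice hτ (not_int (-1) (by push_cast; linarith) (by push_cast; linarith)))
    (kt_slice hτ (not_int 0 (by push_cast; linarith) (by push_cast; linarith)))
    (avg_kt' hτ (by linarith) (by linarith)) (avg_kt hτ (by linarith) (by linarith))]
  simp [map_ofNat]
  ring

lemma avg_B0_3 {y : ℝ} (h0 : 3 / 4 < y) (h1 : y < 1) :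
    ∫ x, B0 τ (x, y) ∂nu = 2 * Real.pi * I := by
  rw [avg_B0 0 0
    (kt_slice hτ (not_int 0 (by push_cast; linarith) (by push_cast; linarith)))
    (kt_slice hτ (not_int 0 (by push_cast; linarith) (by push_cast; linarith)))
    (avg_kt hτ (by linarith) (by linarith)) (avg_kt hτ (by linarith) (by linarith))]
  simp [map_ofNat]

omit hτ in
lemma integral_piece {f g : ℝ → ℂ} {a b : ℝ} (hab : a ≤ b) (hg : Continuous g)
    (h : ∀ x ∈ Ioo a b, f x = g x) :
    IntervalIntegrable f volume a b ∧ ∫ x in a..b, f x = ∫ x in a..b, g x := by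
  have hae : ∀ᵐ x ∂volume, x ∈ uIoc a b → g x = f x := by
    have h1 : ∀ᵐ x ∂(volume : Measure ℝ), x ≠ b :=
      measure_eq_zero_iff_ae_notMem.mp (Real.volume_singleton (a := b))
    filter_upwards [h1] with x hx hx2
    rw [uIoc_of_le hab] at hx2
    exact (h x ⟨hx2.1, lt_of_le_of_ne hx2.2 hx⟩).symm
  constructor
  · exact (hg.intervalIntegrable a b).congr_ae ((ae_restrict_iff' measurableSet_uIoc).mpr hae)
  · exact (intervalIntegral.integral_congr_ae hae).symm

lemma average_value : ∫ y, (∫ x, A0 τ (x, y) ∂nu) * (∫ x, B0 τ (x, y) ∂nu) ∂nu =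
    (Real.pi ^ 2 * τ.im / 2 : ℝ) * I := by
  rw [integral_nu]
  set f : ℝ → ℂ := fun y => (∫ x, A0 τ (x, y) ∂nu) * (∫ x, B0 τ (x, y) ∂nu) with hf
  set K : ℂ := ((2 * Real.pi * τ.im : ℝ) : ℂ) with hK
  obtain ⟨i1, e1⟩ := integral_piece (f := f) (g := fun y => K * (1 - y) * (2 * Real.pi * I))
    (a := 0) (b := 1 / 4) (by norm_num) (by fun_prop) (by
      intro y hy
      simp only [hf]
      rw [avg_A0_lo hτ hy.1 (by linarith [hy.2]), avg_B0_1 hτ hy.1 hy.2, hK]
      push_cast; ring)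
  obtain ⟨i2, e2⟩ := integral_piece (f := f) (g := fun y => -(K * (1 - y) * (2 * Real.pi * I)))
    (a := 1 / 4) (b := 1 / 2) (by norm_num) (by fun_prop) (by
      intro y hy
      simp only [hf]
      rw [avg_A0_lo hτ (by linarith [hy.1]) hy.2, avg_B0_2 hτ hy.1 (by linarith [hy.2]), hK]
      push_cast; ring)
  obtain ⟨i3, e3⟩ := integral_piece (f := f) (g := fun y => -(K * y * (2 * Real.pi * I)))
    (a := 1 / 2) (b := 3 / 4) (by norm_num) (by fun_prop) (by
      intro y hy
      simp only [hf]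
      rw [avg_A0_hi hτ hy.1 (by linarith [hy.2]), avg_B0_2 hτ (by linarith [hy.1]) hy.2, hK]
      push_cast; ring)
  obtain ⟨i4, e4⟩ := integral_piece (f := f) (g := fun y => K * y * (2 * Real.pi * I))
    (a := 3 / 4) (b := 1) (by norm_num) (by fun_prop) (by
      intro y hy
      simp only [hf]
      rw [avg_A0_hi hτ (by linarith [hy.1]) hy.2, avg_B0_3 hτ hy.1 hy.2, hK]
      push_cast; ring)
  have hsum : ∫ y in (0 : ℝ)..1, f y = (∫ y in (0 : ℝ)..(1 / 4), f y) +
      (∫ y in (1 / 4 : ℝ)..(1 / 2), f y) + (∫ y in (1 / 2 : ℝ)..(3 / 4), f y) +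
      (∫ y in (3 / 4 : ℝ)..1, f y) := by
    rw [intervalIntegral.integral_add_adjacent_intervals i1 i2,
      intervalIntegral.integral_add_adjacent_intervals (i1.trans i2) i3,
      intervalIntegral.integral_add_adjacent_intervals ((i1.trans i2).trans i3) i4]
  rw [hsum, e1, e2, e3, e4]
  have hlin : ∀ a b : ℝ, ∫ y in a..b, (y : ℂ) = ((b ^ 2 - a ^ 2) / 2 : ℝ) := by
    intro a b
    rw [intervalIntegral.integral_ofReal, integral_id]
  have hone : ∀ a b : ℝ, ∫ _y in a..b, (1 : ℂ) = ((b - a : ℝ) : ℂ) := by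
    intro a b
    rw [intervalIntegral.integral_const]
    simp
  have hid : ∀ a b : ℝ, IntervalIntegrable (fun y : ℝ => (y : ℂ)) volume a b := fun a b =>
    (Complex.continuous_ofReal).intervalIntegrable a b
  have hsub : ∀ a b : ℝ, ∫ y in a..b, (1 - (y : ℂ)) = ((b - a - (b ^ 2 - a ^ 2) / 2 : ℝ) : ℂ) := by
    intro a b
    rw [intervalIntegral.integral_sub (by simp) (hid a b), hone, hlin]
    push_cast; ring
  simp only [intervalIntegral.integral_neg, intervalIntegral.integral_mul_const,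
    intervalIntegral.integral_const_mul, hlin, hsub]
  rw [hK]
  push_cast
  ring

/-- The key nonvanishing. -/
lemma exists_rational {c : ℂ} (hc : c.im ≠ 0) : ∃ t : ℚ, (c * rho (A0 τ) (B0 τ) t).re ≠ 0 := by
  obtain ⟨M, h⟩ := convData hτ
  by_contra hcon
  push Not at hcon
  have hcont : Continuous fun t : ℝ => (c * rho (A0 τ) (B0 τ) t).re :=
    Complex.continuous_re.comp (continuous_const.mul (rho_continuous h))
  have hall : ∀ t : ℝ, (c * rho (A0 τ) (B0 τ) t).re = 0 := by
    have : (fun t : ℝ => (c * rho (A0 τ) (B0 τ) t).re) = fun _ => 0 := by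
      apply Continuous.ext_on Rat.isDenseEmbedding_coe_real.dense hcont continuous_const
      rintro _ ⟨t, rfl⟩
      exact hcon t
    intro t
    exact congrFun this t
  have hav : ∫ t, rho (A0 τ) (B0 τ) t ∂nu = (Real.pi ^ 2 * τ.im / 2 : ℝ) * I := by
    rw [rho_average h, average_value hτ]
  have h1 : (c * ∫ t, rho (A0 τ) (B0 τ) t ∂nu).re = 0 := by
    rw [← integral_const_mul]
    have hint : Integrable (fun t => c * rho (A0 τ) (B0 τ) t) nu :=
      continuous_integrable_nu (continuous_const.mul (rho_continuous h))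
    have h2 : ∫ t, (c * rho (A0 τ) (B0 τ) t).re ∂nu = (∫ t, c * rho (A0 τ) (B0 τ) t ∂nu).re :=
      integral_re hint
    rw [← h2]
    simp [hall]
  rw [hav] at h1
  have h3 : (c * ((Real.pi ^ 2 * τ.im / 2 : ℝ) * I)).re = -(c.im * (Real.pi ^ 2 * τ.im / 2)) := by
    generalize Real.pi ^ 2 * τ.im / 2 = K
    simp [Complex.mul_re]
  rw [h3, neg_eq_zero, mul_eq_zero] at h1
  rcases h1 with h1 | h1
  · exact hc h1
  · have := Real.pi_pos
    have : 0 < Real.pi ^ 2 * τ.im / 2 := by positivity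
    linarith

end Pool.Agent.Helper21.Reg
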