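import Pool.Agent.Helper21.Reg.Order
import Pool.Agent.Helper21.Reg.Defs

/-! # Tame symbols of theta quotients; normalised elliptic functions and scaling -/

noncomputable section

namespace Pool.Agent.Helper21.Reg

open Complex Filter Topology Set Metric

/-- elliptic function for the lattice `ℤ + ℤ τ` -/
structure NEll (τ : ℂ) (f : ℂ → ℂ) : Prop where
  mero : ∀ z, MeromorphicAt f z
  ne_top : ∀ z, meromorphicOrderAt f z ≠ ⊤
  add_one : ∀ z, f (z + 1) = f z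
  add_tau : ∀ z, f (z + τ) = f z

lemma NEll.add_lat {τ : ℂ} {f : ℂ → ℂ} (hf : NEll τ f) {l : ℂ} (hl : Lat τ l) (z : ℂ) :
    f (z + l) = f z := by
  obtain ⟨m, n, rfl⟩ := hl
  have h1 : Function.Periodic f 1 := hf.add_one
  have h2 : Function.Periodic f τ := hf.add_tau
  have h3 := h1.int_mul m
  have h4 := h2.int_mul n
  rw [← add_assoc, h4]
  simpa using h3 z

lemma NEll.eq_of_lat {τ : ℂ} {f : ℂ → ℂ} (hf : NEll τ f) {z w : ℂ} (h : Lat τ (z - w)) :
    f z = f w := by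
  have := hf.add_lat h w
  rwa [add_sub_cancel] at this

lemma NEll_const (τ : ℂ) {c : ℂ} (hc : c ≠ 0) : NEll τ (fun _ => c) where
  mero z := MeromorphicAt.const c z
  ne_top z := by rw [mOrd_of_ne analyticAt_const hc]; simp
  add_one z := rfl
  add_tau z := rfl

section
variable {τ : ℂ} (hτ : 0 < τ.im)
include hτ

lemma NEll_EF (b m : ℤ) (D : List (ℂ × ℤ)) (h0 : ddeg D = 0) (h1 : dsum D = m + b * τ) :
    NEll τ (EF τ b D) where
  mero := EF_mero hτ b D
  ne_top z := by rw [EF_order hτ]; simp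
  add_one := EF_add_one b D
  add_tau := EF_add_tau hτ b m D h0 h1

lemma ordAt_EF (b : ℤ) (D : List (ℂ × ℤ)) (z : ℂ) : ordAt (EF τ b D) z = dord τ D z := by
  unfold ordAt
  rw [EF_order hτ]
  simp

omit hτ in
lemma ordAt_of_ne {f : ℂ → ℂ} {z : ℂ} (hf : AnalyticAt ℂ f z) (h : f z ≠ 0) : ordAt f z = 0 := by
  unfold ordAt; rw [mOrd_of_ne hf h]; simp

omit hτ in
lemma ordAt_const {c : ℂ} (hc : c ≠ 0) (z : ℂ) : ordAt (fun _ => c) z = 0 :=
  ordAt_of_ne analyticAt_const hc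

omit hτ in
/-- `f` regular and nonzero at `z` -/
lemma tame_left {f g : ℂ → ℂ} {z : ℂ} (hf : AnalyticAt ℂ f z) (h : f z ≠ 0) :
    tame f g z = f z ^ ordAt g z := by
  unfold tame
  rw [ordAt_of_ne hf h, hf.meromorphicTrailingCoeffAt_of_ne_zero h]
  simp

omit hτ in
/-- `g` regular and nonzero at `z` -/
lemma tame_right {f g : ℂ → ℂ} {z : ℂ} (hg : AnalyticAt ℂ g z) (h : g z ≠ 0) :
    tame f g z = g z ^ (-ordAt f z) := by
  unfold tame
  rw [ordAt_of_ne hg h, hg.meromorphicTrailingCoeffAt_of_ne_zero h]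
  simp

lemma tame_EF_left (b₁ b₂ : ℤ) (D₁ D₂ : List (ℂ × ℤ)) (z : ℂ)
    (h : ∀ p ∈ D₁, ¬ Lat τ (z - p.1)) :
    tame (EF τ b₁ D₁) (EF τ b₂ D₂) z = EF τ b₁ D₁ z ^ dord τ D₂ z := by
  obtain ⟨h1, h2⟩ := EF_good hτ b₁ D₁ z h
  rw [tame_left h1 h2, ordAt_EF hτ]

lemma tame_EF_right (b₁ b₂ : ℤ) (D₁ D₂ : List (ℂ × ℤ)) (z : ℂ)
    (h : ∀ p ∈ D₂, ¬ Lat τ (z - p.1)) :
    tame (EF τ b₁ D₁) (EF τ b₂ D₂) z = EF τ b₂ D₂ z ^ (-dord τ D₁ z) := by
  obtain ⟨h1, h2⟩ := EF_good hτ b₂ D₂ z h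
  rw [tame_right h1 h2, ordAt_EF hτ]

lemma tame_const_EF {c : ℂ} (hc : c ≠ 0) (b : ℤ) (D : List (ℂ × ℤ)) (z : ℂ) :
    tame (fun _ => c) (EF τ b D) z = c ^ dord τ D z := by
  rw [tame_left analyticAt_const hc, ordAt_EF hτ]

end

/-! ### scaling -/

/-- pull back by `z ↦ z / u` -/
def sc (u : ℂ) (f : ℂ → ℂ) : ℂ → ℂ := f ∘ fun z => z / u

lemma sc_apply (u : ℂ) (f : ℂ → ℂ) (z : ℂ) : sc u f z = f (z / u) := rfl

lemma analyticAt_div (u z : ℂ) : AnalyticAt ℂ (fun z => z / u) z := by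
  have : Differentiable ℂ (fun z : ℂ => z / u) := by fun_prop
  exact this.analyticAt z

lemma deriv_div_u (u z : ℂ) : deriv (fun z => z / u) z = 1 / u := by
  have h : HasDerivAt (fun z : ℂ => z / u) (1 / u) z := (hasDerivAt_id z).div_const u
  exact h.deriv

lemma sc_order {u : ℂ} (hu : u ≠ 0) (f : ℂ → ℂ) (z : ℂ) :
    meromorphicOrderAt (sc u f) z = meromorphicOrderAt f (z / u) := by
  refine meromorphicOrderAt_comp_of_deriv_ne_zero (f := f) (g := fun z => z / u)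
    (analyticAt_div u z) ?_
  rw [deriv_div_u]
  exact one_div_ne_zero hu

lemma sc_ordAt {u : ℂ} (hu : u ≠ 0) (f : ℂ → ℂ) (z : ℂ) : ordAt (sc u f) z = ordAt f (z / u) := by
  unfold ordAt; rw [sc_order hu]

lemma sc_mero {u : ℂ} {f : ℂ → ℂ} {z : ℂ} (hf : MeromorphicAt f (z / u)) :
    MeromorphicAt (sc u f) z :=
  MeromorphicAt.comp_analyticAt (g := fun z => z / u) hf (analyticAt_div u z)

lemma sc_tc {u : ℂ} (hu : u ≠ 0) {f : ℂ → ℂ} {z : ℂ} (hf : MeromorphicAt f (z / u)) :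
    meromorphicTrailingCoeffAt (sc u f) z =
      (1 / u) ^ ordAt f (z / u) * meromorphicTrailingCoeffAt f (z / u) := by
  have hnc : ¬ EventuallyConst (fun z => z / u) (𝓝 z) := by
    rw [eventuallyConst_iff_analyticOrderAt_sub_eq_top]
    rw [(analyticAt_div u z).analyticOrderAt_sub_eq_one_of_deriv_ne_zero]
    · simp
    · rw [deriv_div_u]; exact one_div_ne_zero hu
  have h := MeromorphicAt.meromorphicTrailingCoeffAt_comp (f := f) (g := fun z => z / u) hf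
    (analyticAt_div u z) hnc
  unfold sc ordAt
  rw [h, smul_eq_mul]
  congr 2
  have e : (fun x => x / u - z / u) = (fun _ => 1 / u) * (fun x => x - z) := by
    funext x; simp; ring
  rw [e, MeromorphicAt.meromorphicTrailingCoeffAt_mul (MeromorphicAt.const _ _)
    (by fun_prop), meromorphicTrailingCoeffAt_const]
  classical
  have := meromorphicTrailingCoeffAt_id_sub_const (x := z) (y := z)
  have e2 : (fun x : ℂ => x - z) = (· - z) := rfl
  rw [e2, this]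
  simp

lemma sc_tame {u : ℂ} (hu : u ≠ 0) {f g : ℂ → ℂ} {z : ℂ} (hf : MeromorphicAt f (z / u))
    (hg : MeromorphicAt g (z / u)) : tame (sc u f) (sc u g) z = tame f g (z / u) := by
  unfold tame
  rw [sc_ordAt hu, sc_ordAt hu, sc_tc hu hf, sc_tc hu hg, mul_zpow, mul_zpow, ← zpow_mul,
    ← zpow_mul, mul_comm (ordAt g (z / u)) (ordAt f (z / u))]
  congr 1
  rw [mul_div_mul_left]
  exact zpow_ne_zero _ (one_div_ne_zero hu)

end Pool.Agent.Helper21.Reg
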