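import Mathlib

/-! # A theta product and its basic properties -/

noncomputable section

namespace Pool.Agent.Helper21.Reg

open Complex Filter Topology Set Metric

/-- The infinite product `∏_{n ≥ 0} (1 - q^n s)`. -/
def qp (q s : ℂ) : ℂ := ∏' n : ℕ, (1 + -(q ^ n * s))

lemma qp_summable {q : ℂ} (hq : ‖q‖ < 1) (s : ℂ) : Summable fun n : ℕ => -(q ^ n * s) := by
  have := (summable_geometric_of_norm_lt_one hq).mul_right s
  exact this.neg

lemma qp_summable_norm {q : ℂ} (hq : ‖q‖ < 1) (s : ℂ) :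
    Summable fun n : ℕ => ‖-(q ^ n * s)‖ := by
  simp only [norm_neg, norm_mul, norm_pow]
  exact (summable_geometric_of_lt_one (norm_nonneg _) hq).mul_right _

lemma qp_multipliable {q : ℂ} (hq : ‖q‖ < 1) (s : ℂ) :
    Multipliable fun n : ℕ => (1 + -(q ^ n * s)) :=
  Complex.multipliable_one_add_of_summable (qp_summable hq s)

lemma qp_zero (q : ℂ) : qp q 0 = 1 := by simp [qp]

lemma qp_step {q : ℂ} (hq : ‖q‖ < 1) (s : ℂ) : qp q s = (1 - s) * qp q (q * s) := by
  unfold qp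
  rw [tprod_eq_zero_mul']
  · congr 1
    · simp [sub_eq_add_neg]
    · refine tprod_congr fun n => ?_
      rw [pow_succ]; ring
  · have := qp_multipliable hq (q * s)
    refine this.congr fun n => ?_
    rw [pow_succ]; ring

lemma qp_ne_zero {q : ℂ} (hq : ‖q‖ < 1) {s : ℂ} (hs : ‖s‖ < 1) : qp q s ≠ 0 := by
  unfold qp
  refine tprod_one_add_ne_zero_of_summable (f := fun n : ℕ => -(q ^ n * s)) ?_
    (qp_summable_norm hq s)
  intro n h
  have h1 : q ^ n * s = 1 := by linear_combination -h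
  have h2 : ‖q ^ n * s‖ < 1 := by
    rw [norm_mul, norm_pow]
    calc ‖q‖ ^ n * ‖s‖ ≤ 1 * ‖s‖ := by
          gcongr
          exact pow_le_one₀ (norm_nonneg _) hq.le
      _ < 1 := by simpa using hs
  rw [h1] at h2
  simp at h2

lemma qp_differentiable {q : ℂ} (hq : ‖q‖ < 1) : Differentiable ℂ (qp q) := by
  have key : HasProdLocallyUniformlyOn (fun (n : ℕ) (s : ℂ) => 1 + -(q ^ n * s))
      (fun s => ∏' n : ℕ, (1 + -(q ^ n * s))) univ := by
    apply hasProdLocallyUniformlyOn_of_forall_compact isOpen_univ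
    intro K _ hK
    obtain ⟨M, hM⟩ := hK.isBounded.exists_norm_le
    refine Summable.hasProdUniformlyOn_nat_one_add
      (u := fun n => ‖q‖ ^ n * M) hK ?_ ?_ ?_
    · exact (summable_geometric_of_lt_one (norm_nonneg _) hq).mul_right _
    · refine Eventually.of_forall fun n x hx => ?_
      rw [norm_neg, norm_mul, norm_pow]
      gcongr
      exact hM x hx
    · intro n; fun_prop
  have h2 := key.differentiableOn (.of_forall fun s => by
    simpa [Finset.prod_fn] using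
      DifferentiableOn.finsetProd (fun _ _ => by fun_prop)) isOpen_univ
  exact differentiableOn_univ.mp h2

/-- `w = exp (2 π i z)`. -/
def ee (z : ℂ) : ℂ := Complex.exp (2 * Real.pi * I * z)

lemma ee_ne_zero (z : ℂ) : ee z ≠ 0 := Complex.exp_ne_zero _

lemma ee_add (z w : ℂ) : ee (z + w) = ee z * ee w := by
  unfold ee; rw [← Complex.exp_add]; ring_nf

lemma ee_neg (z : ℂ) : ee (-z) = (ee z)⁻¹ := by
  unfold ee; rw [← Complex.exp_neg]; ring_nf

lemma ee_zero : ee 0 = 1 := by simp [ee]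

lemma ee_int (n : ℤ) : ee n = 1 := by
  unfold ee
  rw [Complex.exp_eq_one_iff]
  exact ⟨n, by ring⟩

lemma ee_one : ee 1 = 1 := by simpa using ee_int 1

lemma ee_add_one (z : ℂ) : ee (z + 1) = ee z := by rw [ee_add, ee_one, mul_one]

lemma ee_eq_one_iff (z : ℂ) : ee z = 1 ↔ ∃ n : ℤ, z = n := by
  unfold ee
  rw [Complex.exp_eq_one_iff]
  have h : (2 * (Real.pi : ℂ) * I) ≠ 0 := Complex.two_pi_I_ne_zero
  constructor
  · rintro ⟨n, hn⟩
    refine ⟨n, ?_⟩
    have : (2 * (Real.pi : ℂ) * I) * z = (2 * (Real.pi : ℂ) * I) * n := by rw [hn]; ring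
    exact mul_left_cancel₀ h this
  · rintro ⟨n, rfl⟩
    exact ⟨n, by ring⟩

lemma norm_ee (z : ℂ) : ‖ee z‖ = Real.exp (-(2 * Real.pi * z.im)) := by
  unfold ee
  rw [Complex.norm_exp]
  congr 1
  simp

lemma ee_zsmul (z : ℂ) (n : ℤ) : ee (n * z) = ee z ^ n := by
  unfold ee
  rw [← Complex.exp_int_mul]
  ring_nf

lemma differentiable_ee : Differentiable ℂ ee := by
  unfold ee; fun_prop

lemma norm_q_lt {τ : ℂ} (hτ : 0 < τ.im) : ‖ee τ‖ < 1 := by
  rw [norm_ee, Real.exp_lt_one_iff]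
  have := Real.pi_pos
  nlinarith [mul_pos this hτ]

/-- The theta product. -/
def Th (τ z : ℂ) : ℂ := qp (ee τ) (ee z) * qp (ee τ) (ee τ * (ee z)⁻¹)

section
variable {τ : ℂ} (hτ : 0 < τ.im)
include hτ

lemma Th_differentiable : Differentiable ℂ (Th τ) := by
  unfold Th
  have h1 := qp_differentiable (norm_q_lt hτ)
  refine (h1.comp differentiable_ee).mul (h1.comp ?_)
  refine (differentiable_ee.inv (fun z => ee_ne_zero z)).const_mul _

omit hτ in
lemma Th_add_one (z : ℂ) : Th τ (z + 1) = Th τ z := by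
  unfold Th; rw [ee_add_one]

lemma Th_add_tau (z : ℂ) : Th τ (z + τ) = -(ee z)⁻¹ * Th τ z := by
  unfold Th
  have hw := ee_ne_zero z
  have hq := ee_ne_zero τ
  have e1 : ee τ * (ee (z + τ))⁻¹ = (ee z)⁻¹ := by
    rw [ee_add]; field_simp
  have e2 : ee (z + τ) = ee τ * ee z := by rw [ee_add, mul_comm]
  rw [e1, e2, qp_step (norm_q_lt hτ) (ee z), qp_step (norm_q_lt hτ) ((ee z)⁻¹)]
  field_simp
  ring

lemma Th_neg (z : ℂ) : Th τ (-z) = -(ee z)⁻¹ * Th τ z := by
  rw [← Th_add_tau hτ z]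
  unfold Th
  have hw := ee_ne_zero z
  have hq := ee_ne_zero τ
  rw [ee_add, ee_neg]
  have e1 : ee τ * (ee z * ee τ)⁻¹ = (ee z)⁻¹ := by field_simp
  rw [e1, inv_inv, mul_comm (ee z) (ee τ), mul_comm]

omit hτ in
lemma Th_add_int (z : ℂ) (n : ℤ) : Th τ (z + n) = Th τ z := by
  have h : Function.Periodic (Th τ) 1 := Th_add_one
  simpa using h.int_mul n z

lemma Th_ne_zero_of_im {z : ℂ} (h0 : 0 < z.im) (h1 : z.im < τ.im) : Th τ z ≠ 0 := by
  unfold Th
  have hq := norm_q_lt hτ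
  refine mul_ne_zero (qp_ne_zero hq (norm_q_lt h0)) (qp_ne_zero hq ?_)
  rw [← ee_neg, ← ee_add]
  apply norm_q_lt
  simp [h1]

lemma Th_factor (z : ℂ) : Th τ z =
    (1 - ee z) * (qp (ee τ) (ee τ * ee z) * qp (ee τ) (ee τ * (ee z)⁻¹)) := by
  unfold Th
  rw [qp_step (norm_q_lt hτ) (ee z)]
  ring

lemma factor_ne_zero {z : ℂ} (h0 : -τ.im < z.im) (h1 : z.im < τ.im) :
    qp (ee τ) (ee τ * ee z) * qp (ee τ) (ee τ * (ee z)⁻¹) ≠ 0 := by
  have hq := norm_q_lt hτ
  refine mul_ne_zero (qp_ne_zero hq ?_) (qp_ne_zero hq ?_)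
  · rw [← ee_add]
    apply norm_q_lt
    simp only [add_im]; linarith
  · rw [← ee_neg, ← ee_add]
    apply norm_q_lt
    simp only [add_im, neg_im]; linarith

end

/-- membership in the lattice `ℤ + ℤ τ`. -/
def Lat (τ z : ℂ) : Prop := ∃ m n : ℤ, z = m + n * τ

lemma Lat_zero (τ : ℂ) : Lat τ 0 := ⟨0, 0, by simp⟩

lemma Lat.add {τ z w : ℂ} (hz : Lat τ z) (hw : Lat τ w) : Lat τ (z + w) := by
  obtain ⟨a, b, rfl⟩ := hz
  obtain ⟨c, d, rfl⟩ := hw
  exact ⟨a + c, b + d, by push_cast; ring⟩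

lemma Lat.neg {τ z : ℂ} (hz : Lat τ z) : Lat τ (-z) := by
  obtain ⟨a, b, rfl⟩ := hz
  exact ⟨-a, -b, by push_cast; ring⟩

lemma Lat.sub {τ z w : ℂ} (hz : Lat τ z) (hw : Lat τ w) : Lat τ (z - w) := by
  rw [sub_eq_add_neg]; exact hz.add hw.neg

lemma Lat.zsmul {τ z : ℂ} (hz : Lat τ z) (n : ℤ) : Lat τ (n * z) := by
  obtain ⟨a, b, rfl⟩ := hz
  exact ⟨n * a, n * b, by push_cast; ring⟩

lemma Lat_int (τ : ℂ) (n : ℤ) : Lat τ n := ⟨n, 0, by simp⟩

lemma Lat_tau (τ : ℂ) : Lat τ τ := ⟨0, 1, by simp⟩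

section
variable {τ : ℂ} (hτ : 0 < τ.im)
include hτ

/-- a general quasi-periodicity: translating by `n τ` multiplies by a nonvanishing factor. -/
lemma Th_add_int_tau_zero_iff (z : ℂ) (n : ℤ) : Th τ (z + n * τ) = 0 ↔ Th τ z = 0 := by
  induction n using Int.induction_on with
  | zero => simp
  | succ i ih =>
    have : z + ((i : ℤ) + 1 : ℤ) * τ = (z + (i : ℤ) * τ) + τ := by push_cast; ring
    rw [this, Th_add_tau hτ, mul_eq_zero, ih]
    simp [ee_ne_zero]
  | pred i ih =>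
    have : (z + (-(i : ℤ) : ℤ) * τ) = (z + (-(i : ℤ) - 1 : ℤ) * τ) + τ := by push_cast; ring
    rw [← ih, this, Th_add_tau hτ, mul_eq_zero]
    simp [ee_ne_zero]

lemma Th_eq_zero_iff (z : ℂ) : Th τ z = 0 ↔ Lat τ z := by
  -- reduce to the strip `0 ≤ im z < im τ`
  set n : ℤ := ⌊z.im / τ.im⌋ with hn
  have h1 : (n : ℝ) * τ.im ≤ z.im := by
    have := Int.floor_le (z.im / τ.im)
    rwa [le_div_iff₀ hτ] at this
  have h2 : z.im < (n + 1 : ℝ) * τ.im := by
    have := Int.lt_floor_add_one (z.im / τ.im)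
    rwa [div_lt_iff₀ hτ] at this
  set z' : ℂ := z + (-n : ℤ) * τ with hz'
  have hzim : z'.im = z.im - n * τ.im := by
    rw [hz']; simp; ring
  have e1 : Th τ z' = 0 ↔ Th τ z = 0 := Th_add_int_tau_zero_iff hτ z (-n)
  have e2 : Lat τ z' ↔ Lat τ z := by
    constructor
    · intro h
      have := h.add ((Lat_tau τ).zsmul n)
      rw [hz'] at this
      convert this using 1
      push_cast; ring
    · intro h
      exact h.add ((Lat_tau τ).zsmul (-n))
  rw [← e1, ← e2]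
  have h3 : 0 ≤ z'.im := by rw [hzim]; linarith
  have h4 : z'.im < τ.im := by rw [hzim]; linarith
  rw [Th_factor hτ, mul_eq_zero, or_iff_left (factor_ne_zero hτ (by linarith) h4),
    sub_eq_zero, eq_comm, ee_eq_one_iff]
  constructor
  · rintro ⟨m, hm⟩
    exact ⟨m, 0, by simp [hm]⟩
  · rintro ⟨a, b, hab⟩
    have him : z'.im = b * τ.im := by rw [hab]; simp
    have hb : b = 0 := by
      rw [him] at h3 h4
      have hb1 : (0 : ℝ) ≤ b := by
        by_contra hneg
        push Not at hneg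
        nlinarith
      have hb2 : (b : ℝ) < 1 := by
        by_contra hneg
        push Not at hneg
        nlinarith
      have hb1' : (0 : ℤ) ≤ b := by exact_mod_cast hb1
      have hb2' : b < 1 := by exact_mod_cast hb2
      omega
    exact ⟨a, by rw [hab, hb]; simp⟩

end

end Pool.Agent.Helper21.Reg
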